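import Pool.Agent.Helper44.Hex.Count

set_option linter.unusedSectionVars false

/-!
Discharging, the supply side and the total.
-/

namespace Pool.Agent.H44

open Finset

lemma sum_rot (h : Fin 6) (f : Fin 6 → ℤ) :
    ∑ d, f d = f h + f (h + 1) + f (h + 2) + f (h + 3) + f (h + 4) + f (h + 5) := by
  have e : ∀ f : Fin 6 → ℤ, ∑ d, f d = ∑ d, f (h + d) := by
    intro f
    exact (Equiv.sum_comp (Equiv.addLeft h) f).symm
  rw [e f, Fin.sum_univ_six, add_zero]

namespace Fam

variable {S : Finset V} {q : ℕ} (A : Fam S q)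

lemma F_le (j : ℕ) (v : V) (d : Fin 6) : A.F j v d ≤ 2 := by
  unfold F; split_ifs <;> norm_num

lemma M_add_m (v : V) (d : Fin 6) : A.M v d + A.m v d ≤ 2 := by
  have h1 : A.M v d + A.m v d ≤ ((range q).filter fun j => A.mu j v d ≠ 0).card := by
    unfold M m
    rw [← Finset.card_union_of_disjoint]
    · apply Finset.card_le_card
      intro j hj
      rw [Finset.mem_union, Finset.mem_filter, Finset.mem_filter] at hj
      rw [Finset.mem_filter]
      rcases hj with hj | hj
      · exact ⟨hj.1, by rw [hj.2]; norm_num⟩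
      · exact ⟨hj.1, by rw [hj.2]; norm_num⟩
    · rw [Finset.disjoint_left]
      intro j h h'
      rw [Finset.mem_filter] at h h'
      have := h.2.symm.trans h'.2
      norm_num at this
  have h2 : ((range q).filter fun j => A.mu j v d ≠ 0).card ≤ 2 := by
    by_contra hcon
    push Not at hcon
    rw [Finset.two_lt_card] at hcon
    obtain ⟨a, ha, b, hb, c, hc, hab, hac, hbc⟩ := hcon
    rw [Finset.mem_filter, Finset.mem_range] at ha hb hc
    rcases A.cov v d a b c ha.1 hb.1 hc.1 (A.mu_ne.1 ha.2) (A.mu_ne.1 hb.2) (A.mu_ne.1 hc.2)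
      with h | h | h
    · exact hab h
    · exact hac h
    · exact hbc h
  omega

lemma sum_mu (v : V) (d : Fin 6) : ∑ j ∈ range q, A.mu j v d = (A.M v d : ℤ) - A.m v d := by
  unfold M m
  rw [Finset.card_filter, Finset.card_filter]
  push_cast
  rw [← Finset.sum_sub_distrib]
  refine Finset.sum_congr rfl fun j _ => ?_
  rcases A.mu_cases j v d with h | h | h <;> rw [h] <;> norm_num

lemma mu_off {j : ℕ} (hj : j < q) {v : V} {d : Fin 6} (h : ¬ (v + e d ∈ S)) : A.mu j v d = 0 := by
  by_contra h'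
  exact h (A.mu_mem hj h').2

lemma M_off {v : V} {d : Fin 6} (h : ¬ (v + e d ∈ S)) : A.M v d = 0 := by
  unfold M
  rw [Finset.card_eq_zero, Finset.filter_eq_empty_iff]
  intro j hj
  rw [A.mu_off (Finset.mem_range.1 hj) h]; norm_num

lemma m_off {v : V} {d : Fin 6} (h : ¬ (v + e d ∈ S)) : A.m v d = 0 := by
  unfold m
  rw [Finset.card_eq_zero, Finset.filter_eq_empty_iff]
  intro j hj
  rw [A.mu_off (Finset.mem_range.1 hj) h]; norm_num

lemma F_off {j : ℕ} (hj : j < q) {v : V} {d : Fin 6} (h : ¬ (v + e d ∈ S)) : A.F j v d = 0 := by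
  unfold F
  rw [if_neg]
  rw [A.mu_off hj h]; norm_num

lemma sumF_off {v : V} {d : Fin 6} (h : ¬ (v + e d ∈ S)) : ∑ j ∈ range q, A.F j v d = 0 :=
  Finset.sum_eq_zero fun _ hj => A.F_off (Finset.mem_range.1 hj) h

open Classical in
lemma sumF_straight {v : V} {d : Fin 6} (h : v + e (d + 3) ∈ S) :
    ∑ j ∈ range q, A.F j v d = if A.one1 v d then 1 else 0 := by
  by_cases h1 : A.one1 v d
  · rw [if_pos h1]
    have h2 : ∀ j ∈ range q, A.F j v d = if A.mu j v d = 1 then 1 else 0 := by
      intro j _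
      unfold F
      rw [if_pos h, if_pos h1]
    rw [Finset.sum_congr rfl h2]
    have h3 := h1.1
    unfold M at h3
    rw [Finset.card_filter] at h3
    exact_mod_cast h3
  · rw [if_neg h1]
    apply Finset.sum_eq_zero
    intro j _
    unfold F
    rw [if_pos h, if_neg h1]
    simp

variable (hT : TriFree S)

include hT

/-- supply at a straight vertex -/
lemma budget_straight {v : V} (hv : v ∈ S) {h : Fin 6} (h1 : v + e h ∈ S)
    (h2 : v + e (h + 3) ∈ S) :
    2 * ∑ d, ∑ j ∈ range q, A.F j v d ≤ 4 - ∑ d, ∑ j ∈ range q, A.mu j v d := by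
  have n1 : ¬ (v + e (h + 1) ∈ S) := fun hg => hT v h ⟨hv, h1, hg⟩
  have n2 : ¬ (v + e (h + 2) ∈ S) := fun hg => hT v (h + 2) ⟨hv, hg, by
    rw [(by decide : ∀ d : Fin 6, d + 2 + 1 = d + 3) h]; exact h2⟩
  have n4 : ¬ (v + e (h + 4) ∈ S) := fun hg => hT v (h + 3) ⟨hv, h2, by
    rw [(by decide : ∀ d : Fin 6, d + 3 + 1 = d + 4) h]; exact hg⟩
  have n5 : ¬ (v + e (h + 5) ∈ S) := fun hg => hT v (h + 5) ⟨hv, hg, by
    rw [(by decide : ∀ d : Fin 6, d + 5 + 1 = d) h]; exact h1⟩
  have h2' : v + e (h + 3 + 3) ∈ S := by rw [fin6_b]; exact h1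
  rw [sum_rot h, sum_rot h, A.sumF_off n1, A.sumF_off n2, A.sumF_off n4, A.sumF_off n5]
  simp only [sum_mu]
  rw [A.M_off n1, A.M_off n2, A.M_off n4, A.M_off n5, A.m_off n1, A.m_off n2, A.m_off n4,
    A.m_off n5, A.M_straight hT hv h1 h2, A.m_straight hT hv h1 h2]
  rw [A.sumF_straight h2, A.sumF_straight h2']
  have hb := A.M_add_m v h
  by_cases h11 : A.one1 v h
  · rw [if_pos h11, if_pos ((A.one1_straight hT hv h1 h2).2 h11)]
    obtain ⟨a, b⟩ := h11
    rw [a, b]; norm_num
  · rw [if_neg h11, if_neg (fun h' => h11 ((A.one1_straight hT hv h1 h2).1 h'))]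
    have hb' : (A.M v h : ℤ) + A.m v h ≤ 2 := by exact_mod_cast hb
    have hm : (0 : ℤ) ≤ A.m v h := Int.natCast_nonneg _
    push_cast
    linarith

omit hT in
lemma four_distinct : ∀ a b c d : Fin 6, evn a = evn b → evn a = evn c → evn a = evn d →
    a = b ∨ a = c ∨ a = d ∨ b = c ∨ b = d ∨ c = d := by decide

lemma bent_par {v : V} (hv : v ∈ S) (hb : ∀ h, ¬ (v + e h ∈ S ∧ v + e (h + 3) ∈ S))
    {d d' : Fin 6} (h1 : v + e d ∈ S) (h2 : v + e d' ∈ S) : evn d = evn d' := by
  rcases fin6_cases d d' with rfl | rfl | rfl | rfl | rfl | rfl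
  · rfl
  · exact (hT v d ⟨hv, h1, h2⟩).elim
  · exact (by decide : ∀ d : Fin 6, evn d = evn (d + 2)) d
  · exact (hb d ⟨h1, h2⟩).elim
  · exact (by decide : ∀ d : Fin 6, evn d = evn (d + 4)) d
  · refine (hT v (d + 5) ⟨hv, h2, ?_⟩).elim
    rw [(by decide : ∀ d : Fin 6, d + 5 + 1 = d) d]; exact h1

lemma bent_mu_eq {v : V} (hv : v ∈ S) (hb : ∀ h, ¬ (v + e h ∈ S ∧ v + e (h + 3) ∈ S)) {j : ℕ}
    (hj : j < q) {d d' : Fin 6} (h : A.mu j v d ≠ 0) (h' : A.mu j v d' ≠ 0) :
    A.mu j v d = A.mu j v d' ↔ inc (A.K j) v d = inc (A.K j) v d' := by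
  have he : eps d = eps d' := by
    unfold eps
    rw [bent_par hT hv hb (A.mu_mem hj h).2 (A.mu_mem hj h').2]
  unfold mu
  rw [he]
  rcases A.se_cases j d' with hs | hs <;> rw [hs] <;> constructor <;> intro h1 <;> linarith

lemma bent_mu_sum {v : V} (hv : v ∈ S) (hb : ∀ h, ¬ (v + e h ∈ S ∧ v + e (h + 3) ∈ S)) {j : ℕ}
    (hj : j < q) : ∑ d, A.mu j v d = 0 := by
  by_cases hx : ∃ d0, v + e d0 ∈ S
  · obtain ⟨d0, hd0⟩ := hx
    have h1 : ∀ d, A.mu j v d = A.sg j * eps d0 * inc (A.K j) v d := by
      intro d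
      by_cases hd : v + e d ∈ S
      · unfold mu eps
        rw [bent_par hT hv hb hd hd0]
      · unfold mu
        rw [inc_zero (A.closed j hj) (fun h => hd h.2)]; ring
    rw [Finset.sum_congr rfl fun d _ => h1 d, ← Finset.mul_sum, inc_sum, mul_zero]
  · push Not at hx
    apply Finset.sum_eq_zero
    intro d _
    exact A.mu_off hj (hx d)

/-- a set through a bent vertex has one edge of each sign there -/
lemma bent_partner {v : V} (hv : v ∈ S) (hb : ∀ h, ¬ (v + e h ∈ S ∧ v + e (h + 3) ∈ S)) {j : ℕ}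
    (hj : j < q) {d : Fin 6} (h : A.mu j v d ≠ 0) :
    ∃ d', A.mu j v d' = - A.mu j v d ∧ ∀ d'', A.mu j v d'' ≠ 0 → d'' = d ∨ d'' = d' := by
  obtain ⟨d', h1, h2⟩ := inc_pair (A.closed j hj) hT (A.mu_ne.1 h)
  have h3 : inc (A.K j) v d' ≠ 0 := by rw [h1]; simpa using A.mu_ne.1 h
  have h4 := A.mu_ne.2 h3
  refine ⟨d', ?_, fun d'' h'' => h2 d'' (A.mu_ne.1 h'')⟩
  have h5 : ¬ (A.mu j v d' = A.mu j v d) := by
    rw [A.bent_mu_eq hT hv hb hj h4 h, h1]
    intro h6
    apply A.mu_ne.1 h
    linarith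
  rcases A.mu_cases j v d with c | c | c
  · exact absurd c h
  · rcases A.mu_cases j v d' with c' | c' | c'
    · exact absurd c' h4
    · rw [c, c'] at h5; exact absurd rfl h5
    · rw [c, c']
  · rcases A.mu_cases j v d' with c' | c' | c'
    · exact absurd c' h4
    · rw [c, c']; norm_num
    · rw [c, c'] at h5; exact absurd rfl h5

/-- supply at a bent vertex -/
lemma budget_bent {v : V} (hv : v ∈ S) (hb : ∀ h, ¬ (v + e h ∈ S ∧ v + e (h + 3) ∈ S)) :
    ∑ d, ∑ j ∈ range q, A.F j v d ≤ 2 := by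
  classical
  by_cases hg : ∃ j0, j0 < q ∧ ∃ d0, A.mu j0 v d0 = 1 ∧ A.one1 v d0 ∧ GoodAt (A.K j0) (A.ty j0) v
  · obtain ⟨j0, hj0, d0, hmu0, h11, hgood⟩ := hg
    have hne0 : A.mu j0 v d0 ≠ 0 := by rw [hmu0]; exact one_ne_zero
    obtain ⟨i0, hi0⟩ := Finset.card_eq_one.1 h11.2
    have hi0' : i0 ∈ (range q).filter fun j => A.mu j v d0 = -1 := by
      rw [hi0]; exact Finset.mem_singleton_self _
    rw [Finset.mem_filter, Finset.mem_range] at hi0'
    obtain ⟨hi0q, hmui⟩ := hi0'
    have hnei : A.mu i0 v d0 ≠ 0 := by rw [hmui]; norm_num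
    have hij : i0 ≠ j0 := by
      rintro rfl
      rw [hmu0] at hmui; norm_num at hmui
    obtain ⟨hnogood, hsame⟩ := A.pair v d0 i0 j0 hi0q hj0 hij (A.mu_ne.1 hnei) (A.mu_ne.1 hne0) hgood
    obtain ⟨d1, hd1, hall⟩ := A.bent_partner hT hv hb hj0 hne0
    rw [hmu0] at hd1
    have hne1 : A.mu j0 v d1 ≠ 0 := by rw [hd1]; norm_num
    have hi1 : A.mu i0 v d1 ≠ 0 := A.mu_ne.2 (hsame d1 (A.mu_ne.1 hne1))
    have hd01 : d0 ≠ d1 := by
      rintro rfl
      rw [hmu0] at hd1; norm_num at hd1
    obtain ⟨d1', hd1', halli⟩ := A.bent_partner hT hv hb hi0q hnei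
    rw [hmui] at hd1'
    have hd1eq : d1' = d1 := by
      rcases halli d1 hi1 with h | h
      · exact absurd h.symm hd01
      · exact h.symm
    rw [hd1eq] at hd1' halli
    have hmui1 : A.mu i0 v d1 = 1 := by rw [hd1']; norm_num
    -- only (j0, d0) contributes
    have hzero : ∀ d, ∀ j ∈ range q, (d ≠ d0 ∨ j ≠ j0) → A.F j v d = 0 := by
      intro d j hj hne
      have hjq := Finset.mem_range.1 hj
      by_contra hF
      have hmu : A.mu j v d = 1 := by
        by_contra h
        apply hF
        unfold F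
        rw [if_neg h]
      have hmune : A.mu j v d ≠ 0 := by rw [hmu]; exact one_ne_zero
      have hdS := (A.mu_mem hjq hmune).2
      by_cases hjj : j = j0
      · subst hjj
        have hdd : d ≠ d0 := by
          rcases hne with h | h
          · exact h
          · exact absurd rfl h
        rcases hall d hmune with h | h
        · exact hdd h
        · rw [h, hd1] at hmu; norm_num at hmu
      · by_cases hji : j = i0
        · subst hji
          have hd : d = d1 := by
            rcases halli d hmune with h | h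
            · rw [h, hmui] at hmu; norm_num at hmu
            · exact h
          subst hd
          have hM : 1 ≤ A.M v d := by
            unfold M
            rw [Nat.one_le_iff_ne_zero, Finset.card_ne_zero]
            exact ⟨j, Finset.mem_filter.2 ⟨hj, hmu⟩⟩
          have hm : 1 ≤ A.m v d := by
            unfold m
            rw [Nat.one_le_iff_ne_zero, Finset.card_ne_zero]
            exact ⟨j0, Finset.mem_filter.2 ⟨Finset.mem_range.2 hj0, hd1⟩⟩
          have hMm := A.M_add_m v d
          have h11' : A.one1 v d := ⟨by omega, by omega⟩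
          apply hF
          unfold F
          rw [if_pos hmu, if_neg (fun h => hb d ⟨hdS, h⟩), if_pos h11', if_neg hnogood]
        · -- a third set
          obtain ⟨d', hd', _⟩ := A.bent_partner hT hv hb hjq hmune
          rw [hmu] at hd'
          have hmune' : A.mu j v d' ≠ 0 := by rw [hd']; norm_num
          have hdd' : d ≠ d' := by
            rintro rfl
            rw [hmu] at hd'; norm_num at hd'
          have key : ∀ g, A.mu j v g ≠ 0 → g ≠ d0 ∧ g ≠ d1 := by
            intro g hgne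
            constructor
            · rintro rfl
              rcases A.cov v g j j0 i0 hjq hj0 hi0q (A.mu_ne.1 hgne) (A.mu_ne.1 hne0)
                (A.mu_ne.1 hnei) with h | h | h
              · exact hjj h
              · exact hji h
              · exact hij h.symm
            · rintro rfl
              rcases A.cov v g j j0 i0 hjq hj0 hi0q (A.mu_ne.1 hgne) (A.mu_ne.1 hne1)
                (A.mu_ne.1 hi1) with h | h | h
              · exact hjj h
              · exact hji h
              · exact hij h.symm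
          have k1 := key d hmune
          have k2 := key d' hmune'
          have s0 := (A.mu_mem hj0 hne0).2
          have s1 := (A.mu_mem hj0 hne1).2
          have s2 := (A.mu_mem hjq hmune').2
          rcases four_distinct d d' d0 d1 (bent_par hT hv hb hdS s2)
            (bent_par hT hv hb hdS s0) (bent_par hT hv hb hdS s1) with h | h | h | h | h | h
          · exact hdd' h
          · exact k1.1 h
          · exact k1.2 h
          · exact k2.1 h
          · exact k2.2 h
          · exact hd01 h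
    rw [Finset.sum_eq_single d0]
    · rw [Finset.sum_eq_single j0]
      · exact A.F_le j0 v d0
      · intro j hj hjne
        exact hzero d0 j hj (Or.inr hjne)
      · intro h; exact absurd (Finset.mem_range.2 hj0) h
    · intro d _ hd
      exact Finset.sum_eq_zero fun j hj => hzero d j hj (Or.inl hd)
    · intro h; exact absurd (Finset.mem_univ _) h
  · -- no good corner of status (1,1)
    have hF : ∀ d, ∑ j ∈ range q, A.F j v d = if A.one1 v d then 0 else (A.M v d : ℤ) := by
      intro d
      have h1 : ∀ j ∈ range q, A.F j v d =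
          if A.one1 v d then 0 else (if A.mu j v d = 1 then 1 else 0) := by
        intro j hj
        have hjq := Finset.mem_range.1 hj
        unfold F
        by_cases hmu : A.mu j v d = 1
        · have hdS := (A.mu_mem hjq (v := v) (d := d) (by rw [hmu]; exact one_ne_zero)).2
          have hns : ¬ (v + e (d + 3) ∈ S) := fun h => hb d ⟨hdS, h⟩
          rw [if_pos hmu, if_neg hns, if_pos hmu]
          by_cases h11 : A.one1 v d
          · rw [if_pos h11, if_pos h11, if_neg (fun h => hg ⟨j, hjq, d, hmu, h11, h⟩)]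
          · rw [if_neg h11, if_neg h11]
        · rw [if_neg hmu, if_neg hmu]; simp
      rw [Finset.sum_congr rfl h1]
      by_cases h11 : A.one1 v d
      · simp only [if_pos h11]; simp
      · simp only [if_neg h11]
        unfold M
        rw [Finset.card_filter]
        push_cast
        rfl
    have htot : ∑ d, ((A.M v d : ℤ) - A.m v d) = 0 := by
      rw [Finset.sum_congr rfl fun d _ => (A.sum_mu v d).symm, Finset.sum_comm]
      exact Finset.sum_eq_zero fun j hj => A.bent_mu_sum hT hv hb (Finset.mem_range.1 hj)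
    rw [Finset.sum_congr rfl fun d _ => hF d]
    have hb' := fun d => A.M_add_m v d
    rw [Fin.sum_univ_six] at htot ⊢
    have c0 := hb' 0
    have c1 := hb' 1
    have c2 := hb' 2
    have c3 := hb' 3
    have c4 := hb' 4
    have c5 := hb' 5
    unfold one1
    by_cases hcl : ∃ d, evn d = true ∧ v + e d ∈ S
    · obtain ⟨d, hd, hdS⟩ := hcl
      have hz : ∀ g, evn g = false → ¬ (v + e g ∈ S) := by
        intro g hg' hgS
        have := bent_par hT hv hb hdS hgS
        rw [hd, hg'] at this
        exact absurd this (by decide)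
      have z1 := hz 1 rfl
      have z3 := hz 3 rfl
      have z5 := hz 5 rfl
      rw [A.M_off z1, A.m_off z1, A.M_off z3, A.m_off z3, A.M_off z5, A.m_off z5] at htot
      rw [A.M_off z1, A.m_off z1, A.M_off z3, A.m_off z3, A.M_off z5, A.m_off z5]
      push_cast at htot ⊢
      split_ifs <;> omega
    · push Not at hcl
      have z0 := hcl 0 rfl
      have z2 := hcl 2 rfl
      have z4 := hcl 4 rfl
      rw [A.M_off z0, A.m_off z0, A.M_off z2, A.m_off z2, A.M_off z4, A.m_off z4] at htot
      rw [A.M_off z0, A.m_off z0, A.M_off z2, A.m_off z2, A.M_off z4, A.m_off z4]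
      push_cast at htot ⊢
      split_ifs <;> omega

theorem budget {v : V} (hv : v ∈ S) :
    2 * ∑ j ∈ range q, ∑ d, A.F j v d ≤ 4 - ∑ j ∈ range q, ∑ d, A.mu j v d := by
  by_cases hb : ∃ h, v + e h ∈ S ∧ v + e (h + 3) ∈ S
  · obtain ⟨h, h1, h2⟩ := hb
    rw [Finset.sum_comm, Finset.sum_comm (f := fun j d => A.mu j v d)]
    exact A.budget_straight hT hv h1 h2
  · push Not at hb
    have hb' : ∀ h, ¬ (v + e h ∈ S ∧ v + e (h + 3) ∈ S) := fun h h' => hb h h'.1 h'.2
    have h1 := A.budget_bent hT hv hb'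
    have h2 : ∑ j ∈ range q, ∑ d, A.mu j v d = 0 :=
      Finset.sum_eq_zero fun j hj => A.bent_mu_sum hT hv hb' (Finset.mem_range.1 hj)
    rw [h2, Finset.sum_comm]
    linarith

include A in
/-- total supply against total demand -/
theorem total : 9 * (q : ℤ) ≤ 2 * (S.card : ℤ) := by
  have h1 : ∑ v ∈ S, (2 * ∑ j ∈ range q, ∑ d, A.F j v d) ≤
      ∑ v ∈ S, (4 - ∑ j ∈ range q, ∑ d, A.mu j v d) :=
    Finset.sum_le_sum fun v hv => A.budget hT hv
  rw [← Finset.mul_sum, Finset.sum_sub_distrib, Finset.sum_const, nsmul_eq_mul,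
    Finset.sum_comm, Finset.sum_comm (f := fun v j => ∑ d, A.mu j v d)] at h1
  have h2 : ∀ j ∈ range q, (6 : ℤ) ≤ ∑ v ∈ S, ∑ d, A.F j v d := by
    intro j hj
    have hjq := Finset.mem_range.1 hj
    have hX := fun k => X_eq (A.closed j hjq) k
    have hne := A.net j hjq
    have e0 : (0 : Fin 6) + 3 = 3 := by decide
    have e1 : (1 : Fin 6) + 3 = 4 := by decide
    have e2 : (2 : Fin 6) + 3 = 5 := by decide
    have e3' : (3 : Fin 6) + 3 = 0 := by decide
    have e4 : (4 : Fin 6) + 3 = 1 := by decide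
    have e5 : (5 : Fin 6) + 3 = 2 := by decide
    rcases lt_or_gt_of_ne hne with hlt | hgt
    · have k1 : 1 ≤ X S (A.K j) 1 := by
        rw [hX 1]; have : eps 1 = -1 := rfl
        rw [this]; linarith
      have k3 : 1 ≤ X S (A.K j) 3 := by
        rw [hX 3]; have : eps 3 = -1 := rfl
        rw [this]; linarith
      have k5 : 1 ≤ X S (A.K j) 5 := by
        rw [hX 5]; have : eps 5 = -1 := rfl
        rw [this]; linarith
      have d1 := A.demand hT hjq k1
      have d3 := A.demand hT hjq k3
      have d5 := A.demand hT hjq k5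
      rw [e1] at d1
      rw [e3'] at d3
      rw [e5] at d5
      have hs : ∑ v ∈ S, ∑ d, A.F j v d = ∑ v ∈ S, (A.F j v 1 + A.F j v 4) +
          ∑ v ∈ S, (A.F j v 3 + A.F j v 0) + ∑ v ∈ S, (A.F j v 5 + A.F j v 2) := by
        rw [← Finset.sum_add_distrib, ← Finset.sum_add_distrib]
        refine Finset.sum_congr rfl fun v _ => ?_
        rw [Fin.sum_univ_six]; ring
      rw [hs]; linarith
    · have k0 : 1 ≤ X S (A.K j) 0 := hgt
      have k2 : 1 ≤ X S (A.K j) 2 := by
        rw [hX 2]; have : eps 2 = 1 := rfl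
        rw [this]; linarith
      have k4 : 1 ≤ X S (A.K j) 4 := by
        rw [hX 4]; have : eps 4 = 1 := rfl
        rw [this]; linarith
      have d0 := A.demand hT hjq k0
      have d2 := A.demand hT hjq k2
      have d4 := A.demand hT hjq k4
      rw [e0] at d0
      rw [e2] at d2
      rw [e4] at d4
      have hs : ∑ v ∈ S, ∑ d, A.F j v d = ∑ v ∈ S, (A.F j v 0 + A.F j v 3) +
          ∑ v ∈ S, (A.F j v 2 + A.F j v 5) + ∑ v ∈ S, (A.F j v 4 + A.F j v 1) := by
        rw [← Finset.sum_add_distrib, ← Finset.sum_add_distrib]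
        refine Finset.sum_congr rfl fun v _ => ?_
        rw [Fin.sum_univ_six]; ring
      rw [hs]; linarith
  have h3 : ∀ j ∈ range q, (6 : ℤ) ≤ ∑ v ∈ S, ∑ d, A.mu j v d := by
    intro j hj
    have hjq := Finset.mem_range.1 hj
    have hX := fun k => X_eq (A.closed j hjq) k
    have hne := A.net j hjq
    rw [Finset.sum_comm]
    have hd : ∀ d, ∑ v ∈ S, A.mu j v d = A.sg j * X S (A.K j) 0 := by
      intro d
      unfold mu
      rw [← Finset.mul_sum]
      change A.sg j * eps d * X S (A.K j) d = _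
      rw [hX d]
      have := eps_sq d
      calc A.sg j * eps d * (eps d * X S (A.K j) 0)
          = A.sg j * X S (A.K j) 0 * (eps d * eps d) := by ring
        _ = _ := by rw [this, mul_one]
    rw [Finset.sum_congr rfl fun d _ => hd d, Finset.sum_const, Finset.card_univ,
      Fintype.card_fin]
    have hpos : 1 ≤ A.sg j * X S (A.K j) 0 := by
      unfold sg
      split_ifs with h
      · linarith
      · have : X S (A.K j) 0 < 0 := lt_of_le_of_ne (not_lt.1 h) hne
        linarith
    simp only [nsmul_eq_mul]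
    push_cast
    linarith
  have h4 : (q : ℤ) * 6 ≤ ∑ j ∈ range q, ∑ v ∈ S, ∑ d, A.F j v d := by
    calc (q : ℤ) * 6 = ∑ _j ∈ range q, (6 : ℤ) := by
          rw [Finset.sum_const, Finset.card_range]; simp
      _ ≤ _ := Finset.sum_le_sum h2
  have h5 : (q : ℤ) * 6 ≤ ∑ j ∈ range q, ∑ v ∈ S, ∑ d, A.mu j v d := by
    calc (q : ℤ) * 6 = ∑ _j ∈ range q, (6 : ℤ) := by
          rw [Finset.sum_const, Finset.card_range]; simp
      _ ≤ _ := Finset.sum_le_sum h3
  linarith

end Fam

end Pool.Agent.H44
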