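import Pool.Agent.Helper44.Hex.Local

set_option linter.unusedSectionVars false

/-!
Discharging: a family of `q` sets of triangles with the properties below forces `9 q ≤ 2 |S|`.
-/

namespace Pool.Agent.H44

open Finset

lemma fin6_cases (h d : Fin 6) : d = h ∨ d = h + 1 ∨ d = h + 2 ∨ d = h + 3 ∨ d = h + 4 ∨
    d = h + 5 := by revert h d; decide

section Pair

variable {S : Finset V} {K : Tri → Prop}

lemma inc_of_iff {v : V} {d : Fin 6} (h : pt K v d ↔ pt K v (d - 1)) : inc K v d = 0 := by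
  unfold inc
  unfold pt at h
  by_cases h1 : K (tau v d)
  · rw [if_pos h1, if_pos (h.1 h1)]; ring
  · rw [if_neg h1, if_neg (fun h' => h1 (h.2 h'))]; ring

lemma conv_only {v : V} {h : Fin 6} (hc : Conv (pt K v) h) (d : Fin 6) (hd : inc K v d ≠ 0) :
    d = h ∨ d = h + 2 := by
  obtain ⟨b0, b1, b2, b3, b4, b5⟩ := hc
  rcases fin6_cases h d with rfl | rfl | rfl | rfl | rfl | rfl
  · exact Or.inl rfl
  · exfalso; apply hd; apply inc_of_iff
    rw [(by decide : ∀ d : Fin 6, d + 1 - 1 = d) h]; exact iff_of_true b1 b0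
  · exact Or.inr rfl
  · exfalso; apply hd; apply inc_of_iff
    rw [(by decide : ∀ d : Fin 6, d + 3 - 1 = d + 2) h]; exact iff_of_false b3 b2
  · exfalso; apply hd; apply inc_of_iff
    rw [(by decide : ∀ d : Fin 6, d + 4 - 1 = d + 3) h]; exact iff_of_false b4 b3
  · exfalso; apply hd; apply inc_of_iff
    rw [(by decide : ∀ d : Fin 6, d + 5 - 1 = d + 4) h]; exact iff_of_false b5 b4

lemma strt_only {v : V} {h : Fin 6} (hc : Strt (pt K v) h) (d : Fin 6) (hd : inc K v d ≠ 0) :
    d = h ∨ d = h + 3 := by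
  obtain ⟨b0, b1, b2, b3, b4, b5⟩ := hc
  rcases fin6_cases h d with rfl | rfl | rfl | rfl | rfl | rfl
  · exact Or.inl rfl
  · exfalso; apply hd; apply inc_of_iff
    rw [(by decide : ∀ d : Fin 6, d + 1 - 1 = d) h]; exact iff_of_true b1 b0
  · exfalso; apply hd; apply inc_of_iff
    rw [(by decide : ∀ d : Fin 6, d + 2 - 1 = d + 1) h]; exact iff_of_true b2 b1
  · exact Or.inr rfl
  · exfalso; apply hd; apply inc_of_iff
    rw [(by decide : ∀ d : Fin 6, d + 4 - 1 = d + 3) h]; exact iff_of_false b4 b3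
  · exfalso; apply hd; apply inc_of_iff
    rw [(by decide : ∀ d : Fin 6, d + 5 - 1 = d + 4) h]; exact iff_of_false b5 b4

lemma refl_only {v : V} {h : Fin 6} (hc : Refl (pt K v) h) (d : Fin 6) (hd : inc K v d ≠ 0) :
    d = h ∨ d = h + 4 := by
  obtain ⟨b0, b1, b2, b3, b4, b5⟩ := hc
  rcases fin6_cases h d with rfl | rfl | rfl | rfl | rfl | rfl
  · exact Or.inl rfl
  · exfalso; apply hd; apply inc_of_iff
    rw [(by decide : ∀ d : Fin 6, d + 1 - 1 = d) h]; exact iff_of_true b1 b0
  · exfalso; apply hd; apply inc_of_iff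
    rw [(by decide : ∀ d : Fin 6, d + 2 - 1 = d + 1) h]; exact iff_of_true b2 b1
  · exfalso; apply hd; apply inc_of_iff
    rw [(by decide : ∀ d : Fin 6, d + 3 - 1 = d + 2) h]; exact iff_of_true b3 b2
  · exact Or.inr rfl
  · exfalso; apply hd; apply inc_of_iff
    rw [(by decide : ∀ d : Fin 6, d + 5 - 1 = d + 4) h]; exact iff_of_false b5 b4

/-- a vertex on the boundary is on exactly two boundary edges -/
lemma inc_pair (hK : Closed S K) (hT : TriFree S) {v : V} {d : Fin 6} (h : inc K v d ≠ 0) :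
    ∃ d', inc K v d' = - inc K v d ∧ ∀ d'', inc K v d'' ≠ 0 → d'' = d ∨ d'' = d' := by
  rcases inc_cases (K := K) v d with h0 | h1 | h1
  · exact absurd h0 h
  · rw [h1]
    rcases inc_one_pat hK hT h1 with hp | hp | hp
    · exact ⟨d + 2, (conv_inc hp).2, conv_only hp⟩
    · exact ⟨d + 3, (strt_inc hp).2, strt_only hp⟩
    · exact ⟨d + 4, (refl_inc hp).2, refl_only hp⟩
  · rw [h1]
    have a1 : d + 4 + 2 = d := (by decide : ∀ d : Fin 6, d + 4 + 2 = d) d
    have a2 : d + 3 + 3 = d := (by decide : ∀ d : Fin 6, d + 3 + 3 = d) d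
    have a3 : d + 2 + 4 = d := (by decide : ∀ d : Fin 6, d + 2 + 4 = d) d
    rcases inc_neg_pat hK hT h1 with hp | hp | hp
    · refine ⟨d + 4, by rw [(conv_inc hp).1]; norm_num, fun d'' h'' => ?_⟩
      have := conv_only hp d'' h''
      rw [a1] at this; exact this.symm
    · refine ⟨d + 3, by rw [(strt_inc hp).1]; norm_num, fun d'' h'' => ?_⟩
      have := strt_only hp d'' h''
      rw [a2] at this; exact this.symm
    · refine ⟨d + 2, by rw [(refl_inc hp).1]; norm_num, fun d'' h'' => ?_⟩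
      have := refl_only hp d'' h''
      rw [a3] at this; exact this.symm

/-- at a straight vertex the boundary goes straight on -/
lemma inc_straight (hK : Closed S K) (hT : TriFree S) {v : V} {d : Fin 6} (hv : v ∈ S)
    (h1 : v + e d ∈ S) (h2 : v + e (d + 3) ∈ S) : inc K v (d + 3) = - inc K v d := by
  have hz : ∀ g, g ≠ d → g ≠ d + 3 → inc K v g = 0 := by
    intro g hg1 hg2
    apply inc_zero hK
    rintro ⟨_, hg⟩
    rcases fin6_cases d g with rfl | rfl | rfl | rfl | rfl | rfl
    · exact hg1 rfl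
    · exact hT v d ⟨hv, h1, hg⟩
    · refine hT v (d + 2) ⟨hv, hg, ?_⟩
      rw [(by decide : ∀ d : Fin 6, d + 2 + 1 = d + 3) d]; exact h2
    · exact hg2 rfl
    · refine hT v (d + 3) ⟨hv, h2, ?_⟩
      rw [(by decide : ∀ d : Fin 6, d + 3 + 1 = d + 4) d]; exact hg
    · refine hT v (d + 5) ⟨hv, hg, ?_⟩
      rw [(by decide : ∀ d : Fin 6, d + 5 + 1 = d) d]; exact h1
  by_cases hd : inc K v d = 0
  · rw [hd]
    by_contra h3
    obtain ⟨g, hg1, hg2⟩ := inc_pair hK hT (v := v) (d := d + 3) (by simpa using h3)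
    have hg0 : inc K v g ≠ 0 := by rw [hg1]; simpa using h3
    by_cases c1 : g = d
    · rw [c1] at hg0; exact hg0 hd
    · by_cases c2 : g = d + 3
      · rw [c2] at hg1
        have : inc K v (d + 3) = 0 := by linarith
        apply h3; rw [this]; ring
      · exact hg0 (hz g c1 c2)
  · obtain ⟨g, hg1, hg2⟩ := inc_pair hK hT hd
    have hg0 : inc K v g ≠ 0 := by rw [hg1]; simpa using hd
    by_cases c1 : g = d
    · rw [c1] at hg1
      exfalso; apply hd; linarith
    · by_cases c2 : g = d + 3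
      · rw [← c2]; exact hg1
      · exact absurd (hz g c1 c2) hg0

end Pair

/-- good corners: reflex for an even set, convex for an odd one -/
def GoodAt (K : Tri → Prop) (ty : ZMod 2) (v : V) : Prop :=
  (ty = 0 ∧ ∃ h, Refl (pt K v) h) ∨ (ty = 1 ∧ ∃ h, Conv (pt K v) h)

/-- a family of sets of triangles suitable for the discharging -/
structure Fam (S : Finset V) (q : ℕ) where
  K : ℕ → Tri → Prop
  ty : ℕ → ZMod 2
  closed : ∀ j, j < q → Closed S (K j)
  net : ∀ j, j < q → X S (K j) 0 ≠ 0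
  cov : ∀ v d i j k, i < q → j < q → k < q → inc (K i) v d ≠ 0 → inc (K j) v d ≠ 0 →
    inc (K k) v d ≠ 0 → i = j ∨ i = k ∨ j = k
  pair : ∀ v g i j, i < q → j < q → i ≠ j → inc (K i) v g ≠ 0 → inc (K j) v g ≠ 0 →
    GoodAt (K j) (ty j) v →
    ¬ GoodAt (K i) (ty i) v ∧ ∀ d, inc (K j) v d ≠ 0 → inc (K i) v d ≠ 0

namespace Fam

variable {S : Finset V} {q : ℕ} (A : Fam S q)

/-- sign of the `j`-th set -/
noncomputable def sg (j : ℕ) : ℤ := if 0 < X S (A.K j) 0 then 1 else -1

noncomputable def mu (j : ℕ) (v : V) (d : Fin 6) : ℤ := A.sg j * eps d * inc (A.K j) v d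

noncomputable def M (v : V) (d : Fin 6) : ℕ := ((range q).filter fun j => A.mu j v d = 1).card
noncomputable def m (v : V) (d : Fin 6) : ℕ := ((range q).filter fun j => A.mu j v d = -1).card

def one1 (v : V) (d : Fin 6) : Prop := A.M v d = 1 ∧ A.m v d = 1

open Classical in
noncomputable def F (j : ℕ) (v : V) (d : Fin 6) : ℤ :=
  if A.mu j v d = 1 then
    (if v + e (d + 3) ∈ S then (if A.one1 v d then 1 else 0)
      else (if A.one1 v d then (if GoodAt (A.K j) (A.ty j) v then 2 else 0) else 1))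
  else 0

lemma F_nonneg (j : ℕ) (v : V) (d : Fin 6) : 0 ≤ A.F j v d := by
  unfold F; split_ifs <;> norm_num

lemma sg_cases (j : ℕ) : A.sg j = 1 ∨ A.sg j = -1 := by unfold sg; split_ifs <;> simp

lemma eps_cases (d : Fin 6) : eps d = 1 ∨ eps d = -1 := by revert d; decide

lemma se_cases (j : ℕ) (d : Fin 6) : A.sg j * eps d = 1 ∨ A.sg j * eps d = -1 := by
  rcases A.sg_cases j with h | h <;> rcases eps_cases d with h' | h' <;> rw [h, h'] <;> norm_num

lemma mu_ne {j : ℕ} {v : V} {d : Fin 6} : A.mu j v d ≠ 0 ↔ inc (A.K j) v d ≠ 0 := by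
  unfold mu
  rcases A.se_cases j d with h | h <;> rw [h] <;> simp

lemma mu_cases (j : ℕ) (v : V) (d : Fin 6) : A.mu j v d = 0 ∨ A.mu j v d = 1 ∨ A.mu j v d = -1 := by
  unfold mu
  rcases A.se_cases j d with h | h <;> rcases inc_cases (K := A.K j) v d with h' | h' | h' <;>
    rw [h, h'] <;> norm_num

lemma mu_flip (j : ℕ) (v : V) (d : Fin 6) : A.mu j (v + e d) (d + 3) = A.mu j v d := by
  unfold mu
  rw [inc_flip, eps_flip]; ring

lemma M_flip (v : V) (d : Fin 6) : A.M (v + e d) (d + 3) = A.M v d := by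
  unfold M; simp only [mu_flip]

lemma m_flip (v : V) (d : Fin 6) : A.m (v + e d) (d + 3) = A.m v d := by
  unfold m; simp only [mu_flip]

lemma one1_flip (v : V) (d : Fin 6) : A.one1 (v + e d) (d + 3) ↔ A.one1 v d := by
  unfold one1; rw [M_flip, m_flip]

variable (hT : TriFree S)

include hT

lemma mu_straight {j : ℕ} (hj : j < q) {v : V} {d : Fin 6} (hv : v ∈ S) (h1 : v + e d ∈ S)
    (h2 : v + e (d + 3) ∈ S) : A.mu j v (d + 3) = A.mu j v d := by
  unfold mu
  rw [inc_straight (A.closed j hj) hT hv h1 h2, eps_flip]; ring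

lemma M_straight {v : V} {d : Fin 6} (hv : v ∈ S) (h1 : v + e d ∈ S)
    (h2 : v + e (d + 3) ∈ S) : A.M v (d + 3) = A.M v d := by
  unfold M
  congr 1
  apply Finset.filter_congr
  intro j hj
  rw [A.mu_straight hT (Finset.mem_range.1 hj) hv h1 h2]

lemma m_straight {v : V} {d : Fin 6} (hv : v ∈ S) (h1 : v + e d ∈ S)
    (h2 : v + e (d + 3) ∈ S) : A.m v (d + 3) = A.m v d := by
  unfold m
  congr 1
  apply Finset.filter_congr
  intro j hj
  rw [A.mu_straight hT (Finset.mem_range.1 hj) hv h1 h2]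

lemma one1_straight {v : V} {d : Fin 6} (hv : v ∈ S) (h1 : v + e d ∈ S)
    (h2 : v + e (d + 3) ∈ S) : A.one1 v (d + 3) ↔ A.one1 v d := by
  unfold one1; rw [A.M_straight hT hv h1 h2, A.m_straight hT hv h1 h2]

omit hT in
lemma mu_mem {j : ℕ} (hj : j < q) {v : V} {d : Fin 6} (h : A.mu j v d ≠ 0) :
    v ∈ S ∧ v + e d ∈ S := inc_mem (A.closed j hj) (A.mu_ne.1 h)

/-! ### demand -/

lemma end_two {j : ℕ} (hj : j < q) {v : V} {d : Fin 6} (hmu : A.mu j v d = 1)
    (h11 : A.one1 v d) (hg : GoodAt (A.K j) (A.ty j) v ∨ v + e (d + 3) ∈ S) :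
    2 ≤ A.F j v d + A.F j v (d + 3) := by
  obtain ⟨hv, hvd⟩ := A.mu_mem hj (v := v) (d := d) (by rw [hmu]; exact one_ne_zero)
  have hdd : d + 3 + 3 = d := fin6_b d
  by_cases hs : v + e (d + 3) ∈ S
  · have f1 : A.F j v d = 1 := by
      unfold F; rw [if_pos hmu, if_pos hs, if_pos h11]
    have f2 : A.F j v (d + 3) = 1 := by
      unfold F
      rw [if_pos (by rw [A.mu_straight hT hj hv hvd hs]; exact hmu), if_pos (by rw [hdd]; exact hvd),
        if_pos ((A.one1_straight hT hv hvd hs).2 h11)]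
    rw [f1, f2]; norm_num
  · have f1 : A.F j v d = 2 := by
      unfold F; rw [if_pos hmu, if_neg hs, if_pos h11, if_pos (hg.resolve_right hs)]
    have f2 := A.F_nonneg j v (d + 3)
    linarith

omit hT in
lemma sg_eps {j : ℕ} (hj : j < q) {k : Fin 6} (hX : 1 ≤ X S (A.K j) k) : A.sg j * eps k = 1 := by
  have h := X_eq (A.closed j hj) k
  unfold sg
  rcases eps_cases k with he | he
  · rw [he] at h ⊢
    rw [if_pos (by linarith)]; norm_num
  · rw [he] at h ⊢
    rw [if_neg (by linarith)]; norm_num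

def phi (k : Fin 6) (v : V) : ℤ := (e k).1 * v.1 + (e k).2 * v.2

omit hT in
lemma phi_add (k : Fin 6) (v : V) : phi k v < phi k (v + e k) := by
  obtain ⟨x, y⟩ := v
  fin_cases k <;> simp [phi, e] <;> linarith

omit hT in
lemma phi_sub (k : Fin 6) (v : V) : phi k (v + e (k + 3)) < phi k v := by
  obtain ⟨x, y⟩ := v
  fin_cases k <;> simp [phi, e] <;> linarith

theorem demand {j : ℕ} (hj : j < q) {k : Fin 6} (hX : 1 ≤ X S (A.K j) k) :
    2 ≤ ∑ v ∈ S, (A.F j v k + A.F j v (k + 3)) := by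
  classical
  have hse := A.sg_eps hj hX
  have hse' : A.sg j * eps (k + 3) = -1 := by rw [eps_flip]; linarith
  have hkk : k + 3 + 3 = k := fin6_b k
  by_cases hc : ∃ v ∈ S, A.mu j v k = 1 ∧ ¬ A.one1 v k
  · -- walk to both ends of the line
    set T := S.filter (fun v => A.mu j v k = 1 ∧ ¬ A.one1 v k) with hTdef
    have hTne : T.Nonempty := by
      obtain ⟨v, hv, h⟩ := hc
      exact ⟨v, Finset.mem_filter.2 ⟨hv, h⟩⟩
    obtain ⟨v, hv, hmax⟩ := Finset.exists_max_image T (phi k) hTne
    obtain ⟨w, hw, hmin⟩ := Finset.exists_min_image T (phi k) hTne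
    rw [hTdef, Finset.mem_filter] at hv hw
    obtain ⟨hvS, hvmu, hv11⟩ := hv
    obtain ⟨hwS, hwmu, hw11⟩ := hw
    -- head
    have huS : v + e k ∈ S := (A.mu_mem hj (v := v) (d := k) (by rw [hvmu]; exact one_ne_zero)).2
    have fu : A.F j (v + e k) (k + 3) = 1 := by
      have hmu' : A.mu j (v + e k) (k + 3) = 1 := by rw [A.mu_flip]; exact hvmu
      have h11' : ¬ A.one1 (v + e k) (k + 3) := by rw [A.one1_flip]; exact hv11
      have hns : ¬ (v + e k + e (k + 3 + 3) ∈ S) := by
        rw [hkk]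
        intro hs
        have hback : v + e k + e (k + 3) ∈ S := by rw [e_flip]; exact hvS
        have h1 : A.mu j (v + e k) k = 1 := by
          rw [← A.mu_straight hT hj huS hs hback]; exact hmu'
        have h2 : ¬ A.one1 (v + e k) k := by
          rw [← A.one1_straight hT huS hs hback]; exact h11'
        have h3 := hmax (v + e k) (Finset.mem_filter.2 ⟨huS, h1, h2⟩)
        have h4 := phi_add k v
        linarith
      unfold F
      rw [if_pos hmu', if_neg hns, if_neg h11']
    -- tail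
    have fw : A.F j w k = 1 := by
      have hwk : w + e k ∈ S := (A.mu_mem hj (v := w) (d := k) (by rw [hwmu]; exact one_ne_zero)).2
      have hns : ¬ (w + e (k + 3) ∈ S) := by
        intro hs
        have h1 : A.mu j (w + e (k + 3)) (k + 3 + 3) = 1 := by
          rw [A.mu_flip, A.mu_straight hT hj hwS hwk hs]; exact hwmu
        have h2 : ¬ A.one1 (w + e (k + 3)) (k + 3 + 3) := by
          rw [A.one1_flip, A.one1_straight hT hwS hwk hs]; exact hw11
        rw [hkk] at h1 h2
        have h3 := hmin (w + e (k + 3)) (Finset.mem_filter.2 ⟨hs, h1, h2⟩)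
        have h4 := phi_sub k w
        linarith
      unfold F
      rw [if_pos hwmu, if_neg hns, if_neg hw11]
    rw [Finset.sum_add_distrib]
    have s1 : A.F j w k ≤ ∑ v ∈ S, A.F j v k :=
      Finset.single_le_sum (f := fun v => A.F j v k) (fun v _ => A.F_nonneg j v k) hwS
    have s2 : A.F j (v + e k) (k + 3) ≤ ∑ v ∈ S, A.F j v (k + 3) :=
      Finset.single_le_sum (f := fun v => A.F j v (k + 3)) (fun v _ => A.F_nonneg j v (k + 3)) huS
    linarith
  · push Not at hc
    -- every such edge has status (1,1)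
    have key : ∃ v ∈ S, (A.mu j v k = 1 ∧ A.one1 v k ∧
          (GoodAt (A.K j) (A.ty j) v ∨ v + e (k + 3) ∈ S)) ∨
        (A.mu j v (k + 3) = 1 ∧ A.one1 v (k + 3) ∧
          (GoodAt (A.K j) (A.ty j) v ∨ v + e (k + 3 + 3) ∈ S)) := by
      have hKj := A.closed j hj
      have hmu0 : ∀ v, inc (A.K j) v k = 1 → A.mu j v k = 1 := by
        intro v h; unfold mu; rw [hse, h]; norm_num
      have hmu3 : ∀ v, inc (A.K j) v (k + 3) = -1 → A.mu j v (k + 3) = 1 := by
        intro v h; unfold mu; rw [hse', h]; norm_num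
      have h11a : ∀ v ∈ S, inc (A.K j) v k = 1 → A.one1 v k := fun v hv h => hc v hv (hmu0 v h)
      have h11b : ∀ v ∈ S, inc (A.K j) v (k + 3) = -1 → A.one1 v (k + 3) := by
        intro v hv h
        have h1 := hmu3 v h
        have hw := (A.mu_mem hj (v := v) (d := k + 3) (by rw [h1]; exact one_ne_zero)).2
        have h2 : A.mu j (v + e (k + 3)) (k + 3 + 3) = 1 := by rw [A.mu_flip]; exact h1
        rw [hkk] at h2
        have h3 := hc _ hw h2
        rw [← A.one1_flip, hkk]; exact h3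
      have hstr : ∀ v, Strt (pt (A.K j) v) k → v + e (k + 3) ∈ S := fun v h =>
        (inc_mem hKj (v := v) (d := k + 3) (by rw [(strt_inc h).2]; norm_num)).2
      have hstr' : ∀ v, Strt (pt (A.K j) v) k → v + e k ∈ S := fun v h =>
        (inc_mem hKj (v := v) (d := k) (by rw [(strt_inc h).1]; norm_num)).2
      have a1 : k + 3 + 4 = k + 1 := (by decide : ∀ d : Fin 6, d + 3 + 4 = d + 1) k
      have a2 : k + 3 + 2 = k + 5 := (by decide : ∀ d : Fin 6, d + 3 + 2 = d + 5) k
      have hty : A.ty j = 0 ∨ A.ty j = 1 := by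
        have : ∀ x : ZMod 2, x = 0 ∨ x = 1 := by decide
        exact this _
      rcases hty with hty | hty
      · obtain ⟨v, hv, hsp⟩ := special_conv hKj hT hX
        refine ⟨v, hv, ?_⟩
        rcases hsp with ⟨h1, h2⟩ | ⟨h1, h2⟩
        · left
          refine ⟨hmu0 v h1, h11a v hv h1, ?_⟩
          rcases inc_one_pat hKj hT h1 with hp | hp | hp
          · exact absurd hp h2
          · exact Or.inr (hstr v hp)
          · exact Or.inl (Or.inl ⟨hty, _, hp⟩)
        · right
          refine ⟨hmu3 v h1, h11b v hv h1, ?_⟩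
          have hp := inc_neg_pat hKj hT h1
          rw [a1, hkk, a2] at hp
          rw [hkk]
          rcases hp with hp | hp | hp
          · exact absurd hp h2
          · exact Or.inr (hstr' v hp)
          · exact Or.inl (Or.inl ⟨hty, _, hp⟩)
      · obtain ⟨v, hv, hsp⟩ := special_refl hKj hT hX
        refine ⟨v, hv, ?_⟩
        rcases hsp with ⟨h1, h2⟩ | ⟨h1, h2⟩
        · left
          refine ⟨hmu0 v h1, h11a v hv h1, ?_⟩
          rcases inc_one_pat hKj hT h1 with hp | hp | hp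
          · exact Or.inl (Or.inr ⟨hty, _, hp⟩)
          · exact Or.inr (hstr v hp)
          · exact absurd hp h2
        · right
          refine ⟨hmu3 v h1, h11b v hv h1, ?_⟩
          have hp := inc_neg_pat hKj hT h1
          rw [a1, hkk, a2] at hp
          rw [hkk]
          rcases hp with hp | hp | hp
          · exact Or.inl (Or.inr ⟨hty, _, hp⟩)
          · exact Or.inr (hstr' v hp)
          · exact absurd hp h2
    obtain ⟨v, hv, h⟩ := key
    have s1 : A.F j v k + A.F j v (k + 3) ≤ ∑ v ∈ S, (A.F j v k + A.F j v (k + 3)) :=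
      Finset.single_le_sum (f := fun v => A.F j v k + A.F j v (k + 3))
        (fun v _ => add_nonneg (A.F_nonneg j v k) (A.F_nonneg j v (k + 3))) hv
    rcases h with ⟨h1, h2, h3⟩ | ⟨h1, h2, h3⟩
    · have := A.end_two hT hj h1 h2 h3
      linarith
    · have := A.end_two hT hj h1 h2 h3
      rw [hkk] at this
      linarith

end Fam

end Pool.Agent.H44
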