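import Pool.Agent.Helper44.Hex.Budget

set_option linter.unusedSectionVars false

/-!
The sets produced by a run satisfy the hypotheses of the discharging.
-/

namespace Pool.Agent.H44

open Finset

lemma mem_edV {S : Finset V} (v : V) (d : Fin 6) : edV v d ∈ GE S ↔ v ∈ S ∧ v + e d ∈ S := by
  obtain ⟨x, y⟩ := v
  rw [mem_GE]
  fin_cases d <;> simp [edV, e, e3, and_comm]

section Fam

variable {S : Finset V} {σ : V → ZMod 2} {q : ℕ} (R : CutRun hs ht (w0 S σ) (c0 S) q)

/-- triangles of the `j`-th set -/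
def KK (j : ℕ) (τ : Tri) : Prop := R.B j (Sum.inl τ)

lemma cross_iff {j : ℕ} {x : Ed} {b : Bool} : Crossing hs ht (R.B j) (x, b) ↔
    ((KK R j (tri x b) ∧ ¬ R.B j (Sum.inr x)) ∨ (¬ KK R j (tri x b) ∧ R.B j (Sum.inr x))) :=
  Iff.rfl

lemma w_cross {j : ℕ} (hj : j < q) {x : Ed} {b : Bool} (h : Crossing hs ht (R.B j) (x, b)) :
    R.w j (x, b) = w0' S σ x := R.w_eq_of_ne (le_of_lt hj) (R.ne_of_crossing h)

lemma GE_of_w0' {x : Ed} (h : w0' S σ x ≠ 0) : x ∈ GE S := by
  unfold w0' at h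
  by_contra h'
  rw [if_neg h'] at h
  exact h rfl

lemma w0'_ne {x : Ed} (h : x ∈ GE S) : w0' S σ x ≠ 0 := by
  unfold w0'
  rw [if_pos h]; split_ifs <;> norm_num

lemma cross_mem {j : ℕ} (hj : j < q) {x : Ed} {b : Bool} (h : Crossing hs ht (R.B j) (x, b)) :
    x ∈ GE S := by
  apply GE_of_w0' (σ := σ)
  rw [← w_cross R hj h]
  exact R.ne_of_crossing h

lemma ty_tri {j : ℕ} (hj : j < q) {x : Ed} {b : Bool} (h1 : KK R j (tri x b))
    (h2 : ¬ R.B j (Sum.inr x)) : R.ty j = 0 := by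
  have h : Crossing hs ht (R.B j) (x, b) := Or.inl ⟨h1, h2⟩
  exact (R.ty_eq hj h).1 h1

lemma ty_mid {j : ℕ} (hj : j < q) {x : Ed} {b : Bool} (h1 : ¬ KK R j (tri x b))
    (h2 : R.B j (Sum.inr x)) : R.ty j = 1 := by
  have h : Crossing hs ht (R.B j) (x, b) := Or.inr ⟨h1, h2⟩
  have h3 := (R.ty_eq hj h).2 h2
  rw [h3]
  have h4 : (c0 S) (ht (x, b)) = if x ∈ GE S then 1 else 0 := rfl
  rw [h4, if_pos (cross_mem R hj h)]

/-- no set consists of a single midpoint -/
lemma no_lone {j : ℕ} (hj : j < q) {x : Ed} (h : R.B j (Sum.inr x)) (b : Bool) :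
    KK R j (tri x b) ∨ KK R j (tri x (!b)) := by
  by_contra hcon
  rw [not_or] at hcon
  have hall : ∀ b', Crossing hs ht (R.B j) (x, b') := by
    intro b'
    have : b' = b ∨ b' = !b := (by decide : ∀ b b' : Bool, b' = b ∨ b' = !b) b b'
    rcases this with rfl | rfl
    · exact Or.inr ⟨hcon.1, h⟩
    · exact Or.inr ⟨hcon.2, h⟩
  obtain ⟨a, hca, hwa⟩ := R.ex j hj
  have hin := crossing_inner hca
  have hz : Zc hs ht (R.w j) (Sum.inr x) (inner hs ht (Zc hs ht (R.w j) (R.x j)) a) :=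
    Zc.trans (Zc.symm h) hin
  have hinner : inner hs ht (Zc hs ht (R.w j) (R.x j)) a = Sum.inr x := by
    by_contra hne
    obtain ⟨Z, hZ, hjn⟩ := hz
    have h1 := hjn (Sum.inr x)
    rw [if_pos rfl, if_neg hne, add_zero] at h1
    unfold bd at h1
    have h2 : ∀ a' ∈ Z, ((if hs a' = (Sum.inr x : Nd) then (1 : ZMod 2) else 0) +
        (if ht a' = (Sum.inr x : Nd) then 1 else 0)) = 0 := by
      rintro ⟨y, b'⟩ ha'
      by_cases hy : y = x
      · subst hy
        exact absurd (hZ _ ha') (R.ne_of_crossing (hall b'))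
      · rw [if_neg (by simp [hs]), if_neg (by simpa [ht] using hy), add_zero]
    rw [Finset.sum_eq_zero h2] at h1
    exact absurd h1 (by decide)
  obtain ⟨y, b'⟩ := a
  have hyx : y = x := by
    unfold inner at hinner
    by_cases hB : Zc hs ht (R.w j) (R.x j) (hs (y, b'))
    · rw [if_pos hB] at hinner
      simp [hs] at hinner
    · rw [if_neg hB] at hinner
      simpa [ht] using hinner
  subst hyx
  have h1 : R.w j (y, !b') = -1 := by
    rw [w_cross R hj (hall _), ← w_cross R hj (hall b')]; exact hwa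
  have h2 := R.uniq j hj (y, b') (y, !b') hca hwa (hall _) h1
  have h3 : b' = !b' := congrArg Prod.snd h2
  revert h3
  cases b' <;> decide

/-- an even set that separates the two sides of an edge -/
lemma even_edge {j : ℕ} (hj : j < q) (hty : R.ty j = 0) {x : Ed} {b : Bool}
    (h2 : ¬ KK R j (tri x (!b))) : ¬ R.B j (Sum.inr x) := by
  intro h
  have := ty_mid R hj h2 h
  rw [hty] at this
  exact absurd this (by decide)

lemma odd_edge {j : ℕ} (hj : j < q) (hty : R.ty j = 1) {x : Ed} {b : Bool}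
    (h1 : KK R j (tri x b)) : R.B j (Sum.inr x) := by
  by_contra h
  have := ty_tri R hj h1 h
  rw [hty] at this
  exact absurd this (by decide)

lemma off_edge {j : ℕ} (hj : j < q) {x : Ed} (hx : x ∉ GE S) (b : Bool) :
    KK R j (tri x b) ↔ R.B j (Sum.inr x) := by
  have h : ¬ Crossing hs ht (R.B j) (x, b) := fun h => hx (cross_mem R hj h)
  rw [cross_iff] at h
  constructor
  · intro h1
    by_contra h2
    exact h (Or.inl ⟨h1, h2⟩)
  · intro h1
    by_contra h2
    exact h (Or.inr ⟨h2, h1⟩)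

lemma closed_KK {j : ℕ} (hj : j < q) : Closed S (KK R j) := by
  intro v d h
  rw [← mem_edV] at h
  have h1 := off_edge R hj h (evn d)
  have h2 := off_edge R hj h (!evn d)
  rw [tri_edV] at h1
  rw [tri_edV'] at h2
  rw [h1, h2]

lemma inc_cross {j : ℕ} {v : V} {d : Fin 6} (h : inc (KK R j) v d ≠ 0) :
    ∃ b, Crossing hs ht (R.B j) (edV v d, b) := by
  by_contra hcon
  push Not at hcon
  have h1 := hcon (evn d)
  have h2 := hcon (!evn d)
  rw [cross_iff, tri_edV] at h1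
  rw [cross_iff, tri_edV'] at h2
  apply h
  apply inc_of_iff
  unfold pt
  tauto

lemma cov_KK {v : V} {d : Fin 6} {i j k : ℕ} (hi : i < q) (hj : j < q) (hk : k < q)
    (h1 : inc (KK R i) v d ≠ 0) (h2 : inc (KK R j) v d ≠ 0) (h3 : inc (KK R k) v d ≠ 0) :
    i = j ∨ i = k ∨ j = k := by
  obtain ⟨b1, c1⟩ := inc_cross R h1
  obtain ⟨b2, c2⟩ := inc_cross R h2
  obtain ⟨b3, c3⟩ := inc_cross R h3
  have : b1 = b2 ∨ b1 = b3 ∨ b2 = b3 :=
    (by decide : ∀ x y z : Bool, x = y ∨ x = z ∨ y = z) b1 b2 b3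
  rcases this with rfl | rfl | rfl
  · exact Or.inl (R.cut_inj hi hj c1 c2)
  · exact Or.inr (Or.inl (R.cut_inj hi hk c1 c3))
  · exact Or.inr (Or.inr (R.cut_inj hj hk c2 c3))

/-- the second set through an edge on the boundary of an even set -/
lemma second_even {i j : ℕ} (hi : i < q) (hj : j < q) (hij : i ≠ j) (hty : R.ty j = 0) {x : Ed}
    {b : Bool} (h1 : KK R j (tri x b)) (h2 : ¬ KK R j (tri x (!b)))
    (h3 : ¬ (KK R i (tri x b) ↔ KK R i (tri x (!b)))) :
    (R.ty i = 0 ∧ KK R i (tri x (!b)) ∧ ∀ τ, KK R j τ → ¬ KK R i τ) ∨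
    (R.ty i = 1 ∧ ¬ KK R i (tri x (!b)) ∧ ∀ τ, KK R j τ → KK R i τ) := by
  have hjz := even_edge R hj hty h2
  have hjc : Crossing hs ht (R.B j) (x, b) := Or.inl ⟨h1, hjz⟩
  have hic : ¬ Crossing hs ht (R.B i) (x, b) := fun h => hij (R.cut_inj hi hj h hjc)
  rw [cross_iff] at hic
  have hieq : KK R i (tri x b) ↔ R.B i (Sum.inr x) := by tauto
  have hty2 : R.ty i = 0 ∨ R.ty i = 1 := zmod_two_cases _
  rcases hty2 with ht0 | ht1
  · left
    have hiz : ¬ R.B i (Sum.inr x) := by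
      intro hz
      have hb := hieq.2 hz
      have hnb : ¬ KK R i (tri x (!b)) := fun h' => h3 (iff_of_true hb h')
      have := ty_mid R hi hnb hz
      rw [ht0] at this
      exact absurd this (by decide)
    have hib : ¬ KK R i (tri x b) := fun h => hiz (hieq.1 h)
    have hinb : KK R i (tri x (!b)) := by
      by_contra h'
      exact h3 (iff_of_false hib h')
    refine ⟨ht0, hinb, ?_⟩
    intro τ hjτ hiτ
    rcases lt_or_gt_of_ne hij with hlt | hgt
    · exact h2 (R.laminar (le_of_lt hlt) (le_of_lt hj) hiτ hjτ hinb)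
    · exact hib (R.laminar (le_of_lt hgt) (le_of_lt hi) hjτ hiτ h1)
  · right
    have hinb : ¬ KK R i (tri x (!b)) := by
      intro h
      have hz := odd_edge R hi ht1 h
      exact h3 (iff_of_true (hieq.2 hz) h)
    have hib : KK R i (tri x b) := by
      by_contra h'
      exact h3 (iff_of_false h' hinb)
    have hiz := hieq.1 hib
    refine ⟨ht1, hinb, ?_⟩
    have hlt : j < i := by
      rcases lt_or_gt_of_ne hij with hlt | hgt
      · exact absurd (R.laminar (le_of_lt hlt) (le_of_lt hj) hib h1 hiz) hjz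
      · exact hgt
    intro τ hjτ
    exact R.laminar (le_of_lt hlt) (le_of_lt hi) h1 hib hjτ

/-- inside an odd set, next to each boundary edge, there is an even set -/
lemma second_odd {j : ℕ} (hj : j < q) (hty : R.ty j = 1) {x : Ed} {b : Bool}
    (h1 : KK R j (tri x b)) (h2 : ¬ KK R j (tri x (!b))) :
    ∃ i, i < j ∧ R.ty i = 0 ∧ KK R i (tri x b) ∧ ∀ τ, KK R i τ → KK R j τ := by
  have hz := odd_edge R hj hty h1
  have hjc : Crossing hs ht (R.B j) (x, !b) := Or.inr ⟨h2, hz⟩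
  have hGE := cross_mem R hj hjc
  have hw0 : R.w 0 (x, b) ≠ 0 := by
    rw [R.w_zero]; exact w0'_ne hGE
  have hwj : R.w j (x, b) = 0 := by
    apply (R.good j (le_of_lt hj)).zero_of_color
    rw [← (R.good j (le_of_lt hj)).zc_color (show Zc hs ht (R.w j) (R.x j) (hs (x, b)) from h1),
      ← (R.good j (le_of_lt hj)).zc_color (show Zc hs ht (R.w j) (R.x j) (ht (x, b)) from hz)]
  obtain ⟨k, _, hkj, hkc⟩ := R.exists_cut (Nat.zero_le j) (le_of_lt hj) hw0 hwj
  have hk : k < q := lt_trans hkj hj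
  rcases hkc with ⟨k1, k2⟩ | ⟨k1, k2⟩
  · refine ⟨k, hkj, ty_tri R hk k1 k2, k1, fun τ hτ => ?_⟩
    exact R.laminar (le_of_lt hkj) (le_of_lt hj) k1 h1 hτ
  · exfalso
    have h3 : KK R k (tri x (!b)) := (no_lone R hk k2 b).resolve_left k1
    exact h2 (R.laminar (le_of_lt hkj) (le_of_lt hj) k2 hz h3)

lemma conv_refl_false {b : Fin 6 → Prop} {h h' : Fin 6} (hc : Conv b h) (hr : Refl b h') :
    False := by
  obtain ⟨_, _, c2, c3, c4, c5⟩ := hc
  obtain ⟨r0, r1, r2, _⟩ := hr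
  rcases fin6_cases h h' with rfl | rfl | rfl | rfl | rfl | rfl
  · exact c2 r2
  · rw [(by decide : ∀ d : Fin 6, d + 1 + 1 = d + 2) h] at r1; exact c2 r1
  · exact c2 r0
  · exact c3 r0
  · exact c4 r0
  · exact c5 r0

variable (hT : TriFree S)

include hT

/-- Lemma A -/
lemma lemmaA {i j : ℕ} (hi : i < q) (hj : j < q) (hij : i ≠ j) (hty : R.ty j = 0) {v : V}
    {h g : Fin 6} (hr : Refl (pt (KK R j) v) h) (hg : g = h ∨ g = h + 4)
    (hinc : inc (KK R i) v g ≠ 0) :
    (R.ty i = 0 ∧ Conv (pt (KK R i) v) (h + 4)) ∨ (R.ty i = 1 ∧ Refl (pt (KK R i) v) h) := by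
  have hri := refl_inc hr
  obtain ⟨hv, hvh⟩ := inc_mem (closed_KK R hj) (v := v) (d := h) (by rw [hri.1]; norm_num)
  obtain ⟨_, hvh4⟩ := inc_mem (closed_KK R hj) (v := v) (d := h + 4) (by rw [hri.2]; norm_num)
  have n5 : ¬ (v + e (h + 5) ∈ S) := fun hg => hT v (h + 5) ⟨hv, hg, by
    rw [(by decide : ∀ d : Fin 6, d + 5 + 1 = d) h]; exact hvh⟩
  have p5 : pt (KK R i) v (h + 5) ↔ pt (KK R i) v (h + 4) := by
    have := closed_pat (closed_KK R hi) (v := v) (h + 5) n5
    rwa [(by decide : ∀ d : Fin 6, d + 5 - 1 = d + 4) h] at this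
  have a2 : h + 4 + 2 = h := (by decide : ∀ d : Fin 6, d + 4 + 2 = d) h
  have a1 : h + 4 + 1 = h + 5 := (by decide : ∀ d : Fin 6, d + 4 + 1 = d + 5) h
  have a3 : h + 4 + 3 = h + 1 := (by decide : ∀ d : Fin 6, d + 4 + 3 = d + 1) h
  have a4 : h + 4 + 4 = h + 2 := (by decide : ∀ d : Fin 6, d + 4 + 4 = d + 2) h
  have a5 : h + 4 + 5 = h + 3 := (by decide : ∀ d : Fin 6, d + 4 + 5 = d + 3) h
  have e5 : h - 1 = h + 5 := (by decide : ∀ d : Fin 6, d - 1 = d + 5) h
  have e4 : h + 4 - 1 = h + 3 := (by decide : ∀ d : Fin 6, d + 4 - 1 = d + 3) h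
  obtain ⟨r0, r1, r2, r3, r4, r5⟩ := hr
  -- the conclusion from the edge lemma
  have fin : ((R.ty i = 0 ∧ pt (KK R i) v (h + 4) ∧ ∀ τ, KK R j τ → ¬ KK R i τ) ∨
      (R.ty i = 1 ∧ ¬ pt (KK R i) v (h + 4) ∧ ∀ τ, KK R j τ → KK R i τ)) →
      (R.ty i = 0 ∧ Conv (pt (KK R i) v) (h + 4)) ∨ (R.ty i = 1 ∧ Refl (pt (KK R i) v) h) := by
    rintro (⟨t0, k1, k2⟩ | ⟨t1, k1, k2⟩)
    · left
      refine ⟨t0, ?_⟩
      unfold Conv
      rw [a1, a2, a3, a4, a5]
      exact ⟨k1, p5.2 k1, k2 _ r0, k2 _ r1, k2 _ r2, k2 _ r3⟩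
    · right
      exact ⟨t1, k2 _ r0, k2 _ r1, k2 _ r2, k2 _ r3, k1, fun h' => k1 (p5.1 h')⟩
  have hne : ¬ (pt (KK R i) v g ↔ pt (KK R i) v (g - 1)) := fun h' => hinc (inc_of_iff h')
  apply fin
  rcases hg with rfl | rfl
  · -- inner triangle on the left
    have s := second_even R hi hj hij hty (x := edV v g) (b := evn g)
      (by rw [tri_edV]; exact r0) (by rw [tri_edV', e5]; exact r5)
      (by rw [tri_edV, tri_edV']; exact hne)
    rw [tri_edV', e5] at s
    rcases s with ⟨t0, k1, k2⟩ | ⟨t1, k1, k2⟩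
    · exact Or.inl ⟨t0, p5.1 k1, k2⟩
    · exact Or.inr ⟨t1, fun h' => k1 (p5.2 h'), k2⟩
  · have s := second_even R hi hj hij hty (x := edV v (h + 4)) (b := !evn (h + 4))
      (by rw [tri_edV', e4]; exact r3) (by rw [Bool.not_not, tri_edV]; exact r4)
      (by
        rw [Bool.not_not, tri_edV, tri_edV']
        exact fun h' => hne h'.symm)
    rw [Bool.not_not, tri_edV] at s
    exact s

/-- Lemma B -/
lemma lemmaB {j : ℕ} (hj : j < q) (hty : R.ty j = 1) {v : V} {h : Fin 6}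
    (hc : Conv (pt (KK R j) v) h) :
    ∃ i, i < q ∧ i ≠ j ∧ R.ty i = 0 ∧ Conv (pt (KK R i) v) h := by
  have hci := conv_inc hc
  obtain ⟨hv, hvh⟩ := inc_mem (closed_KK R hj) (v := v) (d := h) (by rw [hci.1]; norm_num)
  have n1 : ¬ (v + e (h + 1) ∈ S) := fun hg => hT v h ⟨hv, hvh, hg⟩
  have e5 : h - 1 = h + 5 := (by decide : ∀ d : Fin 6, d - 1 = d + 5) h
  obtain ⟨c0, c1, c2, c3, c4, c5⟩ := hc
  obtain ⟨i, hij, hti, hi1, hi2⟩ := second_odd R hj hty (x := edV v h) (b := evn h)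
    (by rw [tri_edV]; exact c0) (by rw [tri_edV', e5]; exact c5)
  have hi : i < q := lt_trans hij hj
  rw [tri_edV] at hi1
  have p1 : pt (KK R i) v (h + 1) ↔ pt (KK R i) v h := by
    have := closed_pat (closed_KK R hi) (v := v) (h + 1) n1
    rwa [(by decide : ∀ d : Fin 6, d + 1 - 1 = d) h] at this
  refine ⟨i, hi, ne_of_lt hij, hti, hi1, p1.2 hi1, fun h' => c2 (hi2 _ h'),
    fun h' => c3 (hi2 _ h'), fun h' => c4 (hi2 _ h'), fun h' => c5 (hi2 _ h')⟩

lemma pair_KK {v : V} {g : Fin 6} {i j : ℕ} (hi : i < q) (hj : j < q) (hij : i ≠ j)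
    (h1 : inc (KK R i) v g ≠ 0) (h2 : inc (KK R j) v g ≠ 0)
    (hgood : GoodAt (KK R j) (R.ty j) v) :
    ¬ GoodAt (KK R i) (R.ty i) v ∧ ∀ d, inc (KK R j) v d ≠ 0 → inc (KK R i) v d ≠ 0 := by
  rcases hgood with ⟨hty, h, hr⟩ | ⟨hty, h, hc⟩
  · have hg := refl_only hr g h2
    have hall := refl_only hr
    rcases lemmaA R hT hi hj hij hty hr hg h1 with ⟨t0, hc⟩ | ⟨t1, hr'⟩
    · refine ⟨?_, ?_⟩
      · rintro (⟨_, h', hr'⟩ | ⟨t1, _⟩)
        · exact conv_refl_false hc hr'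
        · rw [t0] at t1; exact absurd t1 (by decide)
      · intro d hd
        have hci := conv_inc hc
        rw [(by decide : ∀ d : Fin 6, d + 4 + 2 = d) h] at hci
        rcases hall d hd with rfl | rfl
        · rw [hci.2]; norm_num
        · rw [hci.1]; norm_num
    · refine ⟨?_, ?_⟩
      · rintro (⟨t0, _⟩ | ⟨_, h', hc'⟩)
        · rw [t1] at t0; exact absurd t0 (by decide)
        · exact conv_refl_false hc' hr'
      · intro d hd
        have hri := refl_inc hr'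
        rcases hall d hd with rfl | rfl
        · rw [hri.1]; norm_num
        · rw [hri.2]; norm_num
  · have hg := conv_only hc g h2
    have hall := conv_only hc
    obtain ⟨i', hi', hne', hti', hc'⟩ := lemmaB R hT hj hty hc
    have hci := conv_inc hc'
    have h3 : inc (KK R i') v g ≠ 0 := by
      rcases hg with rfl | rfl
      · rw [hci.1]; norm_num
      · rw [hci.2]; norm_num
    have heq : i = i' := by
      rcases cov_KK R hi hj hi' h1 h2 h3 with h | h | h
      · exact absurd h hij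
      · exact h
      · exact absurd h.symm hne'
    subst heq
    refine ⟨?_, ?_⟩
    · rintro (⟨_, h', hr'⟩ | ⟨t1, _⟩)
      · exact conv_refl_false hc' hr'
      · rw [hti'] at t1; exact absurd t1 (by decide)
    · intro d hd
      rcases hall d hd with rfl | rfl
      · rw [hci.1]; norm_num
      · rw [hci.2]; norm_num

omit hT

/-- the three positive directions -/
def dir3 : Fin 3 → Fin 6 := ![0, 1, 2]

lemma edV_dir3 (v : V) (i : Fin 3) : edV v (dir3 i) = (v, i) := by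
  fin_cases i <;> rfl

lemma e_dir3 (i : Fin 3) : e (dir3 i) = e3 i := by
  fin_cases i <;> rfl

/-- the number of boundary edges counted with colours -/
lemma net_a {K : Tri → Prop} (hK : Closed S K) (σ : V → ZMod 2) :
    ∑ i, ∑ v ∈ S, (inc K v (dir3 i) : ZMod 2) * (σ v + σ (v + e (dir3 i))) = 0 := by
  have h1 : ∀ d : Fin 6, ∑ v ∈ S, (inc K v d : ZMod 2) * σ (v + e d) =
      ∑ u ∈ S, (inc K u (d + 3) : ZMod 2) * σ u := by
    intro d
    apply sum_shift d
    · intro v hv hv'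
      rw [inc_zero hK (fun h => hv' h.2)]; simp
    · intro u hu hu'
      rw [inc_zero hK (fun h => hu' h.2)]; simp
    · intro v _ _
      rw [inc_flip' v d]
      push_cast
      have : ∀ x y : ZMod 2, -x * y = x * y := by decide
      exact this _ _
  have h2 : ∀ i : Fin 3, ∑ v ∈ S, (inc K v (dir3 i) : ZMod 2) * (σ v + σ (v + e (dir3 i))) =
      ∑ v ∈ S, (inc K v (dir3 i) : ZMod 2) * σ v +
        ∑ v ∈ S, (inc K v (dir3 i + 3) : ZMod 2) * σ v := by
    intro i
    rw [← h1, ← Finset.sum_add_distrib]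
    refine Finset.sum_congr rfl fun v _ => ?_
    ring
  rw [Finset.sum_congr rfl fun i _ => h2 i]
  have h3 : ∀ v, ∑ d, (inc K v d : ZMod 2) = 0 := by
    intro v
    have := inc_sum (K := K) v
    have h4 : ((∑ d, inc K v d : ℤ) : ZMod 2) = 0 := by rw [this]; simp
    push_cast at h4
    exact h4
  have h5 : ∑ v ∈ S, (∑ d, (inc K v d : ZMod 2)) * σ v = 0 :=
    Finset.sum_eq_zero fun v _ => by rw [h3 v, zero_mul]
  rw [← h5, Fin.sum_univ_three]
  have g0 : dir3 0 = 0 := rfl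
  have g1 : dir3 1 = 1 := rfl
  have g2 : dir3 2 = 2 := rfl
  have g3 : (0 : Fin 6) + 3 = 3 := by decide
  have g4 : (1 : Fin 6) + 3 = 4 := by decide
  have g5 : (2 : Fin 6) + 3 = 5 := by decide
  rw [g0, g1, g2, g3, g4, g5, ← Finset.sum_add_distrib, ← Finset.sum_add_distrib,
    ← Finset.sum_add_distrib, ← Finset.sum_add_distrib, ← Finset.sum_add_distrib]
  refine Finset.sum_congr rfl fun v _ => ?_
  rw [Fin.sum_univ_six]; ring

lemma two_mul_zmod (x : ZMod 2) : x + x = 0 := CharTwo.add_self_eq_zero _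

/-- exactly one monochromatic boundary edge -/
lemma net_b {j : ℕ} (hj : j < q) :
    ∑ i, ∑ v ∈ S, (inc (KK R j) v (dir3 i) : ZMod 2) * (1 + (σ v + σ (v + e (dir3 i)))) = 1 := by
  have hterm : ∀ v ∈ S, ∀ i : Fin 3,
      (inc (KK R j) v (dir3 i) : ZMod 2) * (1 + (σ v + σ (v + e (dir3 i)))) ≠ 0 →
      inc (KK R j) v (dir3 i) ≠ 0 ∧ σ v = σ (v + e3 i) ∧ (v, i) ∈ GE S := by
    intro v hv i h
    have h1 : inc (KK R j) v (dir3 i) ≠ 0 := by
      intro h0
      apply h
      rw [h0]; simp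
    refine ⟨h1, ?_, ?_⟩
    · rw [← e_dir3]
      by_contra h2
      apply h
      have key : ∀ a b : ZMod 2, a ≠ b → 1 + (a + b) = 0 := by decide
      rw [key _ _ h2, mul_zero]
    · rw [← edV_dir3, mem_edV]
      exact inc_mem (closed_KK R hj) h1
  obtain ⟨a, hca, hwa⟩ := R.ex j hj
  have huniq := R.uniq j hj a
  obtain ⟨⟨v0, i0⟩, b0⟩ := a
  have hw0 : w0' S σ (v0, i0) = -1 := by rw [← w_cross R hj hca]; exact hwa
  have hGE0 : (v0, i0) ∈ GE S := cross_mem R hj hca
  have hmono : σ v0 = σ (v0 + e3 i0) := by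
    unfold w0' at hw0
    rw [if_pos hGE0] at hw0
    by_contra h
    rw [if_neg h] at hw0
    norm_num at hw0
  have hnot : ¬ Crossing hs ht (R.B j) ((v0, i0), !b0) := by
    intro hc
    have h1 : R.w j ((v0, i0), !b0) = -1 := by rw [w_cross R hj hc]; exact hw0
    have h2 := huniq ((v0, i0), !b0) hca hwa hc h1
    have h3 : b0 = !b0 := congrArg Prod.snd h2
    revert h3
    cases b0 <;> decide
  have hincne : inc (KK R j) v0 (dir3 i0) ≠ 0 := by
    intro h0
    have hiff : KK R j (tau v0 (dir3 i0)) ↔ KK R j (tau v0 (dir3 i0 - 1)) := by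
      by_contra h
      rcases inc_cases (K := KK R j) v0 (dir3 i0) with c | c | c
      · unfold inc at c
        by_cases k1 : KK R j (tau v0 (dir3 i0)) <;> by_cases k2 : KK R j (tau v0 (dir3 i0 - 1)) <;>
          simp [k1, k2] at c h
      · rw [h0] at c; norm_num at c
      · rw [h0] at c; norm_num at c
    rw [← tri_edV, ← tri_edV', edV_dir3] at hiff
    have hiff' : KK R j (tri (v0, i0) b0) ↔ KK R j (tri (v0, i0) (!b0)) := by
      cases hb : evn (dir3 i0) <;> rw [hb] at hiff <;> cases b0 <;> first | exact hiff | exact hiff.symm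
    have h1 : (KK R j (tri (v0, i0) b0) ∧ ¬ R.B j (Sum.inr (v0, i0))) ∨
      (¬ KK R j (tri (v0, i0) b0) ∧ R.B j (Sum.inr (v0, i0))) := hca
    rw [cross_iff] at hnot
    tauto
  have hval0 : (inc (KK R j) v0 (dir3 i0) : ZMod 2) * (1 + (σ v0 + σ (v0 + e (dir3 i0)))) = 1 := by
    rw [e_dir3, ← hmono, two_mul_zmod, add_zero, mul_one]
    rcases inc_cases (K := KK R j) v0 (dir3 i0) with c | c | c
    · exact absurd c hincne
    · rw [c]; simp
    · rw [c]; decide
  have hsingle : ∀ v ∈ S, ∀ i : Fin 3, (v ≠ v0 ∨ i ≠ i0) →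
      (inc (KK R j) v (dir3 i) : ZMod 2) * (1 + (σ v + σ (v + e (dir3 i)))) = 0 := by
    intro v hv i hne
    by_contra h
    obtain ⟨h1, h2, h3⟩ := hterm v hv i h
    obtain ⟨b, hb⟩ := inc_cross R h1
    rw [edV_dir3] at hb
    have h4 : R.w j ((v, i), b) = -1 := by
      rw [w_cross R hj hb]
      unfold w0'
      rw [if_pos h3, if_pos h2]
    have h5 := huniq ((v, i), b) hca hwa hb h4
    have h6 : v0 = v := congrArg (fun a : Hf => a.1.1) h5
    have h7 : i0 = i := congrArg (fun a : Hf => a.1.2) h5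
    rcases hne with h | h
    · exact h h6.symm
    · exact h h7.symm
  rw [Finset.sum_eq_single i0]
  · rw [Finset.sum_eq_single v0]
    · exact hval0
    · intro v hv hne
      exact hsingle v hv i0 (Or.inl hne)
    · intro h
      exact absurd (mem_GE.1 hGE0).1 h
  · intro i _ hne
    exact Finset.sum_eq_zero fun v hv => hsingle v hv i (Or.inr hne)
  · intro h; exact absurd (Finset.mem_univ _) h

lemma net_KK {j : ℕ} (hj : j < q) : X S (KK R j) 0 ≠ 0 := by
  intro h0
  have ha := net_a (closed_KK R hj) σ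
  have hb := net_b R hj
  have hX := fun d => X_eq (closed_KK R hj) d
  have h1 : ∑ i : Fin 3, ∑ v ∈ S, (inc (KK R j) v (dir3 i) : ZMod 2) = 1 := by
    rw [← hb]
    have h2 : ∑ i : Fin 3, ∑ v ∈ S,
        (inc (KK R j) v (dir3 i) : ZMod 2) * (1 + (σ v + σ (v + e (dir3 i)))) =
        ∑ i : Fin 3, ∑ v ∈ S, (inc (KK R j) v (dir3 i) : ZMod 2) +
        ∑ i : Fin 3, ∑ v ∈ S, (inc (KK R j) v (dir3 i) : ZMod 2) * (σ v + σ (v + e (dir3 i))) := by
      rw [← Finset.sum_add_distrib]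
      refine Finset.sum_congr rfl fun i _ => ?_
      rw [← Finset.sum_add_distrib]
      refine Finset.sum_congr rfl fun v _ => ?_
      ring
    rw [h2, ha, add_zero]
  have h3 : ∀ i : Fin 3, ∑ v ∈ S, (inc (KK R j) v (dir3 i) : ZMod 2) = 0 := by
    intro i
    have h4 : X S (KK R j) (dir3 i) = 0 := by rw [hX, h0, mul_zero]
    unfold X at h4
    have h5 : ((∑ v ∈ S, inc (KK R j) v (dir3 i) : ℤ) : ZMod 2) = 0 := by rw [h4]; simp
    push_cast at h5
    exact h5
  rw [Finset.sum_eq_zero fun i _ => h3 i] at h1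
  exact absurd h1 (by decide)

/-- the family of a run -/
def fam (hT : TriFree S) : Fam S q where
  K := KK R
  ty := R.ty
  closed := fun _ hj => closed_KK R hj
  net := fun _ hj => net_KK R hj
  cov := fun _ _ _ _ _ hi hj hk h1 h2 h3 => cov_KK R hi hj hk h1 h2 h3
  pair := fun _ _ _ _ hi hj hij h1 h2 hg => pair_KK R hT hi hj hij h1 h2 hg

end Fam

/-- the fewest monochromatic edges -/
theorem mono_bound {S : Finset V} (hT : TriFree S) :
    ∃ σ : V → ZMod 2, 9 * (mono S σ).card ≤ S.card := by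
  obtain ⟨σ, hσ⟩ := exists_min_coloring S
  obtain ⟨R⟩ := exists_hex_run hσ
  have h := (fam R hT).total hT
  refine ⟨σ, ?_⟩
  push_cast at h
  have h2 : 9 * ((mono S σ).card : ℤ) ≤ S.card := by linarith
  exact_mod_cast h2

end Pool.Agent.H44
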