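import Pool.Agent.Helper44.Hex.Family

set_option linter.unusedSectionVars false

/-!
From few monochromatic edges to a large independent set.
-/

namespace Pool.Agent.H44

open Finset

lemma mono_of_edge {S : Finset V} {σ : V → ZMod 2} {v w : V} {i : Fin 3} (hv : v ∈ S) (hw : w ∈ S)
    (hvw : w - v = e3 i) (hs : σ v = σ w) : (v, i) ∈ mono S σ := by
  have h : v + e3 i = w := by rw [← hvw]; abel
  unfold mono
  rw [Finset.mem_filter, mem_GE]
  simp only [h]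
  exact ⟨⟨hv, hw⟩, hs⟩

theorem independent_of_mono {S : Finset V} {σ : V → ZMod 2} (hb : 9 * (mono S σ).card ≤ S.card) :
    ∃ I ⊆ S, (∀ x ∈ I, ∀ y ∈ I, ∀ i : Fin 3, y - x ≠ e3 i) ∧ 4 * S.card ≤ 9 * I.card := by
  classical
  set T : Finset V := (mono S σ).image Prod.fst with hT
  have hTc : T.card ≤ (mono S σ).card := Finset.card_image_le
  set S' := S \ T with hS'
  have hS'c : S.card ≤ S'.card + T.card := by
    have := Finset.le_card_sdiff T S
    rw [← hS'] at this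
    omega
  set I0 := S'.filter (fun v => σ v = 0) with hI0
  set I1 := S'.filter (fun v => ¬ σ v = 0) with hI1
  have hc : I0.card + I1.card = S'.card := by
    rw [hI0, hI1]
    exact Finset.card_filter_add_card_filter_not (s := S') (fun v => σ v = 0)
  have hind : ∀ x ∈ S', ∀ y ∈ S', σ x = σ y → ∀ i : Fin 3, y - x ≠ e3 i := by
    intro x hx y hy hs i hxy
    rw [hS', Finset.mem_sdiff] at hx hy
    apply hx.2
    rw [hT, Finset.mem_image]
    exact ⟨(x, i), mono_of_edge hx.1 hy.1 hxy hs, rfl⟩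
  have h0 : ∀ x ∈ I0, ∀ y ∈ I0, ∀ i : Fin 3, y - x ≠ e3 i := by
    intro x hx y hy
    rw [hI0, Finset.mem_filter] at hx hy
    exact hind x hx.1 y hy.1 (by rw [hx.2, hy.2])
  have h1 : ∀ x ∈ I1, ∀ y ∈ I1, ∀ i : Fin 3, y - x ≠ e3 i := by
    intro x hx y hy
    rw [hI1, Finset.mem_filter] at hx hy
    have key : ∀ a b : ZMod 2, a ≠ 0 → b ≠ 0 → a = b := by decide
    exact hind x hx.1 y hy.1 (key _ _ hx.2 hy.2)
  have hsub : S' ⊆ S := Finset.sdiff_subset
  by_cases hle : I1.card ≤ I0.card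
  · exact ⟨I0, (Finset.filter_subset _ _).trans hsub, h0, by omega⟩
  · exact ⟨I1, (Finset.filter_subset _ _).trans hsub, h1, by omega⟩

theorem main_bound {S : Finset V} (hT : TriFree S) :
    ∃ I ⊆ S, (∀ x ∈ I, ∀ y ∈ I, ∀ i : Fin 3, y - x ≠ e3 i) ∧ 4 * S.card ≤ 9 * I.card := by
  obtain ⟨σ, hσ⟩ := mono_bound hT
  exact independent_of_mono hσ

lemma e_unit (d : Fin 6) : e d = (1, 0) ∨ e d = (-1, 0) ∨ e d = (0, 1) ∨ e d = (0, -1) ∨
    e d = (1, -1) ∨ e d = (-1, 1) := by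
  fin_cases d <;> simp [e]

lemma e_diff (d : Fin 6) : e (d + 1) - e d = e (d + 2) := by
  fin_cases d <;> simp [e]

theorem graph_bound (G : SimpleGraph (ℤ × ℤ))
    (hG : ∀ p q : ℤ × ℤ, G.Adj p q ↔
        (q - p = (1, 0) ∨ q - p = (-1, 0) ∨ q - p = (0, 1) ∨
         q - p = (0, -1) ∨ q - p = (1, -1) ∨ q - p = (-1, 1)))
    (S : Finset (ℤ × ℤ))
    (hS : ∀ x ∈ S, ∀ y ∈ S, ∀ z ∈ S, ¬ (G.Adj x y ∧ G.Adj y z ∧ G.Adj x z)) :
    ∃ I ⊆ S, (∀ x ∈ I, ∀ y ∈ I, ¬ G.Adj x y) ∧ 4 * S.card ≤ 9 * I.card := by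
  have hT : TriFree S := by
    rintro v d ⟨h0, h1, h2⟩
    apply hS v h0 _ h1 _ h2
    rw [hG, hG, hG]
    have a1 : v + e d - v = e d := by abel
    have a2 : v + e (d + 1) - (v + e d) = e (d + 2) := by rw [← e_diff]; abel
    have a3 : v + e (d + 1) - v = e (d + 1) := by abel
    rw [a1, a2, a3]
    exact ⟨e_unit _, e_unit _, e_unit _⟩
  obtain ⟨I, hIS, hI, hc⟩ := main_bound hT
  refine ⟨I, hIS, ?_, hc⟩
  intro x hx y hy hadj
  rw [hG] at hadj
  have neg : ∀ a b : ℤ, y - x = (a, b) → x - y = (-a, -b) := by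
    intro a b h
    rw [← neg_sub, h]; rfl
  rcases hadj with h | h | h | h | h | h
  · exact hI x hx y hy 0 h
  · exact hI y hy x hx 0 (neg _ _ h)
  · exact hI x hx y hy 1 h
  · exact hI y hy x hx 1 (neg _ _ h)
  · exact hI y hy x hx 2 (neg _ _ h)
  · exact hI x hx y hy 2 h

end Pool.Agent.H44
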