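import Pool.Agent.Helper44.Hex.Run

set_option linter.unusedSectionVars false

/-!
The triangular lattice, its triangles, and the dual graph with subdivided edges.
-/

namespace Pool.Agent.H44

open Finset

abbrev V := ℤ × ℤ
/-- triangles: `(v, true)` is the up triangle `v, v+e0, v+e1`, `(v, false)` is the down triangle
`v, v+e1, v+e2` -/
abbrev Tri := V × Bool
/-- edges: `(v, i)` joins `v` and `v + e i` (`i < 3`) -/
abbrev Ed := V × Fin 3
abbrev Nd := Tri ⊕ Ed
abbrev Hf := Ed × Bool

/-- the six unit vectors -/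
def e : Fin 6 → V := ![(1, 0), (0, 1), (-1, 1), (-1, 0), (0, -1), (1, -1)]

def e3 : Fin 3 → V := ![(1, 0), (0, 1), (-1, 1)]

/-- the triangle at `v` between directions `i` and `i+1` -/
def tau (v : V) : Fin 6 → Tri :=
  ![(v, true), (v, false), (v + (-1, 0), true), (v + (0, -1), false), (v + (0, -1), true),
    (v + (1, -1), false)]

def upT (x : Ed) : Tri := (x.1 + ![(0, 0), (0, 0), (-1, 0)] x.2, true)
def dnT (x : Ed) : Tri := (x.1 + ![(1, -1), (0, 0), (0, 0)] x.2, false)

def tri (x : Ed) (b : Bool) : Tri := if b then upT x else dnT x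

def hs (a : Hf) : Nd := Sum.inl (tri a.1 a.2)
def ht (a : Hf) : Nd := Sum.inr a.1

/-- the edge at `v` in direction `d` -/
def edV (v : V) : Fin 6 → Ed :=
  ![(v, 0), (v, 1), (v, 2), (v + (-1, 0), 0), (v + (0, -1), 1), (v + (1, -1), 2)]

def evn : Fin 6 → Bool := ![true, false, true, false, true, false]

lemma tri_edV (v : V) (d : Fin 6) : tri (edV v d) (evn d) = tau v d := by
  obtain ⟨x, y⟩ := v
  fin_cases d <;> simp [tri, edV, evn, tau, upT, dnT] 

lemma tri_edV' (v : V) (d : Fin 6) : tri (edV v d) (!evn d) = tau v (d - 1) := by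
  obtain ⟨x, y⟩ := v
  fin_cases d <;> simp [tri, edV, evn, tau, upT, dnT] 

lemma edV_flip (v : V) (d : Fin 6) : edV (v + e d) (d + 3) = edV v d := by
  obtain ⟨x, y⟩ := v
  fin_cases d <;> simp [edV, e] 

lemma tau_flip (v : V) (d : Fin 6) : tau (v + e d) (d + 3) = tau v (d - 1) := by
  obtain ⟨x, y⟩ := v
  fin_cases d <;> simp [tau, e] 

lemma tau_flip' (v : V) (d : Fin 6) : tau (v + e d) (d + 2) = tau v d := by
  obtain ⟨x, y⟩ := v
  fin_cases d <;> simp [tau, e] 

lemma e_flip (v : V) (d : Fin 6) : v + e d + e (d + 3) = v := by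
  obtain ⟨x, y⟩ := v
  fin_cases d <;> simp [e] 

/-! ### The cut lemma: finite dual-even edge sets are cuts -/

section Cut

variable (P : Finset Ed)

/-- indicator -/
def ind2 (x : Ed) : ZMod 2 := if x ∈ P then 1 else 0

/-- parity of the number of horizontal edges of `P` to the right of `v` -/
def ray (v : V) : ZMod 2 :=
  ∑ x ∈ P, if x.2 = 0 ∧ x.1.2 = v.2 ∧ v.1 ≤ x.1.1 then 1 else 0

lemma ray_succ (v : V) : ray P v = ray P (v + (1, 0)) + ind2 P (v, 0) := by
  unfold ray ind2
  have h1 : ∀ x ∈ P, (if x.2 = 0 ∧ x.1.2 = v.2 ∧ v.1 ≤ x.1.1 then (1 : ZMod 2) else 0) =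
      (if x.2 = 0 ∧ x.1.2 = (v + (1, 0)).2 ∧ (v + (1, 0)).1 ≤ x.1.1 then 1 else 0) +
      (if x = (v, 0) then 1 else 0) := by
    rintro ⟨⟨a, b⟩, i⟩ _
    obtain ⟨x, y⟩ := v
    simp only [Prod.mk_add_mk, add_zero, Prod.mk.injEq]
    by_cases hi : i = 0
    · by_cases hb : b = y
      · by_cases ha : a = x
        · subst ha; subst hb; subst hi
          simp
        · by_cases hlt : x + 1 ≤ a
          · have : x ≤ a := by omega
            simp [hi, hb, ha, hlt, this]
          · have : ¬ x ≤ a := by omega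
            simp [hi, hb, ha, hlt, this]
      · simp [hb]
    · simp [hi]
  rw [Finset.sum_congr rfl h1, Finset.sum_add_distrib, Finset.sum_ite_eq']

lemma ray_far : ∃ R : ℤ, ∀ v : V, R ≤ v.1 → ray P v = 0 ∧ ∀ i, ind2 P (v, i) = 0 := by
  obtain ⟨R, hR⟩ : ∃ R : ℤ, ∀ x ∈ P, x.1.1 < R := by
    obtain ⟨M, hM⟩ := (P.image fun x => x.1.1).bddAbove
    refine ⟨M + 1, fun x hx => ?_⟩
    have := hM (Finset.mem_coe.2 (Finset.mem_image.2 ⟨x, hx, rfl⟩))
    omega
  refine ⟨R, fun v hv => ⟨?_, fun i => ?_⟩⟩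
  · unfold ray
    apply Finset.sum_eq_zero
    intro x hx
    have := hR x hx
    rw [if_neg]
    omega
  · unfold ind2
    rw [if_neg]
    intro h
    have := hR _ h
    simp only at this
    omega

variable {P}

lemma cut_aux (hup : ∀ v : V, ind2 P (v, 0) + ind2 P (v, 1) + ind2 P (v + (1, 0), 2) = 0)
    (hdn : ∀ v : V, ind2 P (v + (-1, 1), 0) + ind2 P (v, 1) + ind2 P (v, 2) = 0) (v : V) :
    ind2 P (v, 1) = ray P v + ray P (v + (0, 1)) := by
  obtain ⟨R, hR⟩ := ray_far P
  have key : ∀ n : ℕ, ∀ v : V, R - n ≤ v.1 → ind2 P (v, 1) = ray P v + ray P (v + (0, 1)) := by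
    intro n
    induction n with
    | zero =>
      intro v hv
      rw [(hR v (by simpa using hv)).1, (hR v (by simpa using hv)).2,
        (hR (v + (0, 1)) (by simpa using hv)).1]
      simp
    | succ n ih =>
      intro v hv
      have h1 := ih (v + (1, 0)) (by push_cast at hv; simp only [Prod.fst_add]; omega)
      have h2 := hup v
      have h3 := hdn (v + (1, 0))
      have e1 : v + (1, 0) + (-1, 1) = v + (0, 1) := by
        obtain ⟨x, y⟩ := v; simp
      have e2 : v + (1, 0) + (0, 1) = v + (0, 1) + (1, 0) := by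
        obtain ⟨x, y⟩ := v; simp
      rw [e1] at h3
      rw [e2] at h1
      have h4 := ray_succ P v
      have h5 := ray_succ P (v + (0, 1))
      have c1 : ind2 P (v + (1, 0), 2) + ind2 P (v + (1, 0), 2) = 0 :=
        CharTwo.add_self_eq_zero _
      have c2 : ind2 P (v, 0) + ind2 P (v, 0) = 0 := CharTwo.add_self_eq_zero _
      have c3 : ind2 P (v + (0, 1), 0) + ind2 P (v + (0, 1), 0) = 0 :=
        CharTwo.add_self_eq_zero _
      have c4 : ind2 P (v + (1, 0), 1) + ind2 P (v + (1, 0), 1) = 0 :=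
        CharTwo.add_self_eq_zero _
      have two : (2 : ZMod 2) = 0 := by decide
      linear_combination h2 + h3 - h4 - h5 - c1 - c2 - c3 - h1 -
        (ray P (v + (1, 0)) + ray P (v + (0, 1) + (1, 0))) * two
  apply key (R - v.1).toNat v
  have := Int.self_le_toNat (R - v.1)
  omega

lemma cut_lemma (hup : ∀ v : V, ind2 P (v, 0) + ind2 P (v, 1) + ind2 P (v + (1, 0), 2) = 0)
    (hdn : ∀ v : V, ind2 P (v + (-1, 1), 0) + ind2 P (v, 1) + ind2 P (v, 2) = 0) (x : Ed) :
    ind2 P x = ray P x.1 + ray P (x.1 + e3 x.2) := by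
  obtain ⟨v, i⟩ := x
  fin_cases i
  · simp only [e3, Fin.zero_eta, Matrix.cons_val_zero]
    rw [ray_succ P v]
    have c1 : ray P (v + (1, 0)) + ray P (v + (1, 0)) = 0 := CharTwo.add_self_eq_zero _
    linear_combination -c1
  · simp only [e3, Fin.mk_one, Matrix.cons_val_one, Matrix.cons_val_zero]
    exact cut_aux hup hdn v
  · simp only [e3, Fin.reduceFinMk, Matrix.cons_val]
    have h1 := cut_aux hup hdn v
    have h2 := hdn v
    have h3 := ray_succ P (v + (-1, 1))
    have e1 : v + (-1, 1) + (1, 0) = v + (0, 1) := by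
      obtain ⟨x, y⟩ := v; simp
    rw [e1] at h3
    have c1 : ind2 P (v + (-1, 1), 0) + ind2 P (v + (-1, 1), 0) = 0 :=
      CharTwo.add_self_eq_zero _
    have c2 : ind2 P (v, 1) + ind2 P (v, 1) = 0 := CharTwo.add_self_eq_zero _
    have two : (2 : ZMod 2) = 0 := by decide
    linear_combination h2 - h1 - h3 - c1 - (ray P v + ray P (v + (0, 1))) * two
end Cut

end Pool.Agent.H44
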