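import Pool.Agent.Helper44.Hex.Weights

set_option linter.unusedSectionVars false

/-!
Boundary geometry of one set `K` of triangles whose boundary edges lie in a triangle-free induced
subgraph of the triangular lattice.
-/

namespace Pool.Agent.H44

open Finset

lemma fin6_a (d : Fin 6) : d + 3 - 1 = d + 2 := by revert d; decide
lemma fin6_b (d : Fin 6) : d + 3 + 3 = d := by revert d; decide

section Local

variable (S : Finset V) (K : Tri → Prop)

open Classical in
/-- signed incidence: `1` if the edge leaving `v` in direction `d` has `K` exactly on its left,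
`-1` if it has `K` exactly on its right -/
noncomputable def inc (v : V) (d : Fin 6) : ℤ :=
  (if K (tau v d) then 1 else 0) - (if K (tau v (d - 1)) then 1 else 0)

/-- `K` is a union of faces -/
def Closed : Prop := ∀ v d, ¬ (v ∈ S ∧ v + e d ∈ S) → (K (tau v d) ↔ K (tau v (d - 1)))

def TriFree : Prop := ∀ v d, ¬ (v ∈ S ∧ v + e d ∈ S ∧ v + e (d + 1) ∈ S)

variable {S K}

lemma inc_flip (v : V) (d : Fin 6) : inc K (v + e d) (d + 3) = - inc K v d := by
  unfold inc
  rw [fin6_a, tau_flip, tau_flip']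
  ring

lemma inc_flip' (v : V) (d : Fin 6) : inc K v d = - inc K (v + e d) (d + 3) := by
  rw [inc_flip]; ring

lemma inc_zero (hK : Closed S K) {v : V} {d : Fin 6} (h : ¬ (v ∈ S ∧ v + e d ∈ S)) :
    inc K v d = 0 := by
  unfold inc
  by_cases h1 : K (tau v d)
  · have h2 := (hK v d h).1 h1
    rw [if_pos h1, if_pos h2]; ring
  · have h2 : ¬ K (tau v (d - 1)) := fun h' => h1 ((hK v d h).2 h')
    rw [if_neg h1, if_neg h2]; ring

lemma inc_mem (hK : Closed S K) {v : V} {d : Fin 6} (h : inc K v d ≠ 0) :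
    v ∈ S ∧ v + e d ∈ S := by
  by_contra h'; exact h (inc_zero hK h')

lemma inc_sum (v : V) : ∑ d, inc K v d = 0 := by
  unfold inc
  simp only [Fin.sum_univ_six]
  have h0 : (0 : Fin 6) - 1 = 5 := by decide
  have h1 : (1 : Fin 6) - 1 = 0 := by decide
  have h2 : (2 : Fin 6) - 1 = 1 := by decide
  have h3 : (3 : Fin 6) - 1 = 2 := by decide
  have h4 : (4 : Fin 6) - 1 = 3 := by decide
  have h5 : (5 : Fin 6) - 1 = 4 := by decide
  rw [h0, h1, h2, h3, h4, h5]
  ring

lemma inc_eq_one {v : V} {d : Fin 6} : inc K v d = 1 ↔ K (tau v d) ∧ ¬ K (tau v (d - 1)) := by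
  unfold inc
  by_cases h1 : K (tau v d) <;> by_cases h2 : K (tau v (d - 1)) <;> simp [h1, h2]

lemma inc_eq_neg_one {v : V} {d : Fin 6} :
    inc K v d = -1 ↔ ¬ K (tau v d) ∧ K (tau v (d - 1)) := by
  unfold inc
  by_cases h1 : K (tau v d) <;> by_cases h2 : K (tau v (d - 1)) <;> simp [h1, h2]

lemma inc_cases (v : V) (d : Fin 6) : inc K v d = 0 ∨ inc K v d = 1 ∨ inc K v d = -1 := by
  unfold inc
  by_cases h1 : K (tau v d) <;> by_cases h2 : K (tau v (d - 1)) <;> simp [h1, h2]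

/-- reindexing along direction `d` -/
lemma sum_shift {M : Type*} [AddCommMonoid M] (d : Fin 6) (g h : V → M)
    (hg : ∀ v ∈ S, v + e d ∉ S → g v = 0)
    (hh : ∀ u ∈ S, u + e (d + 3) ∉ S → h u = 0)
    (hgh : ∀ v ∈ S, v + e d ∈ S → g v = h (v + e d)) :
    ∑ v ∈ S, g v = ∑ u ∈ S, h u := by
  have h1 : ∑ v ∈ S, g v = ∑ v ∈ S.filter (fun v => v + e d ∈ S), g v := by
    rw [Finset.sum_filter]
    refine Finset.sum_congr rfl fun v hv => ?_
    split_ifs with h'
    · rfl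
    · exact hg v hv h'
  have h2 : ∑ u ∈ S, h u = ∑ u ∈ S.filter (fun u => u + e (d + 3) ∈ S), h u := by
    rw [Finset.sum_filter]
    refine Finset.sum_congr rfl fun v hv => ?_
    split_ifs with h'
    · rfl
    · exact hh v hv h'
  rw [h1, h2]
  have hinv : ∀ u : V, u + e (d + 3) + e d = u := by
    intro u
    have := e_flip u (d + 3)
    rwa [fin6_b] at this
  refine Finset.sum_nbij' (fun v => v + e d) (fun u => u + e (d + 3)) ?_ ?_ ?_ ?_ ?_
  · intro v hv
    rw [Finset.mem_filter] at hv ⊢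
    refine ⟨hv.2, ?_⟩
    rw [e_flip]; exact hv.1
  · intro u hu
    rw [Finset.mem_filter] at hu ⊢
    refine ⟨hu.2, ?_⟩
    rw [hinv]; exact hu.1
  · intro v _; exact e_flip v d
  · intro u _; exact hinv u
  · intro v hv
    rw [Finset.mem_filter] at hv
    exact hgh v hv.1 hv.2

variable (S K) in
/-- net number of boundary edges in direction `d` -/
noncomputable def X (d : Fin 6) : ℤ := ∑ v ∈ S, inc K v d

lemma X_flip (hK : Closed S K) (d : Fin 6) : X S K (d + 3) = - X S K d := by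
  have h : ∑ v ∈ S, inc K v d = ∑ u ∈ S, (- inc K u (d + 3)) := by
    apply sum_shift d
    · intro v hv hv'
      exact inc_zero hK (fun h => hv' h.2)
    · intro u hu hu'
      rw [inc_zero hK (fun h => hu' h.2)]; ring
    · intro v _ _
      exact inc_flip' v d
  unfold X
  rw [h, Finset.sum_neg_distrib]; ring

lemma sum_dir (f : Fin 6 → ℤ) : ∑ d, f (d + 3) = ∑ d, f d := by
  simp only [Fin.sum_univ_six]
  have h0 : (0 : Fin 6) + 3 = 3 := by decide
  have h1 : (1 : Fin 6) + 3 = 4 := by decide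
  have h2 : (2 : Fin 6) + 3 = 5 := by decide
  have h3 : (3 : Fin 6) + 3 = 0 := by decide
  have h4 : (4 : Fin 6) + 3 = 1 := by decide
  have h5 : (5 : Fin 6) + 3 = 2 := by decide
  rw [h0, h1, h2, h3, h4, h5]
  ring

/-- the closing condition for a linear functional -/
lemma closing (hK : Closed S K) (φ : V → ℤ) (hφ : ∀ u w, φ (u + w) = φ u + φ w) :
    ∑ d, φ (e d) * X S K d = 0 := by
  have h1 : ∀ d, ∑ v ∈ S, inc K v d * φ v = ∑ u ∈ S, (- (inc K u (d + 3) * φ (u + e (d + 3)))) := by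
    intro d
    apply sum_shift d
    · intro v hv hv'
      rw [inc_zero hK (fun h => hv' h.2)]; ring
    · intro u hu hu'
      rw [inc_zero hK (fun h => hu' h.2)]; ring
    · intro v _ _
      rw [e_flip, inc_flip' v d]; ring
  have h2 : ∑ d, ∑ v ∈ S, inc K v d * φ v = 0 := by
    rw [Finset.sum_comm]
    apply Finset.sum_eq_zero
    intro v _
    rw [← Finset.sum_mul, inc_sum, zero_mul]
  have h3 : ∑ d, ∑ v ∈ S, inc K v d * φ v =
      - ∑ d, ∑ u ∈ S, inc K u d * φ (u + e d) := by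
    rw [Finset.sum_congr rfl fun d _ => h1 d]
    rw [← sum_dir (fun d => ∑ u ∈ S, inc K u d * φ (u + e d)), ← Finset.sum_neg_distrib]
    refine Finset.sum_congr rfl fun d _ => ?_
    rw [Finset.sum_neg_distrib]
  have h4 : ∑ d, ∑ u ∈ S, inc K u d * φ (u + e d) =
      ∑ d, ∑ v ∈ S, inc K v d * φ v + ∑ d, φ (e d) * X S K d := by
    rw [← Finset.sum_add_distrib]
    refine Finset.sum_congr rfl fun d _ => ?_
    unfold X
    rw [Finset.mul_sum, ← Finset.sum_add_distrib]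
    refine Finset.sum_congr rfl fun u _ => ?_
    rw [hφ]; ring
  rw [h4, h2] at h3
  linarith

/-- signs of directions -/
def eps (d : Fin 6) : ℤ := if evn d then 1 else -1

lemma X_eq (hK : Closed S K) (d : Fin 6) : X S K d = eps d * X S K 0 := by
  have f3 := X_flip hK 0
  have f4 := X_flip hK 1
  have f5 := X_flip hK 2
  have g3 : (0 : Fin 6) + 3 = 3 := by decide
  have g4 : (1 : Fin 6) + 3 = 4 := by decide
  have g5 : (2 : Fin 6) + 3 = 5 := by decide
  rw [g3] at f3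
  rw [g4] at f4
  rw [g5] at f5
  have c1 := closing hK (fun v => v.1) (fun u w => rfl)
  have c2 := closing hK (fun v => v.2) (fun u w => rfl)
  simp only [Fin.sum_univ_six, e] at c1 c2
  simp at c1 c2
  have e1 : X S K 2 = X S K 0 := by linarith
  have e2 : X S K 1 = - X S K 0 := by linarith
  fin_cases d <;> simp [eps, evn] <;> linarith

lemma eps_sq (d : Fin 6) : eps d * eps d = 1 := by revert d; decide

lemma eps_flip (d : Fin 6) : eps (d + 3) = - eps d := by revert d; decide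

/-! ### corner patterns -/

def Conv (b : Fin 6 → Prop) (d : Fin 6) : Prop :=
  b d ∧ b (d + 1) ∧ ¬ b (d + 2) ∧ ¬ b (d + 3) ∧ ¬ b (d + 4) ∧ ¬ b (d + 5)
def Strt (b : Fin 6 → Prop) (d : Fin 6) : Prop :=
  b d ∧ b (d + 1) ∧ b (d + 2) ∧ ¬ b (d + 3) ∧ ¬ b (d + 4) ∧ ¬ b (d + 5)
def Refl (b : Fin 6 → Prop) (d : Fin 6) : Prop :=
  b d ∧ b (d + 1) ∧ b (d + 2) ∧ b (d + 3) ∧ ¬ b (d + 4) ∧ ¬ b (d + 5)

variable (K) in
/-- the pattern of `K` at `v` -/
def pt (v : V) (d : Fin 6) : Prop := K (tau v d)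

/-! ### corner patterns of a closed set -/

lemma pat_one {b n : Fin 6 → Prop} (hb : ∀ d, ¬ n d → (b d ↔ b (d - 1)))
    (hn : ∀ d, ¬ (n d ∧ n (d + 1))) {d : Fin 6} (h1 : b d) (h2 : ¬ b (d - 1)) :
    Conv b d ∨ Strt b d ∨ Refl b d := by
  have nd : n d := by
    by_contra h; exact h2 ((hb d h).1 h1)
  have n1 : ¬ n (d + 1) := fun h => hn d ⟨nd, h⟩
  have n5 : ¬ n (d + 5) := fun h => hn (d + 5) ⟨h, by
    have : d + 5 + 1 = d := (by decide : ∀ d : Fin 6, d + 5 + 1 = d) d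
    rw [this]; exact nd⟩
  have e1 : d + 1 - 1 = d := (by decide : ∀ d : Fin 6, d + 1 - 1 = d) d
  have e5 : d + 5 - 1 = d + 4 := (by decide : ∀ d : Fin 6, d + 5 - 1 = d + 4) d
  have e0 : d - 1 = d + 5 := (by decide : ∀ d : Fin 6, d - 1 = d + 5) d
  have e2 : d + 2 - 1 = d + 1 := (by decide : ∀ d : Fin 6, d + 2 - 1 = d + 1) d
  have e3' : d + 3 - 1 = d + 2 := (by decide : ∀ d : Fin 6, d + 3 - 1 = d + 2) d
  have e23 : d + 2 + 1 = d + 3 := (by decide : ∀ d : Fin 6, d + 2 + 1 = d + 3) d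
  have b1 := hb _ n1
  have b5 := hb _ n5
  rw [e1] at b1
  rw [e5] at b5
  rw [e0] at h2
  have b2 := hb (d + 2)
  have b3 := hb (d + 3)
  rw [e2] at b2
  rw [e3'] at b3
  have n23 := hn (d + 2)
  rw [e23] at n23
  unfold Conv Strt Refl
  by_cases c2 : b (d + 2) <;> by_cases c3 : b (d + 3)
  · right; right; exact ⟨h1, b1.2 h1, c2, c3, fun h => h2 (b5.2 h), h2⟩
  · right; left; exact ⟨h1, b1.2 h1, c2, c3, fun h => h2 (b5.2 h), h2⟩
  · exfalso
    apply n23
    refine ⟨?_, ?_⟩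
    · by_contra h; exact c2 ((b2 h).2 (b1.2 h1))
    · by_contra h; exact c2 ((b3 h).1 c3)
  · left; exact ⟨h1, b1.2 h1, c2, c3, fun h => h2 (b5.2 h), h2⟩

lemma pat_neg {b n : Fin 6 → Prop} (hb : ∀ d, ¬ n d → (b d ↔ b (d - 1)))
    (hn : ∀ d, ¬ (n d ∧ n (d + 1))) {d : Fin 6} (h1 : ¬ b d) (h2 : b (d - 1)) :
    Conv b (d + 4) ∨ Strt b (d + 3) ∨ Refl b (d + 2) := by
  have h := pat_one (b := fun x => ¬ b x) (n := n) (fun d hd => not_congr (hb d hd)) hn
    (d := d) h1 (by simpa using h2)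
  have a1 : d + 4 + 1 = d + 5 := (by decide : ∀ d : Fin 6, d + 4 + 1 = d + 5) d
  have a2 : d + 4 + 2 = d := (by decide : ∀ d : Fin 6, d + 4 + 2 = d) d
  have a3 : d + 4 + 3 = d + 1 := (by decide : ∀ d : Fin 6, d + 4 + 3 = d + 1) d
  have a4 : d + 4 + 4 = d + 2 := (by decide : ∀ d : Fin 6, d + 4 + 4 = d + 2) d
  have a5 : d + 4 + 5 = d + 3 := (by decide : ∀ d : Fin 6, d + 4 + 5 = d + 3) d
  have b1 : d + 3 + 1 = d + 4 := (by decide : ∀ d : Fin 6, d + 3 + 1 = d + 4) d
  have b2 : d + 3 + 2 = d + 5 := (by decide : ∀ d : Fin 6, d + 3 + 2 = d + 5) d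
  have b3 : d + 3 + 3 = d := (by decide : ∀ d : Fin 6, d + 3 + 3 = d) d
  have b4 : d + 3 + 4 = d + 1 := (by decide : ∀ d : Fin 6, d + 3 + 4 = d + 1) d
  have b5 : d + 3 + 5 = d + 2 := (by decide : ∀ d : Fin 6, d + 3 + 5 = d + 2) d
  have c1 : d + 2 + 1 = d + 3 := (by decide : ∀ d : Fin 6, d + 2 + 1 = d + 3) d
  have c2 : d + 2 + 2 = d + 4 := (by decide : ∀ d : Fin 6, d + 2 + 2 = d + 4) d
  have c3 : d + 2 + 3 = d + 5 := (by decide : ∀ d : Fin 6, d + 2 + 3 = d + 5) d
  have c4 : d + 2 + 4 = d := (by decide : ∀ d : Fin 6, d + 2 + 4 = d) d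
  have c5 : d + 2 + 5 = d + 1 := (by decide : ∀ d : Fin 6, d + 2 + 5 = d + 1) d
  unfold Conv Strt Refl at h ⊢
  rw [a1, a2, a3, a4, a5, b1, b2, b3, b4, b5, c1, c2, c3, c4, c5]
  simp only [not_not] at h
  rcases h with h | h | h
  · right; right; exact ⟨h.2.2.1, h.2.2.2.1, h.2.2.2.2.1, h.2.2.2.2.2, h.1, h.2.1⟩
  · right; left; exact ⟨h.2.2.2.1, h.2.2.2.2.1, h.2.2.2.2.2, h.1, h.2.1, h.2.2.1⟩
  · left; exact ⟨h.2.2.2.2.1, h.2.2.2.2.2, h.1, h.2.1, h.2.2.1, h.2.2.2.1⟩

lemma closed_pat (hK : Closed S K) {v : V} (d : Fin 6) (h : ¬ (v + e d ∈ S)) :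
    pt K v d ↔ pt K v (d - 1) := hK v d (fun h' => h h'.2)

lemma triFree_pat (hT : TriFree S) {v : V} (hv : v ∈ S) (d : Fin 6) :
    ¬ (v + e d ∈ S ∧ v + e (d + 1) ∈ S) := fun h => hT v d ⟨hv, h.1, h.2⟩

lemma inc_one_pat (hK : Closed S K) (hT : TriFree S) {v : V} {d : Fin 6} (h : inc K v d = 1) :
    Conv (pt K v) d ∨ Strt (pt K v) d ∨ Refl (pt K v) d := by
  have hv : v ∈ S := (inc_mem hK (v := v) (d := d) (by rw [h]; exact one_ne_zero)).1
  rw [inc_eq_one] at h
  exact pat_one (n := fun d => v + e d ∈ S) (closed_pat hK) (triFree_pat hT hv) h.1 h.2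

lemma inc_neg_pat (hK : Closed S K) (hT : TriFree S) {v : V} {d : Fin 6} (h : inc K v d = -1) :
    Conv (pt K v) (d + 4) ∨ Strt (pt K v) (d + 3) ∨ Refl (pt K v) (d + 2) := by
  have hv : v ∈ S := (inc_mem hK (v := v) (d := d) (by rw [h]; norm_num)).1
  rw [inc_eq_neg_one] at h
  exact pat_neg (n := fun d => v + e d ∈ S) (closed_pat hK) (triFree_pat hT hv) h.1 h.2

lemma conv_inc {v : V} {d : Fin 6} (h : Conv (pt K v) d) : inc K v d = 1 ∧ inc K v (d + 2) = -1 := by
  rw [inc_eq_one, inc_eq_neg_one]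
  have e0 : d - 1 = d + 5 := (by decide : ∀ d : Fin 6, d - 1 = d + 5) d
  have e2 : d + 2 - 1 = d + 1 := (by decide : ∀ d : Fin 6, d + 2 - 1 = d + 1) d
  rw [e0, e2]
  exact ⟨⟨h.1, h.2.2.2.2.2⟩, ⟨h.2.2.1, h.2.1⟩⟩

lemma strt_inc {v : V} {d : Fin 6} (h : Strt (pt K v) d) : inc K v d = 1 ∧ inc K v (d + 3) = -1 := by
  rw [inc_eq_one, inc_eq_neg_one]
  have e0 : d - 1 = d + 5 := (by decide : ∀ d : Fin 6, d - 1 = d + 5) d
  have e2 : d + 3 - 1 = d + 2 := (by decide : ∀ d : Fin 6, d + 3 - 1 = d + 2) d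
  rw [e0, e2]
  exact ⟨⟨h.1, h.2.2.2.2.2⟩, ⟨h.2.2.2.1, h.2.2.1⟩⟩

lemma refl_inc {v : V} {d : Fin 6} (h : Refl (pt K v) d) : inc K v d = 1 ∧ inc K v (d + 4) = -1 := by
  rw [inc_eq_one, inc_eq_neg_one]
  have e0 : d - 1 = d + 5 := (by decide : ∀ d : Fin 6, d - 1 = d + 5) d
  have e2 : d + 4 - 1 = d + 3 := (by decide : ∀ d : Fin 6, d + 4 - 1 = d + 3) d
  rw [e0, e2]
  exact ⟨⟨h.1, h.2.2.2.2.2⟩, ⟨h.2.2.2.2.1, h.2.2.2.1⟩⟩

/-! ### counting corners -/

open Classical in
/-- indicator -/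
noncomputable def I (p : Prop) : ℤ := if p then 1 else 0

lemma I_nonneg (p : Prop) : 0 ≤ I p := by unfold I; split_ifs <;> norm_num

lemma I_true {p : Prop} (h : p) : I p = 1 := if_pos h
lemma I_false {p : Prop} (h : ¬ p) : I p = 0 := if_neg h

variable (S K) in
noncomputable def t2 (d : Fin 6) : ℤ := ∑ v ∈ S, I (Conv (pt K v) d)
variable (S K) in
noncomputable def t3 (d : Fin 6) : ℤ := ∑ v ∈ S, I (Strt (pt K v) d)
variable (S K) in
noncomputable def t4 (d : Fin 6) : ℤ := ∑ v ∈ S, I (Refl (pt K v) d)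
variable (S K) in
noncomputable def Out (d : Fin 6) : ℤ := ∑ v ∈ S, I (inc K v d = 1)
variable (S K) in
noncomputable def Inn (d : Fin 6) : ℤ := ∑ v ∈ S, I (inc K v d = -1)

lemma t2_nonneg (d : Fin 6) : 0 ≤ t2 S K d := Finset.sum_nonneg fun _ _ => I_nonneg _
lemma t3_nonneg (d : Fin 6) : 0 ≤ t3 S K d := Finset.sum_nonneg fun _ _ => I_nonneg _
lemma t4_nonneg (d : Fin 6) : 0 ≤ t4 S K d := Finset.sum_nonneg fun _ _ => I_nonneg _

lemma X_out_inn (d : Fin 6) : X S K d = Out S K d - Inn S K d := by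
  unfold X Out Inn
  rw [← Finset.sum_sub_distrib]
  refine Finset.sum_congr rfl fun v _ => ?_
  rcases inc_cases (K := K) v d with h | h | h <;> rw [h] <;> simp [I]

lemma out_eq (hK : Closed S K) (hT : TriFree S) (d : Fin 6) :
    Out S K d = t2 S K d + t3 S K d + t4 S K d := by
  unfold Out t2 t3 t4
  rw [← Finset.sum_add_distrib, ← Finset.sum_add_distrib]
  refine Finset.sum_congr rfl fun v _ => ?_
  by_cases h : inc K v d = 1
  · rcases inc_one_pat hK hT h with h' | h' | h'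
    · rw [I_true h, I_true h', I_false (fun h2 => h'.2.2.1 h2.2.2.1),
        I_false (fun h2 => h'.2.2.1 h2.2.2.1)]; ring
    · rw [I_true h, I_true h', I_false (fun h2 => h2.2.2.1 h'.2.2.1),
        I_false (fun h2 => h'.2.2.2.1 h2.2.2.2.1)]; ring
    · rw [I_true h, I_true h', I_false (fun h2 => h2.2.2.1 h'.2.2.1),
        I_false (fun h2 => h2.2.2.2.1 h'.2.2.2.1)]; ring
  · rw [I_false h, I_false (fun h2 => h (conv_inc h2).1), I_false (fun h2 => h (strt_inc h2).1),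
      I_false (fun h2 => h (refl_inc h2).1)]; ring

lemma inn_eq (hK : Closed S K) (hT : TriFree S) (d : Fin 6) :
    Inn S K d = t2 S K (d + 4) + t3 S K (d + 3) + t4 S K (d + 2) := by
  have a1 : d + 4 + 1 = d + 5 := (by decide : ∀ d : Fin 6, d + 4 + 1 = d + 5) d
  have a2 : d + 4 + 2 = d := (by decide : ∀ d : Fin 6, d + 4 + 2 = d) d
  have a3 : d + 4 + 3 = d + 1 := (by decide : ∀ d : Fin 6, d + 4 + 3 = d + 1) d
  have a4 : d + 4 + 4 = d + 2 := (by decide : ∀ d : Fin 6, d + 4 + 4 = d + 2) d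
  have a5 : d + 4 + 5 = d + 3 := (by decide : ∀ d : Fin 6, d + 4 + 5 = d + 3) d
  have b1 : d + 3 + 1 = d + 4 := (by decide : ∀ d : Fin 6, d + 3 + 1 = d + 4) d
  have b2 : d + 3 + 2 = d + 5 := (by decide : ∀ d : Fin 6, d + 3 + 2 = d + 5) d
  have b3 : d + 3 + 3 = d := (by decide : ∀ d : Fin 6, d + 3 + 3 = d) d
  have b4 : d + 3 + 4 = d + 1 := (by decide : ∀ d : Fin 6, d + 3 + 4 = d + 1) d
  have b5 : d + 3 + 5 = d + 2 := (by decide : ∀ d : Fin 6, d + 3 + 5 = d + 2) d
  have c1 : d + 2 + 1 = d + 3 := (by decide : ∀ d : Fin 6, d + 2 + 1 = d + 3) d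
  have c2 : d + 2 + 2 = d + 4 := (by decide : ∀ d : Fin 6, d + 2 + 2 = d + 4) d
  have c3 : d + 2 + 3 = d + 5 := (by decide : ∀ d : Fin 6, d + 2 + 3 = d + 5) d
  have c4 : d + 2 + 4 = d := (by decide : ∀ d : Fin 6, d + 2 + 4 = d) d
  have c5 : d + 2 + 5 = d + 1 := (by decide : ∀ d : Fin 6, d + 2 + 5 = d + 1) d
  unfold Inn t2 t3 t4
  rw [← Finset.sum_add_distrib, ← Finset.sum_add_distrib]
  refine Finset.sum_congr rfl fun v _ => ?_
  by_cases h : inc K v d = -1
  · rcases inc_neg_pat hK hT h with h' | h' | h'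
    · have f3 : ¬ pt K v (d + 3) := by have := h'.2.2.2.2.2; rwa [a5] at this
      have f2 : ¬ pt K v (d + 2) := by have := h'.2.2.2.2.1; rwa [a4] at this
      rw [I_true h, I_true h', I_false (fun h2 => f3 h2.1), I_false (fun h2 => f2 h2.1)]; ring
    · have f3 : pt K v (d + 3) := h'.1
      have f2 : ¬ pt K v (d + 2) := by have := h'.2.2.2.2.2; rwa [b5] at this
      rw [I_true h, I_true h', I_false (fun h2 : Conv _ _ => by
        have := h2.2.2.2.2.2; rw [a5] at this; exact this f3), I_false (fun h2 => f2 h2.1)]; ring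
    · have f3 : pt K v (d + 3) := by have := h'.2.1; rwa [c1] at this
      have f2 : pt K v (d + 2) := h'.1
      rw [I_true h, I_true h', I_false (fun h2 : Strt _ _ => by
        have := h2.2.2.2.2.2; rw [b5] at this; exact this f2), I_false (fun h2 : Conv _ _ => by
        have := h2.2.2.2.2.2; rw [a5] at this; exact this f3)]; ring
  · rw [I_false h, I_false (fun h2 => h (by have := (conv_inc h2).2; rwa [a2] at this)),
      I_false (fun h2 => h (by have := (strt_inc h2).2; rwa [b3] at this)),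
      I_false (fun h2 => h (by have := (refl_inc h2).2; rwa [c4] at this))]; ring

lemma out_inn (hK : Closed S K) (d : Fin 6) : Out S K d = Inn S K (d + 3) := by
  unfold Out Inn
  apply sum_shift d
  · intro v hv hv'
    rw [inc_zero hK (fun h => hv' h.2)]; exact I_false (by norm_num)
  · intro u hu hu'
    rw [inc_zero hK (fun h => hu' h.2)]; exact I_false (by norm_num)
  · intro v _ _
    rw [inc_flip]
    congr 1
    apply propext
    constructor
    · intro h; rw [h]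
    · intro h; linarith

lemma corner_step (hK : Closed S K) (hT : TriFree S) (d : Fin 6) :
    t2 S K (d + 1) - t4 S K d = t2 S K d - t4 S K (d + 5) := by
  have h1 := out_inn (K := K) hK d
  rw [out_eq hK hT, inn_eq hK hT] at h1
  have a1 : d + 3 + 4 = d + 1 := (by decide : ∀ d : Fin 6, d + 3 + 4 = d + 1) d
  have a2 : d + 3 + 3 = d := (by decide : ∀ d : Fin 6, d + 3 + 3 = d) d
  have a3 : d + 3 + 2 = d + 5 := (by decide : ∀ d : Fin 6, d + 3 + 2 = d + 5) d
  rw [a1, a2, a3] at h1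
  linarith

lemma corner_const (hK : Closed S K) (hT : TriFree S) (d : Fin 6) :
    t2 S K d - t4 S K (d + 5) = t2 S K 0 - t4 S K 5 := by
  have h0 := corner_step hK hT 0
  have h1 := corner_step hK hT 1
  have h2 := corner_step hK hT 2
  have h3 := corner_step hK hT 3
  have h4 := corner_step hK hT 4
  have c01 : (0 : Fin 6) + 1 = 1 := by decide
  have c05 : (0 : Fin 6) + 5 = 5 := by decide
  have c11 : (1 : Fin 6) + 1 = 2 := by decide
  have c15 : (1 : Fin 6) + 5 = 0 := by decide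
  have c21 : (2 : Fin 6) + 1 = 3 := by decide
  have c25 : (2 : Fin 6) + 5 = 1 := by decide
  have c31 : (3 : Fin 6) + 1 = 4 := by decide
  have c35 : (3 : Fin 6) + 5 = 2 := by decide
  have c41 : (4 : Fin 6) + 1 = 5 := by decide
  have c45 : (4 : Fin 6) + 5 = 3 := by decide
  have c55 : (5 : Fin 6) + 5 = 4 := by decide
  rw [c01, c05] at h0
  rw [c11, c15] at h1
  rw [c21, c25] at h2
  rw [c31, c35] at h3
  rw [c41, c45] at h4
  fin_cases d
  · simp only [Fin.zero_eta]; rw [c05]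
  · simp only [Fin.mk_one]; rw [c15]; linarith
  · simp only [Fin.reduceFinMk]; rw [c25]; linarith
  · simp only [Fin.reduceFinMk]; rw [c35]; linarith
  · simp only [Fin.reduceFinMk]; rw [c45]; linarith
  · simp only [Fin.reduceFinMk]; rw [c55]; linarith

lemma t2_zero {d : Fin 6} (h : ∀ v ∈ S, ¬ Conv (pt K v) d) : t2 S K d = 0 :=
  Finset.sum_eq_zero fun v hv => I_false (h v hv)
lemma t3_zero {d : Fin 6} (h : ∀ v ∈ S, ¬ Strt (pt K v) d) : t3 S K d = 0 :=
  Finset.sum_eq_zero fun v hv => I_false (h v hv)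
lemma t4_zero {d : Fin 6} (h : ∀ v ∈ S, ¬ Refl (pt K v) d) : t4 S K d = 0 :=
  Finset.sum_eq_zero fun v hv => I_false (h v hv)

/-- some end of an edge with `K` on its left in direction `d` is not a convex corner -/
lemma special_conv (hK : Closed S K) (hT : TriFree S) {d : Fin 6} (hX : 1 ≤ X S K d) :
    ∃ v ∈ S, (inc K v d = 1 ∧ ¬ Conv (pt K v) d) ∨
      (inc K v (d + 3) = -1 ∧ ¬ Conv (pt K v) (d + 1)) := by
  by_contra hcon
  push Not at hcon
  have z3 : t3 S K d = 0 := t3_zero fun v hv h =>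
    h.2.2.2.1.elim (by
      have := (hcon v hv).1 (strt_inc h).1
      exact absurd h.2.2.1 this.2.2.1)
  have z4 : t4 S K d = 0 := t4_zero fun v hv h => by
    have := (hcon v hv).1 (refl_inc h).1
    exact this.2.2.1 h.2.2.1
  have a3 : d + 5 + 4 = d + 3 := (by decide : ∀ d : Fin 6, d + 5 + 4 = d + 3) d
  have a4 : d + 1 + 5 = d := (by decide : ∀ d : Fin 6, d + 1 + 5 = d) d
  have a5 : d + 5 + 5 = d + 4 := (by decide : ∀ d : Fin 6, d + 5 + 5 = d + 4) d
  have a6 : d + 4 + 5 = d + 3 := (by decide : ∀ d : Fin 6, d + 4 + 5 = d + 3) d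
  have z5 : t4 S K (d + 5) = 0 := t4_zero fun v hv h => by
    have h1 := (refl_inc h).2
    rw [a3] at h1
    have h2 := (hcon v hv).2 h1
    have h3 := h2.2.2.2.2.2
    rw [a4] at h3
    have h4 := h.2.1
    have a7 : d + 5 + 1 = d := (by decide : ∀ d : Fin 6, d + 5 + 1 = d) d
    rw [a7] at h4
    exact h3 h4
  have o := out_eq hK hT d
  have i := inn_eq hK hT d
  have k1 := corner_const hK hT d
  have k2 := corner_const hK hT (d + 4)
  rw [a6] at k2
  have n1 := t4_nonneg (S := S) (K := K) (d + 3)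
  have n2 := t3_nonneg (S := S) (K := K) (d + 3)
  have n3 := t4_nonneg (S := S) (K := K) (d + 2)
  have hX' := X_out_inn (S := S) (K := K) d
  linarith

/-- some end of an edge with `K` on its left in direction `d` is not a reflex corner -/
lemma special_refl (hK : Closed S K) (hT : TriFree S) {d : Fin 6} (hX : 1 ≤ X S K d) :
    ∃ v ∈ S, (inc K v d = 1 ∧ ¬ Refl (pt K v) d) ∨
      (inc K v (d + 3) = -1 ∧ ¬ Refl (pt K v) (d + 5)) := by
  by_contra hcon
  push Not at hcon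
  have z3 : t3 S K d = 0 := t3_zero fun v hv h => by
    have := (hcon v hv).1 (strt_inc h).1
    exact h.2.2.2.1 this.2.2.2.1
  have z2 : t2 S K d = 0 := t2_zero fun v hv h => by
    have := (hcon v hv).1 (conv_inc h).1
    exact h.2.2.1 this.2.2.1
  have a3 : d + 1 + 2 = d + 3 := (by decide : ∀ d : Fin 6, d + 1 + 2 = d + 3) d
  have a4 : d + 1 + 5 = d := (by decide : ∀ d : Fin 6, d + 1 + 5 = d) d
  have a6 : d + 3 + 5 = d + 2 := (by decide : ∀ d : Fin 6, d + 3 + 5 = d + 2) d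
  have z5 : t2 S K (d + 1) = 0 := t2_zero fun v hv h => by
    have h1 := (conv_inc h).2
    rw [a3] at h1
    have h2 := (hcon v hv).2 h1
    have h3 := h2.2.1
    have a7 : d + 5 + 1 = d := (by decide : ∀ d : Fin 6, d + 5 + 1 = d) d
    rw [a7] at h3
    have h4 := h.2.2.2.2.2
    rw [a4] at h4
    exact h4 h3
  have o := out_eq hK hT d
  have i := inn_eq hK hT d
  have k1 := corner_const hK hT (d + 1)
  have k2 := corner_const hK hT (d + 3)
  rw [a6] at k2
  rw [a4] at k1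
  have n1 := t2_nonneg (S := S) (K := K) (d + 3)
  have n2 := t3_nonneg (S := S) (K := K) (d + 3)
  have n3 := t2_nonneg (S := S) (K := K) (d + 4)
  have hX' := X_out_inn (S := S) (K := K) d
  linarith

end Local

end Pool.Agent.H44
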