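import Pool.Agent.Helper44.Hex.Step

set_option linter.unusedSectionVars false

/-!
Iterating the contraction step until no negative edge is left.
-/

namespace Pool.Agent.H44

open Finset

section Run

variable {N A : Type*} [DecidableEq N] [DecidableEq A] [Inhabited N]

/-- a run of `q` contraction steps -/
structure CutRun (s t : A → N) (w0 : A → ℤ) (c0 : N → ZMod 2) (q : ℕ) where
  w : ℕ → A → ℤ
  c : ℕ → N → ZMod 2
  x : ℕ → N
  w_zero : w 0 = w0
  c_zero : c 0 = c0
  good : ∀ j, j ≤ q → GoodW s t (w j) (c j)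
  ex : ∀ j, j < q → ∃ a, Crossing s t (Zc s t (w j) (x j)) a ∧ w j a = -1
  uniq : ∀ j, j < q → ∀ a a', Crossing s t (Zc s t (w j) (x j)) a → w j a = -1 →
    Crossing s t (Zc s t (w j) (x j)) a' → w j a' = -1 → a = a'
  wsucc : ∀ j, j < q → w (j + 1) = zeroed s t (w j) (Zc s t (w j) (x j))
  csucc : ∀ j, j < q → c (j + 1) = recolor (c j) (Zc s t (w j) (x j))

variable {s t : A → N}

theorem exists_run (q : ℕ) : ∀ (w0 : A → ℤ) (c0 : N → ZMod 2) (neg : Finset A),
    GoodW s t w0 c0 → (∀ a, w0 a < 0 ↔ a ∈ neg) → neg.card = q →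
    Nonempty (CutRun s t w0 c0 q) := by
  classical
  induction q with
  | zero =>
    intro w0 c0 neg hg hneg hcard
    exact ⟨{ w := fun _ => w0, c := fun _ => c0,
             x := fun _ => default,
             w_zero := rfl, c_zero := rfl,
             good := fun j _ => hg,
             ex := fun j hj => absurd hj (Nat.not_lt_zero j),
             uniq := fun j hj => absurd hj (Nat.not_lt_zero j),
             wsucc := fun j hj => absurd hj (Nat.not_lt_zero j),
             csucc := fun j hj => absurd hj (Nat.not_lt_zero j) }⟩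
  | succ q ih =>
    intro w0 c0 neg hg hneg hcard
    have hne : neg.Nonempty := Finset.card_pos.1 (by omega)
    obtain ⟨a0, ha0⟩ := hne
    have hw0 : w0 a0 = -1 := by
      have h1 := (hneg a0).2 ha0
      have h2 := hg.lo a0
      omega
    obtain ⟨x, ⟨a1, hc1, hw1⟩, huniq, hg'⟩ := step hg neg (fun a h => (hneg a).1 h) ⟨a0, hw0⟩
    have hneg' : ∀ a, zeroed s t w0 (Zc s t w0 x) a < 0 ↔ a ∈ neg.erase a1 := by
      intro a
      rw [Finset.mem_erase, ← hneg a]
      unfold zeroed
      constructor
      · intro h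
        split_ifs at h with hc
        · exact absurd h (lt_irrefl 0)
        · refine ⟨?_, h⟩
          rintro rfl
          exact hc hc1
      · rintro ⟨h1, h2⟩
        split_ifs with hc
        · exfalso
          apply h1
          apply huniq a a1 hc _ hc1 hw1
          have := hg.lo a
          omega
        · exact h2
    have hcard' : (neg.erase a1).card = q := by
      rw [Finset.card_erase_of_mem, hcard]
      · rfl
      · rw [← hneg a1]; omega
    obtain ⟨R⟩ := ih _ _ _ hg' hneg' hcard'
    refine ⟨{ w := fun j => Nat.casesOn j w0 R.w,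
              c := fun j => Nat.casesOn j c0 R.c,
              x := fun j => Nat.casesOn j x R.x,
              w_zero := rfl, c_zero := rfl,
              good := ?_, ex := ?_, uniq := ?_, wsucc := ?_, csucc := ?_ }⟩
    · intro j hj
      cases j with
      | zero => exact hg
      | succ j => exact R.good j (by omega)
    · intro j hj
      cases j with
      | zero => exact ⟨a1, hc1, hw1⟩
      | succ j => exact R.ex j (by omega)
    · intro j hj
      cases j with
      | zero => exact huniq
      | succ j => exact R.uniq j (by omega)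
    · intro j hj
      cases j with
      | zero => exact R.w_zero
      | succ j => exact R.wsucc j (by omega)
    · intro j hj
      cases j with
      | zero => exact R.c_zero
      | succ j => exact R.csucc j (by omega)

namespace CutRun

variable {w0 : A → ℤ} {c0 : N → ZMod 2} {q : ℕ} (R : CutRun s t w0 c0 q)

/-- the `j`-th set -/
def B (j : ℕ) : N → Prop := Zc s t (R.w j) (R.x j)

lemma w_succ_of_crossing {j : ℕ} (hj : j < q) {a : A} (h : Crossing s t (R.B j) a) :
    R.w (j + 1) a = 0 := by
  rw [R.wsucc j hj]; unfold zeroed; exact if_pos h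

lemma w_succ_of_not {j : ℕ} (hj : j < q) {a : A} (h : ¬ Crossing s t (R.B j) a) :
    R.w (j + 1) a = R.w j a := by
  rw [R.wsucc j hj]; unfold zeroed; exact if_neg h

lemma w_succ_zero {j : ℕ} (hj : j < q) {a : A} (h : R.w j a = 0) : R.w (j + 1) a = 0 := by
  by_cases hc : Crossing s t (R.B j) a
  · exact R.w_succ_of_crossing hj hc
  · rw [R.w_succ_of_not hj hc, h]

lemma w_zero_mono {i j : ℕ} (hij : i ≤ j) (hj : j ≤ q) {a : A} (h : R.w i a = 0) :
    R.w j a = 0 := by
  induction j, hij using Nat.le_induction with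
  | base => exact h
  | succ j hij ih => exact R.w_succ_zero (by omega) (ih (by omega))

lemma w_eq_of_ne {j : ℕ} (hj : j ≤ q) {a : A} (h : R.w j a ≠ 0) : R.w j a = w0 a := by
  induction j with
  | zero => rw [R.w_zero]
  | succ j ih =>
    by_cases hc : Crossing s t (R.B j) a
    · exact absurd (R.w_succ_of_crossing (by omega) hc) h
    · rw [R.w_succ_of_not (by omega) hc] at h ⊢
      exact ih (by omega) h

lemma ne_of_crossing {j : ℕ} {a : A} (h : Crossing s t (R.B j) a) : R.w j a ≠ 0 :=
  crossing_ne_zero h

lemma disj {i j : ℕ} (hij : i < j) (hj : j < q) {a : A} (hi : Crossing s t (R.B i) a)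
    (hcj : Crossing s t (R.B j) a) : False := by
  have h1 := R.w_succ_of_crossing (by omega : i < q) hi
  have h2 := R.w_zero_mono (by omega : i + 1 ≤ j) (by omega) h1
  exact R.ne_of_crossing hcj h2

lemma cut_inj {i j : ℕ} (hi : i < q) (hj : j < q) {a : A} (hci : Crossing s t (R.B i) a)
    (hcj : Crossing s t (R.B j) a) : i = j := by
  rcases lt_trichotomy i j with h | h | h
  · exact (R.disj h hj hci hcj).elim
  · exact h
  · exact (R.disj h hi hcj hci).elim

lemma zc_mono {i j : ℕ} (hij : i ≤ j) (hj : j ≤ q) {u v : N} (h : Zc s t (R.w i) u v) :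
    Zc s t (R.w j) u v := by
  obtain ⟨Z, hZ, hjn⟩ := h
  exact ⟨Z, fun a ha => R.w_zero_mono hij hj (hZ a ha), hjn⟩

lemma B_closed {j : ℕ} {u v : N} (h : Zc s t (R.w j) u v) (hu : R.B j u) : R.B j v :=
  Zc.trans hu h

lemma laminar {i j : ℕ} (hij : i ≤ j) (hj : j ≤ q) {u : N} (hi : R.B i u) (hju : R.B j u)
    {v : N} (hv : R.B i v) : R.B j v := by
  apply R.B_closed _ hju
  exact R.zc_mono hij hj (Zc.trans (Zc.symm hi) hv)

lemma color {j : ℕ} (hj : j ≤ q) {a : A} (h : R.w j a ≠ 0) :
    R.c j (s a) = c0 (s a) ∧ R.c j (t a) = c0 (t a) := by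
  induction j with
  | zero => rw [R.c_zero]; exact ⟨rfl, rfl⟩
  | succ j ih =>
    have hjq : j < q := by omega
    by_cases hc : Crossing s t (R.B j) a
    · exact absurd (R.w_succ_of_crossing hjq hc) h
    · have hw : R.w j a ≠ 0 := by rwa [R.w_succ_of_not hjq hc] at h
      obtain ⟨h1, h2⟩ := ih (by omega) hw
      have hcol : ∀ n, R.B j n → R.c j (R.x j) = R.c j n := fun n hn =>
        (R.good j (by omega)).zc_color hn
      have hns : ¬ R.B j (s a) := by
        intro hs
        have ht : R.B j (t a) := by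
          by_contra ht; exact hc (Or.inl ⟨hs, ht⟩)
        apply hw
        apply (R.good j (by omega)).zero_of_color
        rw [← hcol _ hs, ← hcol _ ht]
      have hnt : ¬ R.B j (t a) := by
        intro ht
        exact hc (Or.inr ⟨hns, ht⟩)
      rw [R.csucc j hjq]
      unfold recolor
      have hns' : ¬ Zc s t (R.w j) (R.x j) (s a) := hns
      have hnt' : ¬ Zc s t (R.w j) (R.x j) (t a) := hnt
      rw [if_neg hns', if_neg hnt']
      exact ⟨h1, h2⟩

/-- the type (colour) of the `j`-th set -/
def ty (j : ℕ) : ZMod 2 := R.c j (R.x j)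

lemma ty_eq {j : ℕ} (hj : j < q) {a : A} (h : Crossing s t (R.B j) a) :
    (R.B j (s a) → R.ty j = c0 (s a)) ∧ (R.B j (t a) → R.ty j = c0 (t a)) := by
  have hw := R.ne_of_crossing h
  obtain ⟨h1, h2⟩ := R.color (by omega) hw
  constructor
  · intro hs
    rw [← h1]
    exact (R.good j (by omega)).zc_color hs
  · intro ht
    rw [← h2]
    exact (R.good j (by omega)).zc_color ht

lemma exists_cut {i j : ℕ} (hij : i ≤ j) (hj : j ≤ q) {a : A} (hi : R.w i a ≠ 0)
    (h0 : R.w j a = 0) : ∃ k, i ≤ k ∧ k < j ∧ Crossing s t (R.B k) a := by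
  induction j, hij using Nat.le_induction with
  | base => exact absurd h0 hi
  | succ j hij ih =>
    by_cases hc : Crossing s t (R.B j) a
    · exact ⟨j, hij, by omega, hc⟩
    · rw [R.w_succ_of_not (by omega) hc] at h0
      obtain ⟨k, h1, h2, h3⟩ := ih (by omega) h0
      exact ⟨k, h1, by omega, h3⟩

end CutRun

end Run

end Pool.Agent.H44
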