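import Pool.Agent.Helper44.Hex.TJoin

set_option linter.unusedSectionVars false

/-!
The contraction step: in a conservative `{-1,0,1}`-weighting with a parity colouring and at
least one negative edge there is a cluster (class of zero-connectedness) with exactly one negative
edge leaving it, and setting all the edges leaving it to zero keeps the weighting conservative.
-/

namespace Pool.Agent.H44

open Finset

section Step

variable {N A : Type*} [DecidableEq N] [DecidableEq A] (s t : A → N)

/-- total weight of an edge set -/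
def wt (w : A → ℤ) (F : Finset A) : ℤ := ∑ a ∈ F, w a

/-- conservative weighting: every even edge set has nonnegative weight -/
def Cons (w : A → ℤ) : Prop := ∀ x F, IsJoin s t x x F → 0 ≤ wt w F

/-- zero-connectedness -/
def Zc (w : A → ℤ) (x u : N) : Prop :=
  ∃ Z : Finset A, (∀ a ∈ Z, w a = 0) ∧ IsJoin s t x u Z

/-- `a` has exactly one end in `B` -/
def Crossing (B : N → Prop) (a : A) : Prop := (B (s a) ∧ ¬ B (t a)) ∨ (¬ B (s a) ∧ B (t a))

variable {s t}

lemma Zc.refl (w : A → ℤ) (x : N) : Zc s t w x x := ⟨∅, by simp, IsJoin.empty x⟩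

lemma Zc.symm {w : A → ℤ} {x u : N} (h : Zc s t w x u) : Zc s t w u x := by
  obtain ⟨Z, hZ, hj⟩ := h; exact ⟨Z, hZ, hj.symm⟩

lemma Zc.trans {w : A → ℤ} {x u v : N} (h : Zc s t w x u) (h' : Zc s t w u v) :
    Zc s t w x v := by
  obtain ⟨Z, hZ, hj⟩ := h
  obtain ⟨Z', hZ', hj'⟩ := h'
  refine ⟨symmDiff Z Z', ?_, hj.trans hj'⟩
  intro a ha
  rw [Finset.mem_symmDiff] at ha
  rcases ha with ha | ha
  · exact hZ a ha.1
  · exact hZ' a ha.1

lemma Zc.single {w : A → ℤ} {u v : N} {a : A} (h : w a = 0) (ha : IsJoin s t u v {a}) :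
    Zc s t w u v := ⟨{a}, by simpa using h, ha⟩

lemma wt_symmDiff (w : A → ℤ) (F G : Finset A) :
    wt w (symmDiff F G) = wt w F + wt w G - 2 * wt w (F ∩ G) := sum_symmDiff_int _ _ _

lemma wt_symmDiff_zero {w : A → ℤ} {Z : Finset A} (F : Finset A) (hZ : ∀ a ∈ Z, w a = 0) :
    wt w (symmDiff F Z) = wt w F := by
  have h1 : wt w Z = 0 := Finset.sum_eq_zero hZ
  have h2 : wt w (F ∩ Z) = 0 :=
    Finset.sum_eq_zero fun a ha => hZ a (Finset.mem_inter.1 ha).2
  rw [wt_symmDiff, h1, h2]; ring

lemma wt_symmDiff_disj {w : A → ℤ} {F G : Finset A} (h : Disjoint F G) :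
    wt w (symmDiff F G) = wt w F + wt w G := by
  have h2 : F ∩ G = ∅ := Finset.disjoint_iff_inter_eq_empty.1 h
  rw [wt_symmDiff, h2]; simp [wt]

lemma wt_symmDiff_sub {w : A → ℤ} {F G : Finset A} (h : G ⊆ F) :
    wt w (symmDiff F G) = wt w F - wt w G := by
  have h2 : F ∩ G = G := Finset.inter_eq_right.2 h
  rw [wt_symmDiff, h2]; ring

open Classical in
/-- the end in `B` -/
noncomputable def inner (s t : A → N) (B : N → Prop) (a : A) : N := if B (s a) then s a else t a

open Classical in
/-- the end outside `B` -/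
noncomputable def outer (s t : A → N) (B : N → Prop) (a : A) : N := if B (s a) then t a else s a

lemma crossing_join {B : N → Prop} {a : A} :
    IsJoin s t (inner s t B a) (outer s t B a) {a} := by
  unfold inner outer
  by_cases h : B (s a)
  · rw [if_pos h, if_pos h]; exact IsJoin.single a
  · rw [if_neg h, if_neg h]; exact (IsJoin.single a).symm

lemma crossing_inner {B : N → Prop} {a : A} (h : Crossing s t B a) : B (inner s t B a) := by
  unfold inner
  rcases h with h | h
  · rw [if_pos h.1]; exact h.1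
  · rw [if_neg h.1]; exact h.2

lemma crossing_outer {B : N → Prop} {a : A} (h : Crossing s t B a) : ¬ B (outer s t B a) := by
  unfold outer
  rcases h with h | h
  · rw [if_pos h.1]; exact h.2
  · rw [if_neg h.1]; exact h.1

/-- membership of a crossing edge in a minimum join is decided by its sign -/
lemma min_cross {w : A → ℤ} (hlo : ∀ a, -1 ≤ w a) (hhi : ∀ a, w a ≤ 1) {x y : N} {F : Finset A}
    (hF : IsJoin s t x y F)
    (hmin : ∀ x' y' F', IsJoin s t x' y' F' → wt w F ≤ wt w F')
    {a : A} (ha : Crossing s t (Zc s t w x) a) :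
    (a ∈ F → w a = -1) ∧ (a ∉ F → w a = 1) := by
  have hu := crossing_inner ha
  have hv := crossing_outer ha
  have hj : IsJoin s t (inner s t (Zc s t w x) a) (outer s t (Zc s t w x) a) {a} := crossing_join
  have hne : w a ≠ 0 := fun h => hv (hu.trans (Zc.single h hj))
  obtain ⟨Z, hZ, hjZ⟩ := hu
  have haZ : a ∉ Z := fun h => hne (hZ a h)
  have hj2 := (hF.symm.trans hjZ).trans hj
  have hm := hmin _ _ _ hj2
  rw [wt_symmDiff, wt_symmDiff_zero F hZ] at hm
  have hs : wt w ({a} : Finset A) = w a := by simp [wt]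
  rw [hs] at hm
  constructor
  · intro haF
    have h1 : symmDiff F Z ∩ {a} = {a} := by
      rw [Finset.inter_singleton_of_mem]
      rw [Finset.mem_symmDiff]; exact Or.inl ⟨haF, haZ⟩
    rw [h1, hs] at hm
    have := hlo a
    omega
  · intro haF
    have h1 : symmDiff F Z ∩ {a} = ∅ := by
      rw [Finset.inter_singleton_of_notMem]
      rw [Finset.mem_symmDiff]
      rintro (h | h)
      · exact haF h.1
      · exact haZ h.1
    rw [h1] at hm
    simp only [wt, Finset.sum_empty] at hm
    have := hhi a
    omega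

lemma crossing_ne_zero {w : A → ℤ} {x : N} {a : A} (ha : Crossing s t (Zc s t w x) a) :
    w a ≠ 0 := by
  have hu := crossing_inner ha
  have hv := crossing_outer ha
  have hj : IsJoin s t (inner s t (Zc s t w x) a) (outer s t (Zc s t w x) a) {a} := crossing_join
  exact fun h => hv (hu.trans (Zc.single h hj))

/-- key contradiction -/
lemma cc_aux {w : A → ℤ} (hlo : ∀ a, -1 ≤ w a) (hhi : ∀ a, w a ≤ 1) (hc : Cons s t w)
    {x y : N} {F : Finset A} (hF : IsJoin s t x y F)
    (hmin : ∀ x' y' F', IsJoin s t x' y' F' → wt w F ≤ wt w F')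
    {a1 a2 : A} (hne : a1 ≠ a2) (h1 : Crossing s t (Zc s t w x) a1) (w1 : w a1 = -1)
    (h2 : Crossing s t (Zc s t w x) a2) (w2 : w a2 = -1) {H : Finset A} (hHF : H ⊆ F)
    (hH : ∀ b ∈ H, ¬ Zc s t w x (s b) ∧ ¬ Zc s t w x (t b))
    (hj : IsJoin s t (outer s t (Zc s t w x) a1) (outer s t (Zc s t w x) a2) H) : False := by
  have haH : ∀ a, Crossing s t (Zc s t w x) a → a ∉ H := by
    intro a ha haH
    rcases ha with ha | ha
    · exact (hH a haH).1 ha.1
    · exact (hH a haH).2 ha.2
  have ha1F : a1 ∈ F := by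
    by_contra h
    have := (min_cross hlo hhi hF hmin h1).2 h
    omega
  have ha2F : a2 ∈ F := by
    by_contra h
    have := (min_cross hlo hhi hF hmin h2).2 h
    omega
  have hi : Zc s t w (inner s t (Zc s t w x) a2) (inner s t (Zc s t w x) a1) :=
    (crossing_inner h2).symm.trans (crossing_inner h1)
  obtain ⟨Z, hZ, hjZ⟩ := hi
  have ha1Z : a1 ∉ Z := fun h => by have := hZ a1 h; omega
  -- D = {a1} ∆ H ∆ {a2}
  have hjD : IsJoin s t (inner s t (Zc s t w x) a1) (inner s t (Zc s t w x) a2)
      (symmDiff (symmDiff {a1} H) {a2}) :=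
    (crossing_join.trans hj).trans crossing_join.symm
  have hdis1 : Disjoint ({a1} : Finset A) H := by
    rw [Finset.disjoint_singleton_left]; exact haH a1 h1
  have hdis2 : Disjoint (symmDiff ({a1} : Finset A) H) {a2} := by
    rw [Finset.disjoint_singleton_right, Finset.mem_symmDiff]
    rintro (h | h)
    · exact hne (Finset.mem_singleton.1 h.1).symm
    · exact haH a2 h2 h.1
  have hwD : wt w (symmDiff (symmDiff ({a1} : Finset A) H) {a2}) = wt w H - 2 := by
    rw [wt_symmDiff_disj hdis2, wt_symmDiff_disj hdis1]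
    simp only [wt, Finset.sum_singleton, w1, w2]; ring
  have hcons := hc _ _ (hjD.trans hjZ)
  rw [wt_symmDiff_zero _ hZ, hwD] at hcons
  have hDF : symmDiff (symmDiff ({a1} : Finset A) H) {a2} ⊆ F := by
    intro b hb
    rw [Finset.mem_symmDiff, Finset.mem_symmDiff] at hb
    rcases hb with ⟨hb | hb, _⟩ | hb
    · rw [Finset.mem_singleton.1 hb.1]; exact ha1F
    · exact hHF hb.1
    · rw [Finset.mem_singleton.1 hb.1]; exact ha2F
  have hjF : IsJoin s t x y (symmDiff F (symmDiff (symmDiff (symmDiff {a1} H) {a2}) Z)) :=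
    hF.add_even (hjD.trans hjZ)
  have hwF : wt w (symmDiff F (symmDiff (symmDiff (symmDiff {a1} H) {a2}) Z)) ≤ wt w F := by
    rw [← symmDiff_assoc, wt_symmDiff_zero _ hZ, wt_symmDiff_sub hDF, hwD]
    omega
  have hmin' : ∀ x' y' F', IsJoin s t x' y' F' →
      wt w (symmDiff F (symmDiff (symmDiff (symmDiff {a1} H) {a2}) Z)) ≤ wt w F' :=
    fun x' y' F' h => le_trans hwF (hmin x' y' F' h)
  have hnot : a1 ∉ symmDiff F (symmDiff (symmDiff (symmDiff {a1} H) {a2}) Z) := by
    rw [← symmDiff_assoc, Finset.mem_symmDiff]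
    rintro (h | h)
    · rw [Finset.mem_symmDiff] at h
      rcases h.1 with h' | h'
      · apply h'.2
        rw [Finset.mem_symmDiff]
        left
        refine ⟨?_, by simpa using hne⟩
        rw [Finset.mem_symmDiff]
        left
        exact ⟨by simp, haH a1 h1⟩
      · exact h'.2 ha1F
    · exact ha1Z h.1
  have := (min_cross hlo hhi hjF hmin' h1).2 hnot
  omega

/-- the boundary parity of the part of `F` outside `B` -/
lemma bd_out (B : N → Prop) [DecidablePred B] [DecidablePred (Crossing s t B)] (F : Finset A) (n : N) (hn : ¬ B n) :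
    bd s t (F.filter fun a => ¬ B (s a) ∧ ¬ B (t a)) n = bd s t F n +
      ∑ a ∈ F.filter (fun a => Crossing s t B a), (if outer s t B a = n then 1 else 0) := by
  classical
  unfold bd
  rw [Finset.sum_filter, Finset.sum_filter, ← Finset.sum_add_distrib]
  refine Finset.sum_congr rfl fun a _ => ?_
  by_cases h1 : B (s a)
  · have e1 : ¬ s a = n := fun h => hn (h ▸ h1)
    by_cases h2 : B (t a)
    · have e2 : ¬ t a = n := fun h => hn (h ▸ h2)
      have h3 : ¬ Crossing s t B a := by unfold Crossing; tauto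
      simp [h1, e1, e2, h3]
    · have h3 : Crossing s t B a := by unfold Crossing; tauto
      have h4 : outer s t B a = t a := by unfold outer; rw [if_pos h1]
      rw [if_neg (by tauto), if_pos h3, h4, if_neg e1, zero_add]
      exact (CharTwo.add_self_eq_zero _).symm
  · by_cases h2 : B (t a)
    · have e2 : ¬ t a = n := fun h => hn (h ▸ h2)
      have h3 : Crossing s t B a := by unfold Crossing; tauto
      have h4 : outer s t B a = s a := by unfold outer; rw [if_neg h1]
      rw [if_neg (by tauto), if_pos h3, h4, if_neg e2, add_zero]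
      exact (CharTwo.add_self_eq_zero _).symm
    · have h3 : ¬ Crossing s t B a := by unfold Crossing; tauto
      rw [if_pos ⟨h1, h2⟩, if_neg h3, add_zero]

lemma bd_out_in (B : N → Prop) [DecidablePred B] (F : Finset A) (n : N) (hn : B n) :
    bd s t (F.filter fun a => ¬ B (s a) ∧ ¬ B (t a)) n = 0 := by
  unfold bd
  apply Finset.sum_eq_zero
  intro a ha
  have h := (Finset.mem_filter.1 ha).2
  have e1 : ¬ s a = n := fun h' => h.1 (h' ▸ hn)
  have e2 : ¬ t a = n := fun h' => h.2 (h' ▸ hn)
  simp [e1, e2]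

/-- at most one negative edge leaves the cluster of an end of a minimum join -/
lemma neg_unique {w : A → ℤ} (hlo : ∀ a, -1 ≤ w a) (hhi : ∀ a, w a ≤ 1) (hc : Cons s t w)
    {x y : N} {F : Finset A} (hF : IsJoin s t x y F)
    (hmin : ∀ x' y' F', IsJoin s t x' y' F' → wt w F ≤ wt w F') (hW : wt w F < 0)
    {a1 a2 : A} (h1 : Crossing s t (Zc s t w x) a1) (w1 : w a1 = -1)
    (h2 : Crossing s t (Zc s t w x) a2) (w2 : w a2 = -1) : a1 = a2 := by
  classical
  by_contra hne
  set B : N → Prop := Zc s t w x with hB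
  have hy : ¬ B y := by
    rintro ⟨Z, hZ, hjZ⟩
    have := hc _ _ (hF.trans hjZ.symm)
    rw [wt_symmDiff_zero _ hZ] at this
    omega
  have hx : B x := Zc.refl w x
  set NB := F.filter (fun a => Crossing s t B a) with hNB
  have hNBw : ∀ a ∈ NB, w a = -1 ∧ Crossing s t B a := by
    intro a ha
    rw [hNB, Finset.mem_filter] at ha
    exact ⟨(min_cross hlo hhi hF hmin ha.2).1 ha.1, ha.2⟩
  have hmemF : ∀ a, Crossing s t B a → w a = -1 → a ∈ F := by
    intro a ha hw
    by_contra h
    have := (min_cross hlo hhi hF hmin ha).2 h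
    omega
  have m1 : a1 ∈ NB := Finset.mem_filter.2 ⟨hmemF a1 h1 w1, h1⟩
  have m2 : a2 ∈ NB := Finset.mem_filter.2 ⟨hmemF a2 h2 w2, h2⟩
  set H := F.filter (fun a => ¬ B (s a) ∧ ¬ B (t a)) with hH
  have hHF : H ⊆ F := Finset.filter_subset _ _
  have hHout : ∀ b ∈ H, ¬ B (s b) ∧ ¬ B (t b) := fun b hb => (Finset.mem_filter.1 hb).2
  have key : ∀ a a', a ∈ NB → a' ∈ NB → a ≠ a' → ∀ H' ⊆ H,
      IsJoin s t (outer s t B a) (outer s t B a') H' → False := by
    intro a a' ha ha' hne' H' hH' hj
    exact cc_aux hlo hhi hc hF hmin hne' (hNBw a ha).2 (hNBw a ha).1 (hNBw a' ha').2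
      (hNBw a' ha').1 (hH'.trans hHF) (fun b hb => hHout b (hH' hb)) hj
  have hinj : ∀ a ∈ NB, ∀ a' ∈ NB, outer s t B a = outer s t B a' → a = a' := by
    intro a ha a' ha' he
    by_contra hne'
    apply key a a' ha ha' hne' ∅ (Finset.empty_subset _)
    rw [he]; exact IsJoin.empty _
  have hbdH : ∀ n, ¬ B n → bd s t H n =
      (if y = n then 1 else 0) + (if n ∈ NB.image (outer s t B) then 1 else 0) := by
    intro n hn
    rw [hH, bd_out B F n hn, hF n]
    have hxn : ¬ x = n := fun h => hn (h ▸ hx)
    rw [if_neg hxn, zero_add]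
    congr 1
    by_cases hn' : n ∈ NB.image (outer s t B)
    · rw [if_pos hn']
      obtain ⟨a, ha, hae⟩ := Finset.mem_image.1 hn'
      rw [Finset.sum_eq_single a]
      · rw [if_pos hae]
      · intro b hb hba
        rw [if_neg]
        intro hbe
        exact hba (hinj b hb a ha (hbe.trans hae.symm))
      · intro h; exact absurd ha h
    · rw [if_neg hn']
      apply Finset.sum_eq_zero
      intro b hb
      rw [if_neg]
      intro hbe
      exact hn' (Finset.mem_image.2 ⟨b, hb, hbe⟩)
  -- choose a ∈ NB with outer a ≠ y, and another a'' ≠ a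
  have hch : ∃ a a'', a ∈ NB ∧ a'' ∈ NB ∧ a ≠ a'' ∧ outer s t B a ≠ y := by
    by_cases h : outer s t B a1 = y
    · refine ⟨a2, a1, m2, m1, fun h => hne h.symm, ?_⟩
      intro h'
      exact hne (hinj a1 m1 a2 m2 (h.trans h'.symm))
    · exact ⟨a1, a2, m1, m2, hne, h⟩
  obtain ⟨a, a'', ha, ha'', haa, hay⟩ := hch
  have hpB : ¬ B (outer s t B a) := crossing_outer (hNBw a ha).2
  have hqB : ¬ B (outer s t B a'') := crossing_outer (hNBw a'' ha'').2
  have hp : bd s t H (outer s t B a) = 1 := by
    rw [hbdH _ hpB, if_neg (fun h => hay h.symm),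
      if_pos (Finset.mem_image.2 ⟨a, ha, rfl⟩), zero_add]
  obtain ⟨p', hp'ne, hp'1, H1, hH1, hj1⟩ := exists_join_sub H _ hp
  have hp'B : ¬ B p' := by
    intro h
    rw [hH, bd_out_in B F p' h] at hp'1
    exact zero_ne_one hp'1
  by_cases hp'O : p' ∈ NB.image (outer s t B)
  · obtain ⟨a', ha', hae'⟩ := Finset.mem_image.1 hp'O
    apply key a a' ha ha' _ H1 hH1
    · rw [hae']; exact hj1
    · rintro rfl; exact hp'ne hae'.symm
  · have hyp : y = p' := by
      by_contra h
      rw [hbdH p' hp'B, if_neg h, if_neg hp'O] at hp'1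
      exact absurd hp'1 (by decide)
    subst hyp
    have hbdH2 : ∀ n, bd s t (symmDiff H H1) n = bd s t H n +
        ((if outer s t B a = n then 1 else 0) + (if y = n then 1 else 0)) := by
      intro n; rw [bd_symmDiff, hj1 n]
    have hqy : outer s t B a'' ≠ y := by
      intro h; exact hp'O (Finset.mem_image.2 ⟨a'', ha'', h⟩)
    have hqp : outer s t B a'' ≠ outer s t B a := by
      intro h; exact haa (hinj a'' ha'' a ha h).symm
    have hq : bd s t (symmDiff H H1) (outer s t B a'') = 1 := by
      rw [hbdH2, hbdH _ hqB, if_neg (fun h => hqy h.symm),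
        if_pos (Finset.mem_image.2 ⟨a'', ha'', rfl⟩), if_neg (fun h => hqp h.symm)]
      decide
    obtain ⟨q', hq'ne, hq'1, H3, hH3, hj3⟩ := exists_join_sub _ _ hq
    rw [hbdH2] at hq'1
    have hq'B : ¬ B q' := by
      intro h
      have e1 : ¬ outer s t B a = q' := fun h' => hpB (h' ▸ h)
      have e2 : ¬ y = q' := fun h' => hy (h' ▸ h)
      rw [hH, bd_out_in B F q' h, if_neg e1, if_neg e2] at hq'1
      exact absurd hq'1 (by decide)
    rw [hbdH q' hq'B] at hq'1
    have hq'p : ¬ outer s t B a = q' := by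
      intro h
      have e1 : q' ∈ NB.image (outer s t B) := Finset.mem_image.2 ⟨a, ha, h⟩
      rw [if_pos h, if_pos e1] at hq'1
      by_cases h2 : y = q'
      · rw [if_pos h2] at hq'1; exact absurd hq'1 (by decide)
      · rw [if_neg h2] at hq'1; exact absurd hq'1 (by decide)
    have hq'O : q' ∈ NB.image (outer s t B) := by
      by_contra h
      rw [if_neg hq'p, if_neg h] at hq'1
      by_cases h2 : y = q'
      · rw [if_pos h2] at hq'1; exact absurd hq'1 (by decide)
      · rw [if_neg h2] at hq'1; exact absurd hq'1 (by decide)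
    obtain ⟨a', ha', hae'⟩ := Finset.mem_image.1 hq'O
    have hsub : symmDiff H H1 ⊆ H := by
      intro b hb
      rw [Finset.mem_symmDiff] at hb
      rcases hb with hb | hb
      · exact hb.1
      · exact absurd (hH1 hb.1) hb.2
    apply key a'' a' ha'' ha' _ H3 (hH3.trans hsub)
    · rw [hae']; exact hj3
    · rintro rfl; exact hq'ne hae'.symm

/-- weightings with values in `{-1,0,1}`, a parity colouring, conservative, finitely many negative
edges -/
structure GoodW (s t : A → N) (w : A → ℤ) (c : N → ZMod 2) : Prop where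
  lo : ∀ a, -1 ≤ w a
  hi : ∀ a, w a ≤ 1
  par : ∀ a, ((w a : ℤ) : ZMod 2) = c (s a) + c (t a)
  cons : Cons s t w

lemma zmod_two_cases (z : ZMod 2) : z = 0 ∨ z = 1 := by revert z; decide

lemma join_color (c : N → ZMod 2) {F : Finset A} {x y : N} (h : IsJoin s t x y F) :
    ∑ a ∈ F, (c (s a) + c (t a)) = c x + c y := by
  classical
  have h1 : ∀ n, c n = if c n = 1 then 1 else 0 := by
    intro n
    rcases zmod_two_cases (c n) with h | h
    · rw [h]; rfl
    · rw [h]; rfl
  have h2 := cr_join (fun n => c n = 1) h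
  unfold cr at h2
  rw [h1 x, h1 y, ← h2]
  refine Finset.sum_congr rfl fun a _ => ?_
  rw [h1 (s a), h1 (t a)]

lemma GoodW.join_parity {w : A → ℤ} {c : N → ZMod 2} (hg : GoodW s t w c) {F : Finset A} {x y : N}
    (h : IsJoin s t x y F) : ((wt w F : ℤ) : ZMod 2) = c x + c y := by
  rw [← join_color c h]
  unfold wt
  rw [Int.cast_sum]
  exact Finset.sum_congr rfl fun a _ => hg.par a

lemma GoodW.zc_color {w : A → ℤ} {c : N → ZMod 2} (hg : GoodW s t w c) {x u : N}
    (h : Zc s t w x u) : c x = c u := by
  obtain ⟨Z, hZ, hj⟩ := h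
  have h1 := hg.join_parity hj
  have h2 : wt w Z = 0 := Finset.sum_eq_zero hZ
  rw [h2] at h1
  have h3 : c x + c u = 0 := by rw [← h1]; simp
  rcases zmod_two_cases (c x) with h | h <;> rcases zmod_two_cases (c u) with h' | h' <;>
    rw [h, h'] at h3 ⊢ <;> revert h3 <;> decide

lemma GoodW.zero_of_color {w : A → ℤ} {c : N → ZMod 2} (hg : GoodW s t w c) {a : A}
    (h : c (s a) = c (t a)) : w a = 0 := by
  have h1 := hg.par a
  rw [h, CharTwo.add_self_eq_zero] at h1
  have h2 := hg.lo a
  have h3 := hg.hi a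
  have h4 : (2 : ℤ) ∣ w a := by
    have := (ZMod.intCast_zmod_eq_zero_iff_dvd (w a) 2).1 h1
    exact_mod_cast this
  omega

lemma GoodW.color_of_ne {w : A → ℤ} {c : N → ZMod 2} (hg : GoodW s t w c) {a : A}
    (h : w a ≠ 0) : c (s a) ≠ c (t a) := fun h' => h (hg.zero_of_color h')

/-- sign flip along an even set of weight zero -/
lemma wt_flip {w : A → ℤ} (C : Finset A) (hC : wt w C = 0) (F : Finset A) :
    wt (fun e => if e ∈ C then - w e else w e) F = wt w (symmDiff F C) := by
  rw [wt_symmDiff, hC]
  unfold wt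
  have h1 : ∑ a ∈ F, (if a ∈ C then - w a else w a) =
      ∑ a ∈ F, (w a - 2 * (if a ∈ C then w a else 0)) := by
    refine Finset.sum_congr rfl fun a _ => ?_
    split_ifs <;> ring
  rw [h1, Finset.sum_sub_distrib, ← Finset.mul_sum, Finset.sum_ite_mem]
  ring

lemma zc_congr {w w' : A → ℤ} (h : ∀ a, w a = 0 ↔ w' a = 0) (x u : N) :
    Zc s t w x u ↔ Zc s t w' x u := by
  constructor
  · rintro ⟨Z, hZ, hj⟩; exact ⟨Z, fun a ha => (h a).1 (hZ a ha), hj⟩
  · rintro ⟨Z, hZ, hj⟩; exact ⟨Z, fun a ha => (h a).2 (hZ a ha), hj⟩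

lemma crossing_congr {B B' : N → Prop} (h : ∀ n, B n ↔ B' n) (a : A) :
    Crossing s t B a ↔ Crossing s t B' a := by
  unfold Crossing; rw [h, h]

/-- joins outside the cluster between outer ends of two different leaving edges are nonnegative -/
lemma pair_nonneg {w : A → ℤ} {c : N → ZMod 2} (hg : GoodW s t w c)
    {x y : N} {F : Finset A} (hF : IsJoin s t x y F)
    (hmin : ∀ x' y' F', IsJoin s t x' y' F' → wt w F ≤ wt w F') (hW : wt w F < 0)
    {a1 a2 : A} (hne : a1 ≠ a2) (h1 : Crossing s t (Zc s t w x) a1)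
    (h2 : Crossing s t (Zc s t w x) a2) {H : Finset A}
    (hH : ∀ b ∈ H, ¬ Zc s t w x (s b) ∧ ¬ Zc s t w x (t b))
    (hj : IsJoin s t (outer s t (Zc s t w x) a1) (outer s t (Zc s t w x) a2) H) :
    0 ≤ wt w H := by
  have haH : ∀ a, Crossing s t (Zc s t w x) a → a ∉ H := by
    intro a ha haH
    rcases ha with ha | ha
    · exact (hH a haH).1 ha.1
    · exact (hH a haH).2 ha.2
  have hi : Zc s t w (inner s t (Zc s t w x) a2) (inner s t (Zc s t w x) a1) :=
    (crossing_inner h2).symm.trans (crossing_inner h1)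
  obtain ⟨Z, hZ, hjZ⟩ := hi
  have n1 : w a1 ≠ 0 := crossing_ne_zero h1
  have n2 : w a2 ≠ 0 := crossing_ne_zero h2
  have ha1Z : a1 ∉ Z := fun h => n1 (hZ a1 h)
  have ha2Z : a2 ∉ Z := fun h => n2 (hZ a2 h)
  have hjD : IsJoin s t (inner s t (Zc s t w x) a1) (inner s t (Zc s t w x) a2)
      (symmDiff (symmDiff {a1} H) {a2}) :=
    (crossing_join.trans hj).trans crossing_join.symm
  have hdis1 : Disjoint ({a1} : Finset A) H := by
    rw [Finset.disjoint_singleton_left]; exact haH a1 h1
  have hdis2 : Disjoint (symmDiff ({a1} : Finset A) H) {a2} := by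
    rw [Finset.disjoint_singleton_right, Finset.mem_symmDiff]
    rintro (h | h)
    · exact hne (Finset.mem_singleton.1 h.1).symm
    · exact haH a2 h2 h.1
  have hwD : wt w (symmDiff (symmDiff ({a1} : Finset A) H) {a2}) = w a1 + wt w H + w a2 := by
    rw [wt_symmDiff_disj hdis2, wt_symmDiff_disj hdis1]
    simp only [wt, Finset.sum_singleton]
  set C := symmDiff (symmDiff (symmDiff ({a1} : Finset A) H) {a2}) Z with hCdef
  have hjC : IsJoin s t (inner s t (Zc s t w x) a1) (inner s t (Zc s t w x) a1) C :=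
    hjD.trans hjZ
  have hwC : wt w C = w a1 + wt w H + w a2 := by
    rw [hCdef, wt_symmDiff_zero _ hZ, hwD]
  have hcons := hg.cons _ _ hjC
  rw [hwC] at hcons
  have l1 := hg.lo a1
  have l2 := hg.lo a2
  have u1 := hg.hi a1
  have u2 := hg.hi a2
  by_cases e1 : w a1 = -1
  · have e2 : w a2 ≠ -1 := fun e2 =>
      hne (neg_unique hg.lo hg.hi hg.cons hF hmin hW h1 e1 h2 e2)
    omega
  by_cases e2 : w a2 = -1
  · omega
  have f1 : w a1 = 1 := by omega
  have f2 : w a2 = 1 := by omega
  -- parity
  have hc1 : c (outer s t (Zc s t w x) a1) = c x + 1 := by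
    have := hg.join_parity (crossing_join (s := s) (t := t) (B := Zc s t w x) (a := a1))
    rw [← hg.zc_color (crossing_inner h1)] at this
    have h3 : wt w ({a1} : Finset A) = 1 := by simp [wt, f1]
    rw [h3] at this
    have h4 : c x + c x = 0 := CharTwo.add_self_eq_zero _
    push_cast at this
    linear_combination -this - h4
  have hc2 : c (outer s t (Zc s t w x) a2) = c x + 1 := by
    have := hg.join_parity (crossing_join (s := s) (t := t) (B := Zc s t w x) (a := a2))
    rw [← hg.zc_color (crossing_inner h2)] at this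
    have h3 : wt w ({a2} : Finset A) = 1 := by simp [wt, f2]
    rw [h3] at this
    have h4 : c x + c x = 0 := CharTwo.add_self_eq_zero _
    push_cast at this
    linear_combination -this - h4
  have hpar := hg.join_parity hj
  rw [hc1, hc2, CharTwo.add_self_eq_zero] at hpar
  have hev : (2 : ℤ) ∣ wt w H := by
    have := (ZMod.intCast_zmod_eq_zero_iff_dvd (wt w H) 2).1 hpar
    exact_mod_cast this
  by_contra hneg
  have hwH : wt w H = -2 := by omega
  have hwC0 : wt w C = 0 := by rw [hwC]; omega
  -- flip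
  set w2 : A → ℤ := fun e => if e ∈ C then - w e else w e with hw2
  have hz : ∀ a, w a = 0 ↔ w2 a = 0 := by
    intro a; simp only [hw2]; split_ifs <;> constructor <;> intro h <;> omega
  have hlo2 : ∀ a, -1 ≤ w2 a := by
    intro a; simp only [hw2]; have := hg.lo a; have := hg.hi a; split_ifs <;> omega
  have hhi2 : ∀ a, w2 a ≤ 1 := by
    intro a; simp only [hw2]; have := hg.lo a; have := hg.hi a; split_ifs <;> omega
  have hfl : ∀ G, wt w2 G = wt w (symmDiff G C) := fun G => wt_flip C hwC0 G
  have hcons2 : Cons s t w2 := by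
    intro z G hG
    rw [hfl]
    exact hg.cons z _ (hG.add_even hjC)
  have hF2 : IsJoin s t x y (symmDiff F C) := hF.add_even hjC
  have hwF2 : wt w2 (symmDiff F C) = wt w F := by
    rw [hfl, symmDiff_symmDiff_cancel_right]
  have hmin2 : ∀ x' y' F', IsJoin s t x' y' F' → wt w2 (symmDiff F C) ≤ wt w2 F' := by
    intro x' y' F' hF'
    rw [hwF2, hfl]
    exact hmin _ _ _ (hF'.add_even hjC)
  have hBeq : ∀ n, Zc s t w x n ↔ Zc s t w2 x n := fun n => zc_congr hz x n
  have g1 : Crossing s t (Zc s t w2 x) a1 := (crossing_congr hBeq a1).1 h1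
  have g2 : Crossing s t (Zc s t w2 x) a2 := (crossing_congr hBeq a2).1 h2
  have ma1 : a1 ∈ C := by
    rw [hCdef, Finset.mem_symmDiff]
    left
    refine ⟨?_, ha1Z⟩
    rw [Finset.mem_symmDiff]
    left
    refine ⟨?_, by simpa using hne⟩
    rw [Finset.mem_symmDiff]
    left
    exact ⟨by simp, haH a1 h1⟩
  have ma2 : a2 ∈ C := by
    rw [hCdef, Finset.mem_symmDiff]
    left
    refine ⟨?_, ha2Z⟩
    rw [Finset.mem_symmDiff]
    right
    refine ⟨by simp, ?_⟩
    rw [Finset.mem_symmDiff]
    rintro (h | h)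
    · exact hne (Finset.mem_singleton.1 h.1).symm
    · exact haH a2 h2 h.1
  have v1 : w2 a1 = -1 := by simp only [hw2]; rw [if_pos ma1, f1]
  have v2 : w2 a2 = -1 := by simp only [hw2]; rw [if_pos ma2, f2]
  exact hne (neg_unique hlo2 hhi2 hcons2 hF2 hmin2 (by rw [hwF2]; exact hW) g1 v1 g2 v2)

/-- edge sets outside the cluster whose odd nodes are outer ends of leaving edges -/
lemma outside_nonneg {w : A → ℤ} {c : N → ZMod 2} (hg : GoodW s t w c)
    {x y : N} {F : Finset A} (hF : IsJoin s t x y F)
    (hmin : ∀ x' y' F', IsJoin s t x' y' F' → wt w F ≤ wt w F') (hW : wt w F < 0) :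
    ∀ (k : ℕ) (H : Finset A), H.card ≤ k →
      (∀ b ∈ H, ¬ Zc s t w x (s b) ∧ ¬ Zc s t w x (t b)) →
      (∀ n, bd s t H n = 1 →
        ∃ a, Crossing s t (Zc s t w x) a ∧ outer s t (Zc s t w x) a = n) →
      0 ≤ wt w H := by
  intro k
  induction k with
  | zero =>
    intro H hk _ _
    have : H = ∅ := Finset.card_eq_zero.1 (Nat.le_zero.1 hk)
    rw [this]; simp [wt]
  | succ k ih =>
    intro H hk hout hodd
    by_cases hall : ∀ n, bd s t H n ≠ 1
    · have hj : IsJoin s t x x H := by
        intro n
        rw [zmod_two_ne_one (hall n)]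
        exact (CharTwo.add_self_eq_zero _).symm
      exact hg.cons x H hj
    · push Not at hall
      obtain ⟨p, hp⟩ := hall
      obtain ⟨p', hne, hp', H1, hH1, hj1⟩ := exists_join_sub H p hp
      obtain ⟨a1, hc1, ho1⟩ := hodd p hp
      obtain ⟨a2, hc2, ho2⟩ := hodd p' hp'
      have ha12 : a1 ≠ a2 := by rintro rfl; exact hne (ho2.symm.trans ho1)
      have hw1 : 0 ≤ wt w H1 := by
        apply pair_nonneg hg hF hmin hW ha12 hc1 hc2 (fun b hb => hout b (hH1 hb))
        rw [ho1, ho2]; exact hj1
      have hne1 : H1.Nonempty := by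
        rw [Finset.nonempty_iff_ne_empty]
        rintro rfl
        have := hj1 p
        simp only [bd, Finset.sum_empty, if_true, if_neg hne] at this
        exact absurd this (by decide)
      have hsd : symmDiff H H1 = H \ H1 := by
        rw [symmDiff_def, Finset.sup_eq_union]
        rw [Finset.sdiff_eq_empty_iff_subset.2 hH1, Finset.union_empty]
      have hcard : (symmDiff H H1).card ≤ k := by
        rw [hsd, Finset.card_sdiff_of_subset hH1]
        have := Finset.card_pos.2 hne1
        omega
      have hw2 : 0 ≤ wt w (symmDiff H H1) := by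
        apply ih _ hcard
        · intro b hb
          rw [hsd] at hb
          exact hout b (Finset.mem_sdiff.1 hb).1
        · intro n hn
          apply hodd
          rw [bd_symmDiff, hj1 n] at hn
          by_cases e1 : p = n
          · rw [← e1]; exact hp
          · by_cases e2 : p' = n
            · rw [← e2]; exact hp'
            · rw [if_neg e1, if_neg e2, add_zero, add_zero] at hn; exact hn
      rw [wt_symmDiff_sub hH1] at hw2
      omega

open Classical in
/-- the new weighting: leaving edges of `B` get weight zero -/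
noncomputable def zeroed (s t : A → N) (w : A → ℤ) (B : N → Prop) : A → ℤ :=
  fun a => if Crossing s t B a then 0 else w a

open Classical in
/-- the new parity colouring -/
noncomputable def recolor (c : N → ZMod 2) (B : N → Prop) : N → ZMod 2 :=
  fun n => if B n then c n + 1 else c n

/-- the contraction step -/
theorem step {w : A → ℤ} {c : N → ZMod 2} (hg : GoodW s t w c) (neg : Finset A)
    (hneg : ∀ a, w a < 0 → a ∈ neg) (hex : ∃ a, w a = -1) :
    ∃ x : N, (∃ a, Crossing s t (Zc s t w x) a ∧ w a = -1) ∧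
      (∀ a a', Crossing s t (Zc s t w x) a → w a = -1 → Crossing s t (Zc s t w x) a' →
        w a' = -1 → a = a') ∧
      GoodW s t (zeroed s t w (Zc s t w x)) (recolor c (Zc s t w x)) := by
  classical
  -- the global minimum
  obtain ⟨W, ⟨x, y, F, hF, hWF⟩, hminW⟩ := Int.exists_least_of_bdd
    (P := fun m => ∃ x y F, IsJoin s t x y F ∧ wt w F = m) (by
      refine ⟨-(neg.card : ℤ), ?_⟩
      rintro m ⟨x, y, F, _, rfl⟩
      have h1 : ∑ a ∈ F, (if a ∈ neg then (-1 : ℤ) else 0) ≤ wt w F := by
        unfold wt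
        apply Finset.sum_le_sum
        intro a _
        split_ifs with h
        · exact hg.lo a
        · by_contra hlt
          exact h (hneg a (by omega))
      have h2 : ∑ a ∈ F, (if a ∈ neg then (-1 : ℤ) else 0) = -((F ∩ neg).card : ℤ) := by
        rw [Finset.sum_ite_mem, Finset.sum_const]; simp
      have h3 : (F ∩ neg).card ≤ neg.card := Finset.card_le_card Finset.inter_subset_right
      rw [h2] at h1
      omega) (by
      obtain ⟨a, ha⟩ := hex
      exact ⟨_, s a, t a, {a}, IsJoin.single a, rfl⟩)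
  have hmin : ∀ x' y' F', IsJoin s t x' y' F' → wt w F ≤ wt w F' := by
    intro x' y' F' h
    rw [hWF]
    exact hminW _ ⟨x', y', F', h, rfl⟩
  have hW : wt w F < 0 := by
    obtain ⟨a, ha⟩ := hex
    have := hmin _ _ _ (IsJoin.single a)
    simp only [wt, Finset.sum_singleton] at this
    unfold wt
    omega
  have huniq : ∀ a a', Crossing s t (Zc s t w x) a → w a = -1 →
      Crossing s t (Zc s t w x) a' → w a' = -1 → a = a' :=
    fun a a' h1 e1 h2 e2 => neg_unique hg.lo hg.hi hg.cons hF hmin hW h1 e1 h2 e2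
  have hx : Zc s t w x x := Zc.refl w x
  have hy : ¬ Zc s t w x y := by
    rintro ⟨Z, hZ, hjZ⟩
    have := hg.cons _ _ (hF.trans hjZ.symm)
    rw [wt_symmDiff_zero _ hZ] at this
    omega
  refine ⟨x, ?_, huniq, ?_⟩
  · -- existence of a negative leaving edge
    have h1 := cr_join (Zc s t w x) hF
    rw [if_pos hx, if_neg hy, add_zero] at h1
    have h2 : ∃ a ∈ F, Crossing s t (Zc s t w x) a := by
      by_contra hcon
      push Not at hcon
      have h3 : cr s t (Zc s t w x) F = 0 := by
        unfold cr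
        apply Finset.sum_eq_zero
        intro a ha
        have h4 := hcon a ha
        unfold Crossing at h4
        by_cases e1 : Zc s t w x (s a)
        · have e2 : Zc s t w x (t a) := by by_contra e2; exact h4 (Or.inl ⟨e1, e2⟩)
          rw [if_pos e1, if_pos e2]; decide
        · have e2 : ¬ Zc s t w x (t a) := by intro e2; exact h4 (Or.inr ⟨e1, e2⟩)
          rw [if_neg e1, if_neg e2]; decide
      rw [h3] at h1
      exact zero_ne_one h1
    obtain ⟨a, haF, hca⟩ := h2
    exact ⟨a, hca, (min_cross hg.lo hg.hi hF hmin hca).1 haF⟩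
  · constructor
    · intro a
      unfold zeroed
      split_ifs
      · norm_num
      · exact hg.lo a
    · intro a
      unfold zeroed
      split_ifs
      · norm_num
      · exact hg.hi a
    · intro a
      unfold zeroed recolor
      by_cases hca : Crossing s t (Zc s t w x) a
      · have hne := crossing_ne_zero hca
        have hodd : ((w a : ℤ) : ZMod 2) = 1 := by
          have h1 := hg.lo a
          have h2 := hg.hi a
          have h3 : w a = 1 ∨ w a = -1 := by omega
          rcases h3 with h3 | h3 <;> rw [h3] <;> decide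
        have hp := hg.par a
        rw [hodd] at hp
        rw [if_pos hca]
        have h11 : (1 : ZMod 2) + 1 = 0 := by decide
        rcases hca with h | h
        · rw [if_pos h.1, if_neg h.2]
          push_cast
          linear_combination hp - h11
        · rw [if_neg h.1, if_pos h.2]
          push_cast
          linear_combination hp - h11
      · rw [if_neg hca, hg.par a]
        have h11 : (1 : ZMod 2) + 1 = 0 := by decide
        unfold Crossing at hca
        by_cases e1 : Zc s t w x (s a)
        · have e2 : Zc s t w x (t a) := by by_contra e2; exact hca (Or.inl ⟨e1, e2⟩)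
          rw [if_pos e1, if_pos e2]
          linear_combination -h11
        · have e2 : ¬ Zc s t w x (t a) := by intro e2; exact hca (Or.inr ⟨e1, e2⟩)
          rw [if_neg e1, if_neg e2]
    · intro z C hC
      have h1 : wt (zeroed s t w (Zc s t w x)) C =
          wt w (C.filter fun a => ¬ Zc s t w x (s a) ∧ ¬ Zc s t w x (t a)) := by
        unfold wt
        rw [Finset.sum_filter]
        refine Finset.sum_congr rfl fun a _ => ?_
        unfold zeroed
        by_cases hca : Crossing s t (Zc s t w x) a
        · rw [if_pos hca, if_neg]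
          unfold Crossing at hca; tauto
        · rw [if_neg hca]
          unfold Crossing at hca
          by_cases e1 : Zc s t w x (s a)
          · have e2 : Zc s t w x (t a) := by by_contra e2; exact hca (Or.inl ⟨e1, e2⟩)
            rw [if_neg (by tauto)]
            apply hg.zero_of_color
            rw [← hg.zc_color e1, ← hg.zc_color e2]
          · have e2 : ¬ Zc s t w x (t a) := by intro e2; exact hca (Or.inr ⟨e1, e2⟩)
            rw [if_pos ⟨e1, e2⟩]
      rw [h1]
      apply outside_nonneg hg hF hmin hW _ _ le_rfl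
      · intro b hb
        exact (Finset.mem_filter.1 hb).2
      · intro n hn
        have hnB : ¬ Zc s t w x n := by
          intro h
          rw [bd_out_in _ C n h] at hn
          exact zero_ne_one hn
        rw [bd_out _ C n hnB] at hn
        have h0 : bd s t C n = 0 := by
          rw [hC n]; exact CharTwo.add_self_eq_zero _
        rw [h0, zero_add] at hn
        by_contra hcon
        push Not at hcon
        rw [Finset.sum_eq_zero] at hn
        · exact zero_ne_one hn
        · intro a ha
          rw [if_neg (hcon a (Finset.mem_filter.1 ha).2)]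

end Step

end Pool.Agent.H44
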