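import Mathlib

set_option linter.unusedSectionVars false

/-!
Algebra of edge sets in a (multi)graph given by two end maps `s t : A → N`:
parities, joins, conservative weightings and the contraction step used for packing cuts.
-/

namespace Pool.Agent.H44

open Finset

section Basic

variable {N A : Type*} [DecidableEq N] [DecidableEq A] (s t : A → N)

lemma sum_symmDiff_int (f : A → ℤ) (F G : Finset A) :
    ∑ a ∈ symmDiff F G, f a = ∑ a ∈ F, f a + ∑ a ∈ G, f a - 2 * ∑ a ∈ F ∩ G, f a := by
  have h1 := Finset.sum_inter_add_sum_sdiff F G f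
  have h2 := Finset.sum_inter_add_sum_sdiff G F f
  rw [Finset.inter_comm G F] at h2
  have h3 : ∑ a ∈ symmDiff F G, f a = ∑ a ∈ F \ G, f a + ∑ a ∈ G \ F, f a := by
    rw [symmDiff_def, Finset.sup_eq_union, Finset.sum_union]
    exact disjoint_sdiff_sdiff
  rw [h3]; linarith

lemma sum_symmDiff_two (f : A → ZMod 2) (F G : Finset A) :
    ∑ a ∈ symmDiff F G, f a = ∑ a ∈ F, f a + ∑ a ∈ G, f a := by
  have h1 := Finset.sum_inter_add_sum_sdiff F G f
  have h2 := Finset.sum_inter_add_sum_sdiff G F f
  rw [Finset.inter_comm G F] at h2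
  have h3 : ∑ a ∈ symmDiff F G, f a = ∑ a ∈ F \ G, f a + ∑ a ∈ G \ F, f a := by
    rw [symmDiff_def, Finset.sup_eq_union, Finset.sum_union]
    exact disjoint_sdiff_sdiff
  rw [h3, ← h1, ← h2]
  have : ∑ a ∈ F ∩ G, f a + ∑ a ∈ F ∩ G, f a = 0 := CharTwo.add_self_eq_zero _
  linear_combination -this

/-- parity of the number of ends of edges of `F` at the node `n` -/
def bd (F : Finset A) (n : N) : ZMod 2 :=
  ∑ a ∈ F, ((if s a = n then 1 else 0) + (if t a = n then 1 else 0))

/-- `F` has odd degree exactly at `x` and `y` (everywhere even when `x = y`) -/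
def IsJoin (x y : N) (F : Finset A) : Prop :=
  ∀ n, bd s t F n = (if x = n then 1 else 0) + (if y = n then 1 else 0)

variable {s t}

lemma bd_symmDiff (F G : Finset A) (n : N) :
    bd s t (symmDiff F G) n = bd s t F n + bd s t G n := sum_symmDiff_two _ _ _

lemma IsJoin.empty (x : N) : IsJoin s t x x ∅ := by
  intro n
  simp only [bd, Finset.sum_empty]
  exact (CharTwo.add_self_eq_zero _).symm

lemma IsJoin.symm {x y : N} {F : Finset A} (h : IsJoin s t x y F) : IsJoin s t y x F := by
  intro n; rw [h n, add_comm]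

lemma IsJoin.trans {x y z : N} {F G : Finset A} (h : IsJoin s t x y F) (h' : IsJoin s t y z G) :
    IsJoin s t x z (symmDiff F G) := by
  intro n
  rw [bd_symmDiff, h n, h' n]
  have : (if y = n then (1 : ZMod 2) else 0) + (if y = n then 1 else 0) = 0 :=
    CharTwo.add_self_eq_zero _
  linear_combination this

lemma IsJoin.single (a : A) : IsJoin s t (s a) (t a) {a} := by
  intro n; simp [bd]

lemma IsJoin.add_even {x y z : N} {F G : Finset A} (h : IsJoin s t x y F) (h' : IsJoin s t z z G) :
    IsJoin s t x y (symmDiff F G) := by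
  intro n
  rw [bd_symmDiff, h n, h' n]
  have : (if z = n then (1 : ZMod 2) else 0) + (if z = n then 1 else 0) = 0 :=
    CharTwo.add_self_eq_zero _
  linear_combination this

lemma IsJoin.even_any {x z : N} {G : Finset A} (h' : IsJoin s t z z G) :
    IsJoin s t x x G := by
  intro n
  rw [h' n]
  have h1 : (if z = n then (1 : ZMod 2) else 0) + (if z = n then 1 else 0) = 0 :=
    CharTwo.add_self_eq_zero _
  have h2 : (if x = n then (1 : ZMod 2) else 0) + (if x = n then 1 else 0) = 0 :=
    CharTwo.add_self_eq_zero _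
  rw [h1, h2]

/-- parity of the number of ends of edges of `F` inside `B` -/
def cr (s t : A → N) (B : N → Prop) [DecidablePred B] (F : Finset A) : ZMod 2 :=
  ∑ a ∈ F, ((if B (s a) then 1 else 0) + (if B (t a) then 1 else 0))

lemma cr_eq (B : N → Prop) [DecidablePred B] (F : Finset A) (V : Finset N)
    (hV : ∀ a ∈ F, s a ∈ V ∧ t a ∈ V) :
    cr s t B F = ∑ n ∈ V.filter B, bd s t F n := by
  unfold cr bd
  rw [Finset.sum_comm]
  refine Finset.sum_congr rfl fun a ha => ?_
  rw [Finset.sum_add_distrib, Finset.sum_ite_eq, Finset.sum_ite_eq]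
  simp [hV a ha]

lemma cr_join (B : N → Prop) [DecidablePred B] {F : Finset A} {x y : N} (h : IsJoin s t x y F) :
    cr s t B F = (if B x then 1 else 0) + (if B y then 1 else 0) := by
  rw [cr_eq B F (F.image s ∪ F.image t ∪ {x, y})]
  · rw [Finset.sum_congr rfl fun n _ => h n, Finset.sum_add_distrib, Finset.sum_ite_eq,
      Finset.sum_ite_eq]
    simp
  · intro a ha
    constructor
    · simp only [Finset.mem_union, Finset.mem_image]
      exact Or.inl (Or.inl ⟨a, ha, rfl⟩)
    · simp only [Finset.mem_union, Finset.mem_image]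
      exact Or.inl (Or.inr ⟨a, ha, rfl⟩)

lemma zmod_two_ne_one {z : ZMod 2} (h : z ≠ 1) : z = 0 := by
  revert h; revert z; decide

/-- an odd node can be joined to another odd node inside `H` -/
lemma exists_join_sub (H : Finset A) (p : N) (hp : bd s t H p = 1) :
    ∃ p', p' ≠ p ∧ bd s t H p' = 1 ∧ ∃ H' ⊆ H, IsJoin s t p p' H' := by
  classical
  by_contra hcon
  push Not at hcon
  let C : N → Prop := fun b => ∃ H' ⊆ H, IsJoin s t p b H'
  have hC0 : cr s t C H = 0 := by
    unfold cr
    apply Finset.sum_eq_zero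
    intro a ha
    have hiff : C (s a) ↔ C (t a) := by
      constructor
      · rintro ⟨H', hH', hj⟩
        refine ⟨symmDiff H' {a}, ?_, hj.trans (IsJoin.single a)⟩
        intro b hb
        rw [Finset.mem_symmDiff] at hb
        rcases hb with hb | hb
        · exact hH' hb.1
        · rw [Finset.mem_singleton] at hb; rw [hb.1]; exact ha
      · rintro ⟨H', hH', hj⟩
        refine ⟨symmDiff H' {a}, ?_, hj.trans (IsJoin.single a).symm⟩
        intro b hb
        rw [Finset.mem_symmDiff] at hb
        rcases hb with hb | hb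
        · exact hH' hb.1
        · rw [Finset.mem_singleton] at hb; rw [hb.1]; exact ha
    by_cases h : C (s a)
    · rw [if_pos h, if_pos (hiff.1 h)]; decide
    · rw [if_neg h, if_neg (fun h' => h (hiff.2 h'))]; decide
  rw [cr_eq C H (H.image s ∪ H.image t ∪ {p})] at hC0
  · have hCp : C p := ⟨∅, Finset.empty_subset _, IsJoin.empty p⟩
    rw [Finset.sum_eq_single p] at hC0
    · rw [hp] at hC0; exact one_ne_zero hC0
    · intro b hb hbp
      apply zmod_two_ne_one
      intro hb1
      obtain ⟨H', hH', hj⟩ := (Finset.mem_filter.1 hb).2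
      exact hcon b hbp hb1 H' hH' hj
    · intro hnot
      exfalso; apply hnot
      rw [Finset.mem_filter]
      exact ⟨by simp, hCp⟩
  · intro a ha
    constructor
    · simp only [Finset.mem_union, Finset.mem_image]
      exact Or.inl (Or.inl ⟨a, ha, rfl⟩)
    · simp only [Finset.mem_union, Finset.mem_image]
      exact Or.inl (Or.inr ⟨a, ha, rfl⟩)

end Basic

end Pool.Agent.H44
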