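import Pool.Agent.Helper44.Hex.Lattice

set_option linter.unusedSectionVars false

/-!
The weighting of the subdivided dual graph given by a colouring with the fewest monochromatic
edges is conservative.
-/

namespace Pool.Agent.H44

open Finset

/-- edges of the induced subgraph on `S` -/
def GE (S : Finset V) : Finset Ed := (S ×ˢ (univ : Finset (Fin 3))).filter fun x => x.1 + e3 x.2 ∈ S

lemma mem_GE {S : Finset V} {x : Ed} : x ∈ GE S ↔ x.1 ∈ S ∧ x.1 + e3 x.2 ∈ S := by
  simp [GE]

/-- monochromatic edges -/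
def mono (S : Finset V) (σ : V → ZMod 2) : Finset Ed :=
  (GE S).filter fun x => σ x.1 = σ (x.1 + e3 x.2)

def w0' (S : Finset V) (σ : V → ZMod 2) (x : Ed) : ℤ :=
  if x ∈ GE S then (if σ x.1 = σ (x.1 + e3 x.2) then -1 else 1) else 0

def w0 (S : Finset V) (σ : V → ZMod 2) (a : Hf) : ℤ := w0' S σ a.1

def c0 (S : Finset V) : Nd → ZMod 2 := Sum.elim (fun _ => 0) (fun x => if x ∈ GE S then 1 else 0)

lemma exists_min_coloring (S : Finset V) :
    ∃ σ : V → ZMod 2, ∀ σ' : V → ZMod 2, (mono S σ).card ≤ (mono S σ').card := by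
  obtain ⟨m, ⟨σ, rfl⟩, hm⟩ := WellFounded.has_min (wellFounded_lt (α := ℕ))
    (Set.range fun σ : V → ZMod 2 => (mono S σ).card) ⟨_, fun _ => 0, rfl⟩
  exact ⟨σ, fun σ' => not_lt.1 (hm _ ⟨σ', rfl⟩)⟩

lemma sum_single_ind {α : Type*} [DecidableEq α] (P : Finset α) (y : α) :
    ∑ x ∈ P, (if x = y then (1 : ZMod 2) else 0) = if y ∈ P then 1 else 0 := by
  rw [Finset.sum_ite_eq']

lemma up_pointwise (v : V) (x : Ed) :
    ((if tri x true = (v, true) then (1 : ZMod 2) else 0) +
      (if tri x false = (v, true) then 1 else 0)) =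
    (if x = (v, 0) then 1 else 0) + (if x = (v, 1) then 1 else 0) +
      (if x = (v + (1, 0), 2) then 1 else 0) := by
  obtain ⟨⟨a, b⟩, i⟩ := x
  obtain ⟨p, q⟩ := v
  fin_cases i
  · simp [tri, upT, dnT, Prod.ext_iff]
  · simp [tri, upT, dnT, Prod.ext_iff]
  · simp only [tri, upT, dnT, Prod.ext_iff]
    simp
    have : (a + -1 = p ∧ b = q) ↔ (a = p + 1 ∧ b = q) := by omega
    simp [this]

lemma dn_pointwise (v : V) (x : Ed) :
    ((if tri x true = (v, false) then (1 : ZMod 2) else 0) +
      (if tri x false = (v, false) then 1 else 0)) =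
    (if x = (v + (-1, 1), 0) then 1 else 0) + (if x = (v, 1) then 1 else 0) +
      (if x = (v, 2) then 1 else 0) := by
  obtain ⟨⟨a, b⟩, i⟩ := x
  obtain ⟨p, q⟩ := v
  fin_cases i
  · simp only [tri, upT, dnT, Prod.ext_iff]
    simp
    have : (a + 1 = p ∧ b + -1 = q) ↔ (a = p + -1 ∧ b = q + 1) := by omega
    simp [this]
  · simp [tri, upT, dnT, Prod.ext_iff]
  · simp [tri, upT, dnT, Prod.ext_iff]

lemma cons_w0 {S : Finset V} {σ : V → ZMod 2}
    (hσ : ∀ σ' : V → ZMod 2, (mono S σ).card ≤ (mono S σ').card) :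
    Cons hs ht (w0 S σ) := by
  intro z F hF
  have h0 : ∀ n, bd hs ht F n = 0 := fun n => by
    rw [hF n]; exact CharTwo.add_self_eq_zero _
  have hmid : ∀ x : Ed, (x, true) ∈ F ↔ (x, false) ∈ F := by
    intro x
    have h1 := h0 (Sum.inr x)
    unfold bd at h1
    have h2 : ∀ a ∈ F, ((if hs a = Sum.inr x then (1 : ZMod 2) else 0) +
        (if ht a = Sum.inr x then 1 else 0)) =
        (if a = (x, true) then 1 else 0) + (if a = (x, false) then 1 else 0) := by
      rintro ⟨y, b⟩ _
      by_cases hy : y = x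
      · cases b <;> simp [hs, ht, hy]
      · simp [hs, ht, hy]
    rw [Finset.sum_congr rfl h2, Finset.sum_add_distrib, sum_single_ind, sum_single_ind] at h1
    by_cases a1 : (x, true) ∈ F <;> by_cases a2 : (x, false) ∈ F <;> simp_all
  set P : Finset Ed := (F.filter fun a => a.2 = true).image Prod.fst with hP
  have hmemP : ∀ x, x ∈ P ↔ (x, true) ∈ F := by
    intro x
    rw [hP, Finset.mem_image]
    constructor
    · rintro ⟨⟨y, b⟩, hy, rfl⟩
      rw [Finset.mem_filter] at hy
      obtain ⟨h1, h2⟩ := hy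
      simp only at h2
      rw [h2] at h1; exact h1
    · intro h
      exact ⟨(x, true), Finset.mem_filter.2 ⟨h, rfl⟩, rfl⟩
  have hFP : F = P ×ˢ (univ : Finset Bool) := by
    ext ⟨x, b⟩
    rw [Finset.mem_product, hmemP]
    cases b
    · simp [hmid x]
    · simp
  have htri : ∀ τ : Tri, ∑ x ∈ P, ((if tri x true = τ then (1 : ZMod 2) else 0) +
      (if tri x false = τ then 1 else 0)) = 0 := by
    intro τ
    have h1 := h0 (Sum.inl τ)
    unfold bd at h1
    rw [hFP, Finset.sum_product] at h1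
    refine Eq.trans ?_ h1
    refine Finset.sum_congr rfl fun x _ => ?_
    rw [Fintype.sum_bool]
    simp [hs, ht]
  have hup : ∀ v : V, ind2 P (v, 0) + ind2 P (v, 1) + ind2 P (v + (1, 0), 2) = 0 := by
    intro v
    have h1 := htri (v, true)
    rw [Finset.sum_congr rfl fun x _ => up_pointwise v x, Finset.sum_add_distrib,
      Finset.sum_add_distrib, sum_single_ind, sum_single_ind, sum_single_ind] at h1
    exact h1
  have hdn : ∀ v : V, ind2 P (v + (-1, 1), 0) + ind2 P (v, 1) + ind2 P (v, 2) = 0 := by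
    intro v
    have h1 := htri (v, false)
    rw [Finset.sum_congr rfl fun x _ => dn_pointwise v x, Finset.sum_add_distrib,
      Finset.sum_add_distrib, sum_single_ind, sum_single_ind, sum_single_ind] at h1
    exact h1
  have hcut := cut_lemma hup hdn
  -- compare with the flipped colouring
  have hcmp := hσ (fun v => σ v + ray P v)
  have hw : wt (w0 S σ) F = 2 * ∑ x ∈ P, w0' S σ x := by
    unfold wt
    rw [hFP, Finset.sum_product, Finset.mul_sum]
    refine Finset.sum_congr rfl fun x _ => ?_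
    simp [w0]
  have hdiff : ((mono S (fun v => σ v + ray P v)).card : ℤ) - (mono S σ).card =
      ∑ x ∈ P, w0' S σ x := by
    have h1 : ∀ σ'' : V → ZMod 2, ((mono S σ'').card : ℤ) =
        ∑ x ∈ GE S, if σ'' x.1 = σ'' (x.1 + e3 x.2) then 1 else 0 := by
      intro σ''
      unfold mono
      rw [Finset.card_filter]
      norm_cast
    rw [h1, h1, ← Finset.sum_sub_distrib]
    have h2 : ∑ x ∈ P, w0' S σ x = ∑ x ∈ GE S, if x ∈ P then w0' S σ x else 0 := by
      rw [← Finset.sum_filter, Finset.filter_mem_eq_inter, ← Finset.sum_subset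
        (Finset.inter_subset_right (s₁ := GE S) (s₂ := P))]
      intro x hx hx'
      unfold w0'
      rw [if_neg]
      intro h; exact hx' (Finset.mem_inter.2 ⟨h, hx⟩)
    rw [h2]
    refine Finset.sum_congr rfl fun x hx => ?_
    have h3 := hcut x
    unfold w0'
    rw [if_pos hx]
    have key : ∀ a b r1 r2 : ZMod 2, (a + r1 = b + r2) ↔ (a + b = r1 + r2) := by decide
    have key2 : ∀ a b : ZMod 2, (a = b) ↔ (a + b = 0) := by decide
    have key3 : ∀ a b : ZMod 2, a + b ≠ 0 → a + b = 1 := by decide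
    have h4 : (σ x.1 + ray P x.1 = σ (x.1 + e3 x.2) + ray P (x.1 + e3 x.2)) ↔
        (σ x.1 + σ (x.1 + e3 x.2) = ind2 P x) := by rw [h3]; exact key _ _ _ _
    simp only [h4, key2 (σ x.1) (σ (x.1 + e3 x.2))]
    unfold ind2
    by_cases hxP : x ∈ P
    · rw [if_pos hxP, if_pos hxP]
      by_cases hs0 : σ x.1 + σ (x.1 + e3 x.2) = 0
      · rw [hs0]; simp
      · rw [key3 _ _ hs0]; simp
    · rw [if_neg hxP, if_neg hxP]
      simp
  rw [hw, ← hdiff]
  have : ((mono S σ).card : ℤ) ≤ ((mono S (fun v => σ v + ray P v)).card : ℤ) := by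
    exact_mod_cast hcmp
  linarith

lemma goodW_w0 {S : Finset V} {σ : V → ZMod 2}
    (hσ : ∀ σ' : V → ZMod 2, (mono S σ).card ≤ (mono S σ').card) :
    GoodW hs ht (w0 S σ) (c0 S) where
  lo := by intro a; unfold w0 w0'; split_ifs <;> norm_num
  hi := by intro a; unfold w0 w0'; split_ifs <;> norm_num
  par := by
    intro a
    simp only [hs, ht, c0, w0, w0', Sum.elim_inl, Sum.elim_inr]
    split_ifs <;> decide
  cons := cons_w0 hσ

/-- the run for a best colouring -/
lemma exists_hex_run {S : Finset V} {σ : V → ZMod 2}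
    (hσ : ∀ σ' : V → ZMod 2, (mono S σ).card ≤ (mono S σ').card) :
    Nonempty (CutRun hs ht (w0 S σ) (c0 S) (2 * (mono S σ).card)) := by
  apply exists_run _ _ _ (mono S σ ×ˢ (univ : Finset Bool)) (goodW_w0 hσ)
  · rintro ⟨x, b⟩
    simp only [w0, w0', Finset.mem_product, Finset.mem_univ, and_true, mono, Finset.mem_filter]
    split_ifs with h1 h2
    · simp [h1, h2]
    · simp [h2]
    · simp [h1]
  · rw [Finset.card_product]; simp [mul_comm]

end Pool.Agent.H44
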